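import Pool.Agent.Lib.MP_b900b7_co.Volume

set_option autoImplicit false
set_option linter.unusedSectionVars false

namespace Pool.Agent.Lib.MP_b900b7_co

open Module MeasureTheory Metric Filter Topology

theorem clique_bound {α : Type*} (bad : α → α → Prop) [DecidableRel bad]
    (symm : ∀ x y, bad x y → bad y x) (irr : ∀ x, ¬ bad x x) (Y : Finset α) :
    ∃ Q ⊆ Y, (∀ x ∈ Q, ∀ y ∈ Q, ¬ bad x y) ∧
      2 * (Y.card : ℝ) ≤ 2 * Q.card + ∑ x ∈ Y, ∑ y ∈ Y, if bad x y then (1 : ℝ) else 0 := by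
  classical
  induction Y using Finset.induction_on with
  | empty => exact ⟨∅, by simp, by simp, by simp⟩
  | insert a Y ha ih =>
    obtain ⟨Q, hQ, hb, hs⟩ := ih
    have nn : ∀ x y, (0 : ℝ) ≤ if bad x y then (1 : ℝ) else 0 := fun x y => by split_ifs <;> norm_num
    have n1 : (0 : ℝ) ≤ ∑ y ∈ Y, if bad a y then (1 : ℝ) else 0 := Finset.sum_nonneg fun y _ => nn _ _
    have n2 : (0 : ℝ) ≤ ∑ y ∈ Y, if bad y a then (1 : ℝ) else 0 := Finset.sum_nonneg fun y _ => nn _ _
    simp only [Finset.sum_insert ha, Finset.sum_add_distrib, Finset.card_insert_of_notMem ha]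
    by_cases h : ∃ b ∈ Y, bad a b
    · obtain ⟨b, hbY, hab⟩ := h
      refine ⟨Q, hQ.trans (Finset.subset_insert _ _), hb, ?_⟩
      have m1 := Finset.single_le_sum (f := fun y => if bad a y then (1 : ℝ) else 0)
        (fun y _ => nn a y) hbY
      have m2 := Finset.single_le_sum (f := fun y => if bad y a then (1 : ℝ) else 0)
        (fun y _ => nn y a) hbY
      simp only [hab, symm _ _ hab, if_true] at m1 m2
      push_cast
      linarith [nn a a]
    · push Not at h
      refine ⟨insert a Q, Finset.insert_subset_insert _ hQ, ?_, ?_⟩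
      · intro x hx y hy
        rcases Finset.mem_insert.mp hx with e | hx <;> rcases Finset.mem_insert.mp hy with e' | hy
        · rw [e, e']; exact irr a
        · rw [e]; exact h y (hQ hy)
        · rw [e']; exact fun t => h x (hQ hx) (symm _ _ t)
        · exact hb x hx y hy
      · rw [Finset.card_insert_of_notMem (fun t => ha (hQ t))]
        push_cast
        linarith [nn a a]

variable {E : Type*} [NormedAddCommGroup E] [NormedSpace ℝ E] [FiniteDimensional ℝ E]
  [MeasurableSpace E] [BorelSpace E] (μ : Measure E) [μ.IsAddHaarMeasure]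

theorem cell_disj {x y : E} (h : 1 ≤ ‖x - y‖) : Disjoint (ball x (1 / 2)) (ball y (1 / 2)) := by
  apply ball_disjoint_ball
  rw [dist_eq_norm]; linarith

theorem cell_vol (h3 : finrank ℝ E = 3) (x : E) : μ.real (ball x (1 / 2)) = VV μ := by
  rw [ball_vol μ h3 _ (by norm_num)]; norm_num

include μ in
theorem card_le (h3 : finrank ℝ E = 3) (G : Finset E) (x : E) {R : ℝ} (hR : 0 ≤ R)
    (hG : ∀ y ∈ G, ‖y - x‖ ≤ R) (hs : ∀ p ∈ G, ∀ q ∈ G, p ≠ q → 1 ≤ ‖p - q‖) :
    (G.card : ℝ) ≤ (2 * R + 1) ^ 3 := by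
  have h1 := measureReal_biUnion_finset (μ := μ) (s := G) (f := fun y => ball y (1 / 2))
    (fun p hp q hq ne => cell_disj (hs p hp q hq ne)) (fun _ _ => measurableSet_ball)
    (fun _ _ => ball_fin μ _ _)
  have h2 : (⋃ y ∈ G, ball y (1 / 2)) ⊆ ball x (R + 1 / 2) := by
    intro z hz
    simp only [Set.mem_iUnion] at hz
    obtain ⟨y, hy, hz⟩ := hz
    have := hG y hy
    rw [← dist_eq_norm] at this
    rw [mem_ball] at hz ⊢
    linarith [dist_triangle z y x]
  have h4 := measureReal_mono h2 (ball_fin μ _ _)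
  rw [h1, ball_vol μ h3 _ (by linarith)] at h4
  simp only [cell_vol μ h3, Finset.sum_const, nsmul_eq_mul] at h4
  have := le_of_mul_le_mul_right h4 (VV_pos μ)
  calc _ ≤ _ := this
    _ = _ := by ring

theorem shift_vol (x y : E) (r R : ℝ) :
    μ.real (ball y r ∩ ball x R) = μ.real (ball (y - x) r ∩ ball 0 R) := by
  have e : ball (y - x) r ∩ ball (0 : E) R = (fun z => z + x) ⁻¹' (ball y r ∩ ball x R) := by
    ext z
    simp only [Set.mem_inter_iff, mem_ball, dist_eq_norm, Set.mem_preimage, sub_zero,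
      add_sub_cancel_right]
    rw [show z + x - y = z - (y - x) by abel]
  simp only [Measure.real]
  rw [e, measure_preimage_add_right]

def Bad (x y : E) : Prop := 1 < ‖y - x‖ ∧ ‖y - x‖ < 2

open Classical in
theorem per_point (h3 : finrank ℝ E = 3) {η : ℝ} (hη : ∀ v : E, 1 ≤ ‖v‖ → ‖v‖ ≤ 2 →
      VV μ / 250 ≤ bb μ v → aa μ v + η ≤ 4 * bb μ v)
    (F F' N : Finset E) (x : E) (hF : F ⊆ F') (hN : N ⊆ F') (hc : 26 ≤ N.card)
    (hn : ∀ y ∈ N, ‖y - x‖ ≤ 1) (hs : ∀ p ∈ F', ∀ q ∈ F', p ≠ q → 1 ≤ ‖p - q‖) :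
    μ.real (ball x 1 \ ⋃ y ∈ F', ball y (1 / 2)) +
      1 / 2 * ∑ y ∈ F.filter (Bad x), μ.real (ball y 1 ∩ ball x 1) ≤
      2 * VV μ - min (VV μ / 2) (η / 2) := by
  set B := F.filter (Bad x) with hB
  set G := ⋃ y ∈ F', ball y (1 / 2) with hG
  have mG : MeasurableSet G := Finset.measurableSet_biUnion _ (fun _ _ => measurableSet_ball)
  have dj : Disjoint N B := by
    rw [Finset.disjoint_left]
    intro y h1 h2
    linarith [hn y h1, (Finset.mem_filter.mp h2).2.1]
  have sub : N ∪ B ⊆ F' := Finset.union_subset hN ((Finset.filter_subset _ _).trans hF)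
  have h1 := measureReal_biUnion_finset (μ := μ) (s := N ∪ B)
    (f := fun y => ball y (1 / 2) ∩ ball x (3 / 2))
    (fun p hp q hq ne => (cell_disj (hs p (sub hp) q (sub hq) ne)).mono Set.inter_subset_left
      Set.inter_subset_left) (fun _ _ => measurableSet_ball.inter measurableSet_ball)
    (fun _ _ => measure_ne_top_of_subset Set.inter_subset_left (ball_fin μ _ _))
  have h2 : (⋃ y ∈ N ∪ B, ball y (1 / 2) ∩ ball x (3 / 2)) ⊆ ball x (3 / 2) ∩ G := by
    intro z hz
    simp only [Set.mem_iUnion] at hz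
    obtain ⟨y, hy, hz⟩ := hz
    refine ⟨hz.2, ?_⟩
    simp only [hG, Set.mem_iUnion]
    exact ⟨y, sub hy, hz.1⟩
  have h4 := measureReal_mono h2 (measure_ne_top_of_subset Set.inter_subset_left (ball_fin μ _ _))
  have h5 := measureReal_inter_add_sdiff (μ := μ) (s := ball x (3 / 2)) mG (ball_fin μ _ _)
  have h6 : μ.real (ball x 1 \ G) ≤ μ.real (ball x (3 / 2) \ G) :=
    measureReal_mono (Set.sdiff_subset_sdiff_left (ball_subset_ball (by norm_num)))
      (measure_ne_top_of_subset Set.sdiff_subset (ball_fin μ _ _))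
  rw [h1, Finset.sum_union dj] at h4
  have h7 : ∑ y ∈ N, μ.real (ball y (1 / 2) ∩ ball x (3 / 2)) = N.card * VV μ := by
    rw [Finset.sum_congr rfl (g := fun _ => VV μ)]
    · simp
    · intro y hy
      rw [Set.inter_eq_left.mpr, cell_vol μ h3]
      apply ball_subset_ball'
      rw [dist_eq_norm]
      linarith [hn y hy]
  rw [ball_vol μ h3 _ (by norm_num)] at h5
  have V0 := VV_pos μ
  have hc' : (26 : ℝ) ≤ N.card := by exact_mod_cast hc
  have e1 : ∑ y ∈ B, μ.real (ball y (1 / 2) ∩ ball x (3 / 2)) = ∑ y ∈ B, bb μ (y - x) :=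
    Finset.sum_congr rfl fun y _ => shift_vol μ x y _ _
  have e2 : ∑ y ∈ B, μ.real (ball y 1 ∩ ball x 1) = ∑ y ∈ B, aa μ (y - x) :=
    Finset.sum_congr rfl fun y _ => shift_vol μ x y _ _
  rw [h7, e1] at h4
  rw [e2]
  have main : μ.real (ball x 1 \ G) + ∑ y ∈ B, bb μ (y - x) ≤ VV μ := by nlinarith
  have u0 : 0 ≤ μ.real (ball x 1 \ G) := measureReal_nonneg
  have le4 : ∀ y ∈ B, aa μ (y - x) ≤ 4 * bb μ (y - x) := fun y hy =>
    aa_le μ h3 (Finset.mem_filter.mp hy).2.1.le (Finset.mem_filter.mp hy).2.2.le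
  by_cases hx : ∃ y ∈ B, VV μ / 250 ≤ bb μ (y - x)
  · obtain ⟨y, hy, hy'⟩ := hx
    have k := hη _ (Finset.mem_filter.mp hy).2.1.le (Finset.mem_filter.mp hy).2.2.le hy'
    have := Finset.single_le_sum (f := fun y => 4 * bb μ (y - x) - aa μ (y - x))
      (fun y hy => sub_nonneg.mpr (le4 y hy)) hy
    rw [Finset.sum_sub_distrib, ← Finset.mul_sum] at this
    linarith [min_le_right (VV μ / 2) (η / 2)]
  · push Not at hx
    have c1 := card_le μ h3 B x (R := 2) (by norm_num)
      (fun y hy => (Finset.mem_filter.mp hy).2.2.le)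
      (fun p hp q hq => hs p (sub (Finset.mem_union_right _ hp)) q (sub (Finset.mem_union_right _ hq)))
    have c2 := Finset.sum_le_card_nsmul B (fun y => bb μ (y - x)) (VV μ / 250) (fun y hy => (hx y hy).le)
    rw [nsmul_eq_mul] at c2
    have c3 := Finset.sum_le_sum le4
    rw [← Finset.mul_sum] at c3
    have : (B.card : ℝ) * (VV μ / 250) ≤ VV μ / 2 := by nlinarith
    linarith [min_le_left (VV μ / 2) (η / 2)]

theorem ind_int {A : Set E} (hA : MeasurableSet A) (h : μ A ≠ ⊤) :
    Integrable (A.indicator (1 : E → ℝ)) μ :=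
  (integrable_indicator_iff hA).2 (integrableOn_const h)

open Classical in
theorem averaging (h3 : finrank ℝ E = 3) (no7 : ∀ S : Finset E, Equi (S : Set E) → S.card ≤ 6)
    (F F' : Finset E) (hs : ∀ p ∈ F, ∀ q ∈ F, p ≠ q → 1 ≤ ‖p - q‖) :
    8 * VV μ * F.card ≤ 6 * VV μ * F'.card + ∑ x ∈ F, (μ.real (ball x 1 \ ⋃ y ∈ F', ball y (1 / 2)) +
      1 / 2 * ∑ y ∈ F.filter (Bad x), μ.real (ball y 1 ∩ ball x 1)) := by
  set G := ⋃ y ∈ F', ball y (1 / 2) with hG
  have mG : MeasurableSet G := Finset.measurableSet_biUnion _ (fun _ _ => measurableSet_ball)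
  have i1 : ∀ x : E, ∀ r : ℝ, Integrable ((ball x r).indicator (1 : E → ℝ)) μ :=
    fun x r => ind_int μ measurableSet_ball (ball_fin μ _ _)
  have i2 : ∀ x : E, Integrable ((ball x 1 \ G).indicator (1 : E → ℝ)) μ :=
    fun x => ind_int μ (measurableSet_ball.diff mG)
      (measure_ne_top_of_subset Set.sdiff_subset (ball_fin μ _ _))
  have i3 : ∀ x y : E, Integrable ((ball y 1 ∩ ball x 1).indicator (1 : E → ℝ)) μ :=
    fun x y => ind_int μ (measurableSet_ball.inter measurableSet_ball)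
      (measure_ne_top_of_subset Set.inter_subset_left (ball_fin μ _ _))
  have j1 : Integrable (fun z => ∑ x ∈ F, (ball x 1).indicator (1 : E → ℝ) z) μ :=
    integrable_finsetSum _ fun x _ => i1 x 1
  have j2 : Integrable (fun z => ∑ x ∈ F', (ball x (1 / 2)).indicator (1 : E → ℝ) z) μ :=
    integrable_finsetSum _ fun x _ => i1 x _
  have j3 : ∀ x, Integrable (fun z => ∑ y ∈ F.filter (Bad x),
      (ball y 1 ∩ ball x 1).indicator (1 : E → ℝ) z) μ :=
    fun x => integrable_finsetSum _ fun y _ => i3 x y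
  have j4 : ∀ x, Integrable (fun z => (ball x 1 \ G).indicator (1 : E → ℝ) z + 1 / 2 *
      ∑ y ∈ F.filter (Bad x), (ball y 1 ∩ ball x 1).indicator (1 : E → ℝ) z) μ :=
    fun x => (i2 x).add ((j3 x).const_mul _)
  have j5 := integrable_finsetSum F fun x _ => j4 x
  have pw : ∀ z, ∑ x ∈ F, (ball x 1).indicator (1 : E → ℝ) z ≤
      6 * ∑ x ∈ F', (ball x (1 / 2)).indicator (1 : E → ℝ) z +
      ∑ x ∈ F, ((ball x 1 \ G).indicator (1 : E → ℝ) z + 1 / 2 *
        ∑ y ∈ F.filter (Bad x), (ball y 1 ∩ ball x 1).indicator (1 : E → ℝ) z) := by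
    intro z
    have nn : ∀ A : Set E, 0 ≤ A.indicator (1 : E → ℝ) z :=
      fun A => Set.indicator_nonneg (fun _ _ => zero_le_one) z
    rw [Finset.sum_add_distrib, ← Finset.mul_sum]
    have n1 : 0 ≤ ∑ x ∈ F', (ball x (1 / 2)).indicator (1 : E → ℝ) z :=
      Finset.sum_nonneg fun _ _ => nn _
    have n2 : 0 ≤ ∑ x ∈ F, (ball x 1 \ G).indicator (1 : E → ℝ) z :=
      Finset.sum_nonneg fun _ _ => nn _
    have n3 : 0 ≤ ∑ x ∈ F, ∑ y ∈ F.filter (Bad x), (ball y 1 ∩ ball x 1).indicator (1 : E → ℝ) z :=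
      Finset.sum_nonneg fun _ _ => Finset.sum_nonneg fun _ _ => nn _
    by_cases hz : z ∈ G
    · obtain ⟨Q, hQ, hb, hc⟩ := clique_bound (Bad (E := E))
        (fun x y h => by unfold Bad at h ⊢; rwa [norm_sub_rev])
        (fun x h => by unfold Bad at h; norm_num at h) (F.filter (fun x => z ∈ ball x 1))
      have q6 : (Q.card : ℝ) ≤ 6 := by
        have := no7 Q (fun p hp q hq ne => by
          have hp' := Finset.mem_filter.mp (hQ hp)
          have hq' := Finset.mem_filter.mp (hQ hq)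
          have a1 := hs p hp'.1 q hq'.1 ne
          have a2 : ‖p - q‖ < 2 := by
            have b1 := mem_ball.mp hp'.2
            have b2 := mem_ball.mp hq'.2
            rw [← dist_eq_norm]
            linarith [dist_triangle_left p q z]
          have a3 := hb q hq p hp
          unfold Bad at a3
          push Not at a3
          by_contra t
          linarith [a3 (lt_of_le_of_ne a1 (Ne.symm t))])
        exact_mod_cast this
      have e1 : ∑ x ∈ F, (ball x 1).indicator (1 : E → ℝ) z =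
          (F.filter (fun x => z ∈ ball x 1)).card := by
        simp [Set.indicator_apply]
      have e2 : ∑ x ∈ F, ∑ y ∈ F.filter (Bad x), (ball y 1 ∩ ball x 1).indicator (1 : E → ℝ) z =
          ∑ x ∈ F.filter (fun x => z ∈ ball x 1), ∑ y ∈ F.filter (fun x => z ∈ ball x 1),
            if Bad x y then (1 : ℝ) else 0 := by
        simp only [Finset.sum_filter]
        refine Finset.sum_congr rfl fun x _ => ?_
        by_cases hx : z ∈ ball x 1
        · rw [if_pos hx]
          refine Finset.sum_congr rfl fun y _ => ?_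
          by_cases hy : z ∈ ball y 1 <;> by_cases hb : Bad x y <;> simp only [hy, hb, if_true, if_false]
          · exact Set.indicator_of_mem (show z ∈ ball y 1 ∩ ball x 1 from ⟨hy, hx⟩) _
          · exact Set.indicator_of_notMem (fun t => hy t.1) _
        · rw [if_neg hx]
          refine Finset.sum_eq_zero fun y _ => ?_
          rw [Set.indicator_of_notMem (fun t => hx t.2), ite_self]
      have e3 : 1 ≤ ∑ x ∈ F', (ball x (1 / 2)).indicator (1 : E → ℝ) z := by
        simp only [hG, Set.mem_iUnion] at hz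
        obtain ⟨y, hy, hz⟩ := hz
        have := Finset.single_le_sum (f := fun x => (ball x (1 / 2)).indicator (1 : E → ℝ) z)
          (fun _ _ => nn _) hy
        rwa [Set.indicator_of_mem hz] at this
      rw [e1, e2]
      linarith
    · have : ∑ x ∈ F, (ball x 1).indicator (1 : E → ℝ) z =
          ∑ x ∈ F, (ball x 1 \ G).indicator (1 : E → ℝ) z := by
        refine Finset.sum_congr rfl fun x _ => ?_
        simp [Set.indicator_apply, hz]
      linarith
  have key := integral_mono j1 ((j2.const_mul 6).add j5) pw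
  rw [integral_finsetSum _ (fun x _ => i1 x 1)] at key
  simp only [Pi.add_apply] at key
  rw [integral_add (j2.const_mul 6) j5, integral_const_mul, integral_finsetSum _ (fun x _ => i1 x _),
    integral_finsetSum _ (fun x _ => j4 x)] at key
  simp only [integral_indicator_one measurableSet_ball, cell_vol μ h3, ball_vol μ h3 _ one_pos,
    Finset.sum_const, nsmul_eq_mul] at key
  have e : ∀ x ∈ F, ∫ z, ((ball x 1 \ G).indicator (1 : E → ℝ) z + 1 / 2 *
      ∑ y ∈ F.filter (Bad x), (ball y 1 ∩ ball x 1).indicator (1 : E → ℝ) z) ∂μ =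
      μ.real (ball x 1 \ G) + 1 / 2 * ∑ y ∈ F.filter (Bad x), μ.real (ball y 1 ∩ ball x 1) := by
    intro x _
    rw [integral_add (i2 x) ((j3 x).const_mul _), integral_const_mul,
      integral_finsetSum _ (fun y _ => i3 x y), integral_indicator_one (measurableSet_ball.diff mG)]
    simp only [integral_indicator_one (measurableSet_ball.inter measurableSet_ball)]
  rw [Finset.sum_congr rfl e] at key
  linarith

include μ in
theorem no_packing (h3 : finrank ℝ E = 3) (no7 : ∀ S : Finset E, Equi (S : Set E) → S.card ≤ 6)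
    (hc : ¬ Cyl E) (X : Set E) (x0 : E) (hx0 : x0 ∈ X) (hs : ∀ p ∈ X, ∀ q ∈ X, p ≠ q → 1 ≤ ‖p - q‖)
    (hn : ∀ x ∈ X, ∃ N : Finset E, (N : Set E) ⊆ X ∧ 26 ≤ N.card ∧ ∀ y ∈ N, ‖y - x‖ ≤ 1) : False := by
  classical
  obtain ⟨η, η0, hη⟩ := gap μ h3 hc
  have fin : ∀ k : ℕ, {y | y ∈ X ∧ ‖y - x0‖ ≤ k}.Finite := by
    intro k
    by_contra t
    obtain ⟨G, hG, hc⟩ := Set.Infinite.exists_subset_card_eq t ((2 * k + 1) ^ 3 + 1)
    have := card_le μ h3 G x0 (R := k) (Nat.cast_nonneg _) (fun y hy => (hG hy).2)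
      (fun p hp q hq => hs p (hG hp).1 q (hG hq).1)
    rw [hc] at this
    push_cast at this
    linarith
  let F : ℕ → Finset E := fun k => (fin k).toFinset
  have mF : ∀ k y, y ∈ F k ↔ y ∈ X ∧ ‖y - x0‖ ≤ k := fun k y => by simp [F]
  have sF : ∀ k, ∀ p ∈ F k, ∀ q ∈ F k, p ≠ q → 1 ≤ ‖p - q‖ :=
    fun k p hp q hq => hs p ((mF k p).mp hp).1 q ((mF k q).mp hq).1
  have V0 := VV_pos μ
  set c := min (VV μ / 2) (η / 2) with hcd
  have c0 : 0 < c := lt_min (by linarith) (by linarith)
  obtain ⟨r, hr⟩ : ∃ r, r = 1 + c / (6 * VV μ) := ⟨_, rfl⟩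
  have r1 : 1 < r := by rw [hr]; linarith [div_pos c0 (show 0 < 6 * VV μ by linarith)]
  have step : ∀ k, r * (F k).card ≤ (F (k + 1)).card := by
    intro k
    have a1 := averaging μ h3 no7 (F k) (F (k + 1)) (sF k)
    have a2 := Finset.sum_le_card_nsmul (F k) _ (2 * VV μ - c) (fun x hx => by
      obtain ⟨N, N1, N2, N3⟩ := hn x ((mF k x).mp hx).1
      exact per_point μ h3 hη (F k) (F (k + 1)) N x (fun y hy => (mF _ _).mpr ⟨((mF k y).mp hy).1, by
          push_cast; linarith [((mF k y).mp hy).2]⟩)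
        (fun y hy => (mF _ _).mpr ⟨N1 hy, by
          have := norm_sub_le_norm_sub_add_norm_sub y x x0
          push_cast; linarith [((mF k x).mp hx).2, N3 y hy]⟩) N2 N3 (sF (k + 1)))
    rw [nsmul_eq_mul] at a2
    have a3 : (6 * VV μ + c) * (F k).card ≤ 6 * VV μ * (F (k + 1)).card := by linarith
    have a4 : 6 * VV μ * r = 6 * VV μ + c := by rw [hr]; field_simp
    rw [← a4, mul_assoc] at a3
    exact le_of_mul_le_mul_left a3 (by linarith)
  have low : ∀ k, r ^ k ≤ (F k).card := by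
    intro k
    induction k with
    | zero =>
      have : 0 < (F 0).card := Finset.card_pos.mpr ⟨x0, (mF _ _).mpr ⟨hx0, by simp⟩⟩
      rw [pow_zero]; exact_mod_cast this
    | succ k ih =>
      rw [pow_succ']
      exact (mul_le_mul_of_nonneg_left ih (by linarith)).trans (step k)
  have t := tendsto_pow_const_div_const_pow_of_one_lt 3 r1
  obtain ⟨k, hk1, hk2⟩ := ((t.eventually (gt_mem_nhds (show (0 : ℝ) < 1 / 27 by norm_num))).and
    (eventually_ge_atTop 1)).exists
  have up := card_le μ h3 (F k) x0 (R := k) (Nat.cast_nonneg _) (fun y hy => ((mF k y).mp hy).2) (sF k)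
  have k1 : (1 : ℝ) ≤ k := by exact_mod_cast hk2
  have p : (2 * (k : ℝ) + 1) ^ 3 ≤ (3 * k) ^ 3 := pow_le_pow_left₀ (by linarith) (by linarith) 3
  rw [div_lt_iff₀ (by positivity)] at hk1
  nlinarith [low k]

end Pool.Agent.Lib.MP_b900b7_co
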