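import Mathlib

set_option autoImplicit false
set_option linter.unusedSectionVars false

namespace Pool.Agent.Lib.MP_b900b7_co

open Module

variable {E : Type*} [NormedAddCommGroup E] [NormedSpace ℝ E]

/-- All mutual distances equal one. -/
def Equi (S : Set E) : Prop := ∀ p ∈ S, ∀ q ∈ S, p ≠ q → ‖p - q‖ = 1

theorem Equi.le {S : Set E} (hS : Equi S) {p q : E} (hp : p ∈ S) (hq : q ∈ S) : ‖p - q‖ ≤ 1 := by
  by_cases h : p = q
  · simp [h]
  · exact (hS p hp q hq h).le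

theorem exists_fn (v : E) (hv : ‖v‖ = 1) :
    ∃ φ : E →ₗ[ℝ] ℝ, φ v = 1 ∧ ∀ w, |φ w| ≤ ‖w‖ := by
  obtain ⟨g, hg, hx⟩ := exists_dual_vector ℝ v (by rw [hv]; norm_num)
  refine ⟨g.toLinearMap, ?_, fun w => ?_⟩
  · simpa [hv] using hx
  · have := g.le_opNorm w
    rw [hg, one_mul] at this
    simpa using this

theorem Equi.fn {S : Set E} (hS : Equi S) {p q : E} (hp : p ∈ S) (hq : q ∈ S) (hpq : p ≠ q) :
    ∃ φ : E →ₗ[ℝ] ℝ, φ p = φ q + 1 ∧ (∀ v, |φ v| ≤ ‖v‖) ∧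
      ∀ r ∈ S, φ q ≤ φ r ∧ φ r ≤ φ q + 1 := by
  obtain ⟨φ, h1, h2⟩ := exists_fn (p - q) (hS p hp q hq hpq)
  rw [map_sub] at h1
  refine ⟨φ, by linarith, h2, fun r hr => ⟨?_, ?_⟩⟩
  · have := (le_abs_self _).trans ((h2 (p - r)).trans (hS.le hp hr))
    rw [map_sub] at this
    linarith
  · have := (le_abs_self _).trans ((h2 (r - q)).trans (hS.le hr hq))
    rw [map_sub] at this
    linarith

theorem span3 (h3 : finrank ℝ E = 3) (a b c : E)
    (hind : ∀ x y z : ℝ, x • a + y • b + z • c = 0 → x = 0 ∧ y = 0 ∧ z = 0) (v : E) :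
    ∃ x y z : ℝ, v = x • a + y • b + z • c := by
  have hli : LinearIndependent ℝ ![a, b, c] := by
    rw [Fintype.linearIndependent_iff]
    intro g hg
    rw [Fin.sum_univ_three] at hg
    obtain ⟨h0, h1, h2⟩ := hind (g 0) (g 1) (g 2) (by simpa using hg)
    intro i
    fin_cases i
    · exact h0
    · exact h1
    · exact h2
  have : FiniteDimensional ℝ E := Module.finite_of_finrank_pos (by omega)
  have hs := hli.span_eq_top_of_card_eq_finrank' (by simp [h3])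
  have hv : v ∈ Submodule.span ℝ (Set.range ![a, b, c]) := by rw [hs]; trivial
  rw [Submodule.mem_span_range_iff_exists_fun] at hv
  obtain ⟨g, hg⟩ := hv
  rw [Fin.sum_univ_three] at hg
  exact ⟨g 0, g 1, g 2, by simpa using hg.symm⟩

/-- A parallelogram inside `S`. -/
def Par (S : Set E) : Prop :=
  ∃ o a b : E, a ≠ 0 ∧ b ≠ 0 ∧ o ∈ S ∧ o + a ∈ S ∧ o + b ∈ S ∧ o + a + b ∈ S

/-- Three parallel edges of a box and a point on the fourth. -/
def Good (S : Set E) : Prop :=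
  ∃ (o e1 e2 e3 : E) (α : ℝ), e1 ≠ 0 ∧ e2 ≠ 0 ∧ e3 ≠ 0 ∧ 0 ≤ α ∧ α ≤ 1 ∧
    o ∈ S ∧ o + e1 ∈ S ∧ o + e2 ∈ S ∧ o + e2 + e1 ∈ S ∧ o + e3 ∈ S ∧ o + e3 + e1 ∈ S ∧
    o + e2 + e3 + α • e1 ∈ S

/-- Coordinates in which the unit ball lies between the cuboctahedron and the cube. -/
structure Frame (E : Type*) [NormedAddCommGroup E] [NormedSpace ℝ E] where
  e : Fin 3 → E
  f : Fin 3 → E →ₗ[ℝ] ℝ
  le : ∀ i v, |f i v| ≤ ‖v‖
  rep : ∀ v, v = f 0 v • e 0 + f 1 v • e 1 + f 2 v • e 2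
  dual : ∀ i j, f i (e j) = if i = j then 1 else 0
  add : ∀ i j, i ≠ j → ‖e i + e j‖ ≤ 1
  sub : ∀ i j, i ≠ j → ‖e i - e j‖ ≤ 1

theorem Good.frame (h3 : finrank ℝ E = 3) {S : Set E} (hS : Equi S) (h : Good S) :
    Nonempty (Frame E) := by
  obtain ⟨o, e1, e2, e3, α, n1, n2, n3, a0, a1, m0, m1, m2, m21, m3, m31, m6⟩ := h
  obtain ⟨f1, f11, l1, r1⟩ := hS.fn m1 m0 (by simpa using n1)
  obtain ⟨f2, f22, l2, r2⟩ := hS.fn m2 m0 (by simpa using n2)
  obtain ⟨f3, f33, l3, r3⟩ := hS.fn m3 m0 (by simpa using n3)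
  have A1 := r1 _ m2; have A2 := r1 _ m21; have A3 := r1 _ m3; have A4 := r1 _ m31
  have B1 := r2 _ m1; have B2 := r2 _ m21; have B3 := r2 _ m3; have B4 := r2 _ m6
  have C1 := r3 _ m1; have C2 := r3 _ m31; have C3 := r3 _ m2; have C4 := r3 _ m6
  simp only [map_add, map_smul, smul_eq_mul] at f11 f22 f33 A1 A2 A3 A4 B1 B2 B3 B4 C1 C2 C3 C4
  have g11 : f1 e1 = 1 := by linarith
  have g12 : f1 e2 = 0 := by linarith [A1.1, A2.2]
  have g13 : f1 e3 = 0 := by linarith [A3.1, A4.2]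
  have g22 : f2 e2 = 1 := by linarith
  have g21 : f2 e1 = 0 := by linarith [B1.1, B2.2]
  have g23 : f2 e3 = 0 := by rw [g21] at B4; linarith [B3.1, B4.2]
  have g33 : f3 e3 = 1 := by linarith
  have g31 : f3 e1 = 0 := by linarith [C1.1, C2.2]
  have g32 : f3 e2 = 0 := by rw [g31] at C4; linarith [C3.1, C4.2]
  have hind : ∀ x y z : ℝ, x • e1 + y • e2 + z • e3 = 0 → x = 0 ∧ y = 0 ∧ z = 0 := by
    intro x y z h
    have h1 := congrArg f1 h
    have h2 := congrArg f2 h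
    have h3 := congrArg f3 h
    simp only [map_add, map_smul, smul_eq_mul, map_zero, g11, g12, g13, g21, g22, g23, g31, g32,
      g33] at h1 h2 h3
    exact ⟨by linarith, by linarith, by linarith⟩
  have p12 : ‖e1 + e2‖ ≤ 1 := by
    have := hS.le m21 m0; rwa [show o + e2 + e1 - o = e1 + e2 by abel] at this
  have p13 : ‖e1 + e3‖ ≤ 1 := by
    have := hS.le m31 m0; rwa [show o + e3 + e1 - o = e1 + e3 by abel] at this
  have q12 : ‖e1 - e2‖ ≤ 1 := by
    have := hS.le m1 m2; rwa [show o + e1 - (o + e2) = e1 - e2 by abel] at this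
  have q13 : ‖e1 - e3‖ ≤ 1 := by
    have := hS.le m1 m3; rwa [show o + e1 - (o + e3) = e1 - e3 by abel] at this
  have q23 : ‖e2 - e3‖ ≤ 1 := by
    have := hS.le m2 m3; rwa [show o + e2 - (o + e3) = e2 - e3 by abel] at this
  have p23 : ‖e2 + e3‖ ≤ 1 := by
    have h1 := hS.le m6 m0
    have h2 := hS.le m6 m1
    have e : e2 + e3 = (1 - α) • (o + e2 + e3 + α • e1 - o) + α • (o + e2 + e3 + α • e1 - (o + e1)) := by
      module
    rw [e]
    refine (norm_add_le _ _).trans ?_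
    rw [norm_smul, norm_smul, Real.norm_of_nonneg a0, Real.norm_of_nonneg (by linarith)]
    nlinarith
  refine ⟨⟨![e1, e2, e3], ![f1, f2, f3], ?_, ?_, ?_, ?_, ?_⟩⟩
  · intro i v
    fin_cases i
    · exact l1 v
    · exact l2 v
    · exact l3 v
  · intro v
    obtain ⟨x, y, z, rfl⟩ := span3 h3 e1 e2 e3 hind v
    simp [g11, g12, g13, g21, g22, g23, g31, g32, g33]
  · intro i j
    fin_cases i <;> fin_cases j <;> simp [g11, g12, g13, g21, g22, g23, g31, g32, g33]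
  · intro i j hij
    fin_cases i <;> fin_cases j <;> simp at hij ⊢ <;>
      first | assumption | (rw [add_comm]; assumption)
  · intro i j hij
    fin_cases i <;> fin_cases j <;> simp at hij ⊢ <;>
      first | assumption | (rw [norm_sub_rev]; assumption)

/-- Norm bound from the cuboctahedron, nonnegative coordinates. -/
theorem cubo_pos (a b c : E) (hab : ‖a + b‖ ≤ 1) (hac : ‖a + c‖ ≤ 1) (hbc : ‖b + c‖ ≤ 1)
    (ha : ‖a‖ ≤ 1) (hb : ‖b‖ ≤ 1) (hc : ‖c‖ ≤ 1) (x y z m : ℝ) (hx : 0 ≤ x) (hy : 0 ≤ y) (hz : 0 ≤ z)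
    (h1 : x ≤ m) (h2 : y ≤ m) (h3 : z ≤ m) (h4 : x + y + z ≤ 2 * m) :
    ‖x • a + y • b + z • c‖ ≤ m := by
  have key : ∀ (u v w : E) (r s t : ℝ), ‖u‖ ≤ 1 → ‖v‖ ≤ 1 → ‖w‖ ≤ 1 → 0 ≤ r → 0 ≤ s → 0 ≤ t →
      ‖r • u + s • v + t • w‖ ≤ r + s + t := by
    intro u v w r s t hu hv hw hr hs ht
    refine (norm_add₃_le).trans ?_
    rw [norm_smul, norm_smul, norm_smul, Real.norm_of_nonneg hr, Real.norm_of_nonneg hs,
      Real.norm_of_nonneg ht]
    nlinarith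
  by_cases c1 : x + y ≤ z
  · have := key (a + c) (b + c) c x y (z - x - y) hac hbc hc hx hy (by linarith)
    rw [show x • (a + c) + y • (b + c) + (z - x - y) • c = x • a + y • b + z • c by module] at this
    linarith
  by_cases c2 : x + z ≤ y
  · have := key (a + b) (b + c) b x z (y - x - z) hab hbc hb hx hz (by linarith)
    rw [show x • (a + b) + z • (b + c) + (y - x - z) • b = x • a + y • b + z • c by module] at this
    linarith
  by_cases c3 : y + z ≤ x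
  · have := key (a + b) (a + c) a y z (x - y - z) hab hac ha hy hz (by linarith)
    rw [show y • (a + b) + z • (a + c) + (x - y - z) • a = x • a + y • b + z • c by module] at this
    linarith
  have := key (a + b) (a + c) (b + c) ((x + y - z) / 2) ((x + z - y) / 2) ((y + z - x) / 2) hab hac hbc
    (by linarith) (by linarith) (by linarith)
  rw [show ((x + y - z) / 2) • (a + b) + ((x + z - y) / 2) • (a + c) + ((y + z - x) / 2) • (b + c)
    = x • a + y • b + z • c by module] at this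
  linarith

theorem cubo (a b c : E) (hab : ‖a + b‖ ≤ 1) (hac : ‖a + c‖ ≤ 1) (hbc : ‖b + c‖ ≤ 1)
    (gab : ‖a - b‖ ≤ 1) (gac : ‖a - c‖ ≤ 1) (gbc : ‖b - c‖ ≤ 1) (x y z m : ℝ)
    (h1 : |x| ≤ m) (h2 : |y| ≤ m) (h3 : |z| ≤ m) (h4 : |x| + |y| + |z| ≤ 2 * m) :
    ‖x • a + y • b + z • c‖ ≤ m := by
  have mid : ∀ u v : E, ‖u + v‖ ≤ 1 → ‖u - v‖ ≤ 1 → ‖u‖ ≤ 1 := by
    intro u v p q
    have e : u = (1 / 2 : ℝ) • (u + v) + (1 / 2 : ℝ) • (u - v) := by module
    rw [e]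
    refine (norm_add_le _ _).trans ?_
    rw [norm_smul, norm_smul, Real.norm_of_nonneg (by norm_num)]
    linarith
  have ha := mid a b hab gab
  have hb := mid b c hbc gbc
  have hc := mid c a (by rwa [add_comm]) (by rwa [norm_sub_rev])
  have sg : ∀ (t : ℝ) , ∃ s : ℝ, (s = 1 ∨ s = -1) ∧ t = |t| * s := by
    intro t
    rcases le_total 0 t with h | h
    · exact ⟨1, Or.inl rfl, by rw [abs_of_nonneg h]; ring⟩
    · exact ⟨-1, Or.inr rfl, by rw [abs_of_nonpos h]; ring⟩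
  have one : ∀ (s : ℝ) (u : E), (s = 1 ∨ s = -1) → ‖u‖ ≤ 1 → ‖s • u‖ ≤ 1 := by
    rintro s u (rfl | rfl) h <;> simpa using h
  have two : ∀ (s t : ℝ) (u v : E), (s = 1 ∨ s = -1) → (t = 1 ∨ t = -1) → ‖u + v‖ ≤ 1 → ‖u - v‖ ≤ 1 →
      ‖s • u + t • v‖ ≤ 1 := by
    rintro s t u v (rfl | rfl) (rfl | rfl) p q
    · simpa using p
    · simpa [sub_eq_add_neg] using q
    · rw [norm_sub_rev] at q
      simpa [sub_eq_add_neg, add_comm] using q
    · rw [← norm_neg] at p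
      simpa [add_comm] using p
  obtain ⟨r, hr, er⟩ := sg x
  obtain ⟨s, hs, es⟩ := sg y
  obtain ⟨t, ht, et⟩ := sg z
  have := cubo_pos (r • a) (s • b) (t • c) (two _ _ _ _ hr hs hab gab) (two _ _ _ _ hr ht hac gac)
    (two _ _ _ _ hs ht hbc gbc) (one _ _ hr ha) (one _ _ hs hb) (one _ _ ht hc) |x| |y| |z| m
    (abs_nonneg _) (abs_nonneg _) (abs_nonneg _) h1 h2 h3 h4
  rwa [smul_smul, smul_smul, smul_smul, ← er, ← es, ← et] at this

end Pool.Agent.Lib.MP_b900b7_co
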