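import Pool.Agent.Lib.MP_b900b7_co.Basic

set_option autoImplicit false
set_option linter.unusedSectionVars false

namespace Pool.Agent.Lib.MP_b900b7_co

open Module

variable {E : Type*} [NormedAddCommGroup E] [NormedSpace ℝ E]

theorem Frame.norm_le (F : Frame E) (v : E) (m : ℝ) (h : ∀ i, |F.f i v| ≤ m)
    (h4 : |F.f 0 v| + |F.f 1 v| + |F.f 2 v| ≤ 2 * m) : ‖v‖ ≤ m := by
  have := cubo (F.e 0) (F.e 1) (F.e 2) (F.add 0 1 (by decide)) (F.add 0 2 (by decide))
    (F.add 1 2 (by decide)) (F.sub 0 1 (by decide)) (F.sub 0 2 (by decide)) (F.sub 1 2 (by decide))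
    _ _ _ m (h 0) (h 1) (h 2) h4
  rwa [← F.rep v] at this

theorem Frame.big (F : Frame E) (v : E) (hv : 1 ≤ ‖v‖) (h : ∀ i, |F.f i v| < 1) :
    2 ≤ |F.f 0 v| + |F.f 1 v| + |F.f 2 v| := by
  by_contra t
  push Not at t
  have := F.norm_le v (max (max |F.f 0 v| |F.f 1 v|)
    (max |F.f 2 v| ((|F.f 0 v| + |F.f 1 v| + |F.f 2 v|) / 2))) (by
      intro i
      fin_cases i
      · exact le_max_of_le_left (le_max_left _ _)
      · exact le_max_of_le_left (le_max_right _ _)
      · exact le_max_of_le_right (le_max_left _ _)) (by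
      have : (|F.f 0 v| + |F.f 1 v| + |F.f 2 v|) / 2 ≤ max (max |F.f 0 v| |F.f 1 v|)
        (max |F.f 2 v| ((|F.f 0 v| + |F.f 1 v| + |F.f 2 v|) / 2)) :=
          le_max_of_le_right (le_max_right _ _)
      linarith)
  have h2 : max (max |F.f 0 v| |F.f 1 v|)
    (max |F.f 2 v| ((|F.f 0 v| + |F.f 1 v| + |F.f 2 v|) / 2)) < 1 :=
      max_lt (max_lt (h 0) (h 1)) (max_lt (h 2) (by linarith))
  linarith

open Classical in
noncomputable def cl (t : ℝ) : Fin 3 := if t < -1 / 3 then 0 else if t ≤ 1 / 3 then 1 else 2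

theorem cl_cases (t : ℝ) : (cl t = 0 ∧ t < -1 / 3) ∨ (cl t = 1 ∧ -1 / 3 ≤ t ∧ t ≤ 1 / 3) ∨
    (cl t = 2 ∧ 1 / 3 < t) := by
  unfold cl
  split_ifs with h1 h2
  · exact Or.inl ⟨rfl, h1⟩
  · exact Or.inr (Or.inl ⟨rfl, not_lt.mp h1, h2⟩)
  · exact Or.inr (Or.inr ⟨rfl, not_le.mp h2⟩)

theorem cl_spread {s t : ℝ} (hs : |s| ≤ 1) (ht : |t| ≤ 1) (h : cl s = cl t) :
    |s - t| ≤ 2 / 3 ∧ (cl s ≠ 1 → |s - t| < 2 / 3) := by
  rw [abs_le] at hs ht
  rcases cl_cases s with a | a | a <;> rcases cl_cases t with b | b | b <;>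
    rw [a.1, b.1] at h <;> first
      | exact absurd h (by decide)
      | exact ⟨abs_le.mpr ⟨by linarith [a.2, b.2], by linarith [a.2, b.2]⟩,
          fun _ => abs_lt.mpr ⟨by linarith [a.2, b.2], by linarith [a.2, b.2]⟩⟩
      | exact ⟨abs_le.mpr ⟨by linarith [a.2.1, a.2.2, b.2.1, b.2.2],
          by linarith [a.2.1, a.2.2, b.2.1, b.2.2]⟩, fun q => absurd a.1 q⟩

theorem cl_one {s : ℝ} (h : cl s = 1) : |s| ≤ 1 / 3 := by
  rcases cl_cases s with a | a | a
  · rw [a.1] at h; exact absurd h (by decide)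
  · exact abs_le.mpr ⟨by linarith [a.2.1], a.2.2⟩
  · rw [a.1] at h; exact absurd h (by decide)

theorem cl_lt {s t : ℝ} (h : cl s < cl t) : s < t := by
  rcases cl_cases s with a | a | a <;> rcases cl_cases t with b | b | b <;>
    rw [a.1, b.1] at h <;> first
      | exact absurd h (by decide)
      | linarith [a.2, b.2]

theorem third (j k : Fin 3) (h : k ≠ j) : ∃ i : Fin 3, i ≠ j ∧ i ≠ k ∧
    (∀ g : Fin 3 → ℝ, g 0 + g 1 + g 2 = g j + g k + g i) ∧ ∀ l, l = j ∨ l = k ∨ l = i := by
  fin_cases j <;> fin_cases k <;> simp at h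
  · exact ⟨2, by decide, by decide, fun g => by simp, by decide⟩
  · exact ⟨1, by decide, by decide, fun g => by simp; ring, by decide⟩
  · exact ⟨2, by decide, by decide, fun g => by simp; ring, by decide⟩
  · exact ⟨0, by decide, by decide, fun g => by simp; ring, by decide⟩
  · exact ⟨1, by decide, by decide, fun g => by simp; ring, by decide⟩
  · exact ⟨0, by decide, by decide, fun g => by simp; ring, by decide⟩

theorem seg_le {a w : E} (h1 : ‖a + w‖ ≤ 1) (h2 : ‖-a + w‖ ≤ 1) {x : ℝ} (hx : |x| ≤ 1) :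
    ‖x • a + w‖ ≤ 1 := by
  rw [abs_le] at hx
  have e : x • a + w = ((1 + x) / 2) • (a + w) + ((1 - x) / 2) • (-a + w) := by module
  rw [e]
  refine (norm_add_le _ _).trans ?_
  rw [norm_smul, norm_smul, Real.norm_of_nonneg (by linarith), Real.norm_of_nonneg (by linarith)]
  nlinarith

theorem Frame.cube (F : Frame E) (P : Finset E) (h0 : (0 : E) ∈ P) (hc : 26 ≤ P.card)
    (hn : ∀ p ∈ P, ‖p‖ ≤ 1) (hs : ∀ p ∈ P, ∀ q ∈ P, p ≠ q → 1 ≤ ‖p - q‖) (v : E)
    (hv : ∀ i, |F.f i v| ≤ 1) : ‖v‖ ≤ 1 := by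
  classical
  let cell : E → Fin 3 → Fin 3 := fun p i => cl (F.f i p)
  have hb : ∀ p ∈ P, ∀ i, |F.f i p| ≤ 1 := fun p hp i => (F.le i p).trans (hn p hp)
  have center : ∀ p ∈ P, (∀ i, cell p i = 1) → p = 0 := by
    intro p hp h
    by_contra ne
    have h1 := hs p hp 0 h0 ne
    rw [sub_zero] at h1
    have k := fun i => cl_one (h i)
    have := F.big p h1 (fun i => by linarith [k i])
    linarith [k 0, k 1, k 2]
  have inj : Set.InjOn cell P := by
    intro p hp q hq e
    by_contra ne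
    have k := fun i => cl_spread (hb p hp i) (hb q hq i) (congrFun e i)
    have := F.big _ (hs p hp q hq ne) (fun i => by rw [map_sub]; linarith [(k i).1])
    simp only [map_sub] at this
    have all : ∀ i, cell p i = 1 := by
      intro i
      by_contra t
      have t' := (k i).2 t
      fin_cases i <;> simp at t' <;> linarith [(k 0).1, (k 1).1, (k 2).1]
    exact ne ((center p hp all).trans (center q hq (fun i => by rw [← e]; exact all i)).symm)
  obtain ⟨M, hM⟩ : ∃ M : Fin 3 → Fin 3, ∀ σ, σ ≠ M → ∃ p ∈ P, cell p = σ := by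
    have h1 : (P.image cell).card = P.card := Finset.card_image_of_injOn inj
    have h2 : (P.image cell)ᶜ.card ≤ 1 := by
      rw [Finset.card_compl]
      simp
      omega
    obtain ⟨M, hM⟩ := Finset.card_le_one_iff_subset_singleton.mp h2
    refine ⟨M, fun σ hσ => ?_⟩
    by_contra t
    apply hσ
    apply Finset.mem_singleton.mp
    apply hM
    rw [Finset.mem_compl, Finset.mem_image]
    exact t
  choose! Q QP Qc using hM
  let Full : Fin 3 → (Fin 3 → Fin 3) → Prop := fun j σ => ∃ k, k ≠ j ∧ σ k ≠ M k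
  have fne : ∀ j σ a, Full j σ → Function.update σ j a ≠ M := by
    rintro j σ a ⟨k, kj, hk⟩ e
    apply hk
    rw [← e, Function.update_of_ne kj]
  let lo : Bool → Fin 3 := fun a => if a then 1 else 0
  let hi : Bool → Fin 3 := fun a => if a then 2 else 1
  let d : (Fin 3 → Fin 3) × Fin 3 × Bool → ℝ := fun t =>
    1 - (F.f t.2.1 (Q (Function.update t.1 t.2.1 (hi t.2.2))) -
      F.f t.2.1 (Q (Function.update t.1 t.2.1 (lo t.2.2))))
  have ctrl : ∀ s : ℝ, (∀ σ j a, Full j σ → d (σ, j, a) ≤ s) → ∀ σ j, Full j σ →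
      (![-1, -s, 1 - 2 * s] (σ j) ≤ F.f j (Q σ) ∧ F.f j (Q σ) ≤ ![-1, -s, 1 - 2 * s] (σ j) + 2 * s) := by
    intro s hs' σ j hf
    have a1 := hs' σ j false hf
    have a2 := hs' σ j true hf
    have b0 := abs_le.mp (hb _ (QP _ (fne j σ 0 hf)) j)
    have b2 := abs_le.mp (hb _ (QP _ (fne j σ 2 hf)) j)
    simp only [d, lo, hi] at a1 a2
    simp at a1 a2
    have e : Function.update σ j (σ j) = σ := Function.update_eq_self j σ
    generalize hσ : σ j = a at e ⊢
    rw [← e]
    fin_cases a <;> simp <;> (try constructor) <;> linarith [b0.1, b2.2]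
  have rigid : ∀ σ j a, Full j σ → d (σ, j, a) ≤ 0 := by
    by_contra t
    push Not at t
    obtain ⟨σ0, j0, a0, f0, t0⟩ := t
    obtain ⟨⟨σ, j, a⟩, hm, hmax⟩ := Finset.exists_max_image
      (Finset.univ.filter (fun t : (Fin 3 → Fin 3) × Fin 3 × Bool => Full t.2.1 t.1)) d
      ⟨(σ0, j0, a0), by simpa using f0⟩
    have hf : Full j σ := by simpa using hm
    set s := d (σ, j, a) with hsd
    have hall : ∀ σ j a, Full j σ → d (σ, j, a) ≤ s := fun σ j a h => hmax _ (by simpa using h)
    have s0 : 0 < s := t0.trans_le (hall _ _ _ f0)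
    obtain ⟨k, kj, hk⟩ := hf
    have hf : Full j σ := ⟨k, kj, hk⟩
    obtain ⟨i, ij, ik, hsum, hcov⟩ := third j k kj
    set A := Function.update σ j (lo a) with hA
    set B := Function.update σ j (hi a) with hB
    have nA := fne j σ (lo a) hf
    have nB := fne j σ (hi a) hf
    have cA : ∀ l, cl (F.f l (Q A)) = A l := fun l => congrFun (Qc A nA) l
    have cB : ∀ l, cl (F.f l (Q B)) = B l := fun l => congrFun (Qc B nB) l
    have Aj : A j = lo a := by simp [hA]
    have Bj : B j = hi a := by simp [hB]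
    have Ak : A k = σ k := Function.update_of_ne kj _ _
    have Bk : B k = σ k := Function.update_of_ne kj _ _
    have Ai : A i = σ i := Function.update_of_ne ij _ _
    have Bi : B i = σ i := Function.update_of_ne ij _ _
    have lt : F.f j (Q A) < F.f j (Q B) := by
      apply cl_lt
      rw [cA, cB, Aj, Bj]
      cases a <;> simp [lo, hi]
    have es : F.f j (Q B) - F.f j (Q A) = 1 - s := by
      rw [hsd]; simp only [d]; ring
    have sk := cl_spread (hb _ (QP B nB) k) (hb _ (QP A nA) k) (by rw [cA, cB, Ak, Bk])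
    have si := cl_spread (hb _ (QP B nB) i) (hb _ (QP A nA) i) (by rw [cA, cB, Ai, Bi])
    have ej : |F.f j (Q B) - F.f j (Q A)| = 1 - s := by rw [abs_of_pos (by linarith), es]
    have big := F.big (Q B - Q A) (hs _ (QP B nB) _ (QP A nA) (fun e => by rw [e] at lt; linarith))
      (fun l => by
        rw [map_sub]
        rcases hcov l with rfl | rfl | rfl
        · linarith
        · linarith [sk.1]
        · linarith [si.1])
    rw [hsum (fun l => |F.f l (Q B - Q A)|)] at big
    simp only [map_sub] at big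
    have c1 := ctrl s hall A i ⟨k, ik.symm, by rwa [Ak]⟩
    have c2 := ctrl s hall B i ⟨k, ik.symm, by rwa [Bk]⟩
    rw [Ai] at c1
    rw [Bi] at c2
    have ci : |F.f i (Q B) - F.f i (Q A)| ≤ 2 * s :=
      abs_le.mpr ⟨by linarith [c1.2, c2.1], by linarith [c1.1, c2.2]⟩
    have k1 : σ k = 1 := by
      by_contra t
      have := sk.2 (by rwa [cB, Bk])
      linarith [si.1]
    have i1 : σ i = 1 := by
      by_contra t
      have := si.2 (by rwa [cB, Bi])
      linarith [sk.1]
    have uA := cl_one (s := F.f k (Q A)) (by rw [cA, Ak, k1])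
    have uB := cl_one (s := F.f k (Q B)) (by rw [cB, Bk, k1])
    have small : |F.f k (Q B) - F.f k (Q A)| ≤ 1 / 3 := by
      cases a
      · have : Q B = 0 := center _ (QP B nB) (fun l => by
          show cl _ = 1
          rw [cB]
          rcases hcov l with rfl | rfl | rfl
          · rw [Bj]; simp [hi]
          · rw [Bk, k1]
          · rw [Bi, i1])
        rw [this, map_zero, zero_sub, abs_neg]; exact uA
      · have : Q A = 0 := center _ (QP A nA) (fun l => by
          show cl _ = 1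
          rw [cA]
          rcases hcov l with rfl | rfl | rfl
          · rw [Aj]; simp [lo]
          · rw [Ak, k1]
          · rw [Ai, i1])
        rw [this, map_zero, sub_zero]; exact uB
    linarith [si.1]
  have exact' : ∀ σ, (∀ j, Full j σ) →
      ‖(![-1, 0, 1] (σ 0) : ℝ) • F.e 0 + (![-1, 0, 1] (σ 1) : ℝ) • F.e 1 +
        (![-1, 0, 1] (σ 2) : ℝ) • F.e 2‖ ≤ 1 := by
    intro σ hσ
    have ne : σ ≠ M := by
      have := fne 0 σ (σ 0) (hσ 0)
      rwa [Function.update_eq_self] at this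
    have k : ∀ j, F.f j (Q σ) = ![-1, 0, 1] (σ j) := by
      intro j
      have := ctrl 0 rigid σ j (hσ j)
      simp only [neg_zero, mul_zero, sub_zero, add_zero] at this
      exact le_antisymm this.2 this.1
    have := hn _ (QP σ ne)
    rwa [F.rep (Q σ), k 0, k 1, k 2] at this
  have corner : ∀ σ τ : Fin 3 → Fin 3, (∀ j, σ j ≠ τ j) → (∀ j, Full j σ) ∨ (∀ j, Full j τ) := by
    intro σ τ h
    by_contra t
    simp only [Full, not_or, not_forall, not_exists, not_and, not_not] at t
    obtain ⟨⟨j, hj⟩, ⟨k, hk⟩⟩ := t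
    have th : ∀ j k : Fin 3, ∃ i, i ≠ j ∧ i ≠ k := by decide
    obtain ⟨i, ij, ik⟩ := th j k
    exact h i ((hj i ij).trans (hk i ik).symm)
  have c1 : ‖F.e 0 + F.e 1 + F.e 2‖ ≤ 1 := by
    rcases corner ![2, 2, 2] ![0, 0, 0] (by decide) with t | t
    · simpa using exact' _ t
    · have := exact' _ t
      rw [← norm_neg] at this
      refine le_of_eq_of_le (congrArg _ ?_) this
      simp; abel
  have c2 : ‖-F.e 0 + F.e 1 + F.e 2‖ ≤ 1 := by
    rcases corner ![0, 2, 2] ![2, 0, 0] (by decide) with t | t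
    · simpa using exact' _ t
    · have := exact' _ t
      rw [← norm_neg] at this
      refine le_of_eq_of_le (congrArg _ ?_) this
      simp; abel
  have c3 : ‖F.e 0 + -F.e 1 + F.e 2‖ ≤ 1 := by
    rcases corner ![2, 0, 2] ![0, 2, 0] (by decide) with t | t
    · simpa using exact' _ t
    · have := exact' _ t
      rw [← norm_neg] at this
      refine le_of_eq_of_le (congrArg _ ?_) this
      simp; abel
  have c4 : ‖-F.e 0 + -F.e 1 + F.e 2‖ ≤ 1 := by
    rcases corner ![0, 0, 2] ![2, 2, 0] (by decide) with t | t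
    · simpa using exact' _ t
    · have := exact' _ t
      rw [← norm_neg] at this
      refine le_of_eq_of_le (congrArg _ ?_) this
      simp; abel
  have up : ∀ x y : ℝ, |x| ≤ 1 → |y| ≤ 1 → ‖F.e 2 + (x • F.e 0 + y • F.e 1)‖ ≤ 1 := by
    intro x y hx hy
    have a1 := seg_le (a := F.e 0) (w := F.e 1 + F.e 2) (by rwa [← add_assoc]) (by rwa [← add_assoc]) hx
    have a2 := seg_le (a := F.e 0) (w := -F.e 1 + F.e 2) (by rwa [← add_assoc]) (by rwa [← add_assoc]) hx
    have := seg_le (a := F.e 1) (w := x • F.e 0 + F.e 2) (by convert a1 using 2; abel)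
      (by convert a2 using 2; abel) hy
    convert this using 2; abel
  have u1 := up _ _ (hv 0) (hv 1)
  have u2 := up (-F.f 0 v) (-F.f 1 v) (by simpa using hv 0) (by simpa using hv 1)
  rw [← norm_neg] at u2
  have := seg_le u1 (le_of_eq_of_le (congrArg _ (by module)) u2) (hv 2)
  rw [F.rep v]
  convert this using 2; abel

end Pool.Agent.Lib.MP_b900b7_co
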