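import Pool.Agent.Lib.MP_b900b7_co.Seven
import Pool.Agent.Lib.MP_b900b7_co.Cells

set_option autoImplicit false
set_option linter.unusedSectionVars false

namespace Pool.Agent.Lib.MP_b900b7_co

open Module

variable {E : Type*} [NormedAddCommGroup E] [NormedSpace ℝ E]

theorem frame_of (h3 : finrank ℝ E = 3) (e1 e2 e3 : E) (n1 : ‖e1‖ = 1) (n2 : ‖e2‖ = 1)
    (n3 : ‖e3‖ = 1) (p12 : ‖e1 + e2‖ ≤ 1) (p13 : ‖e1 + e3‖ ≤ 1) (p23 : ‖e2 + e3‖ ≤ 1)
    (q12 : ‖e1 - e2‖ ≤ 1) (q13 : ‖e1 - e3‖ ≤ 1) (q23 : ‖e2 - e3‖ ≤ 1) : Nonempty (Frame E) := by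
  obtain ⟨f1, g11, l1⟩ := exists_fn e1 n1
  obtain ⟨f2, g22, l2⟩ := exists_fn e2 n2
  obtain ⟨f3, g33, l3⟩ := exists_fn e3 n3
  have z : ∀ (φ : E →ₗ[ℝ] ℝ) (u v : E), (∀ w, |φ w| ≤ ‖w‖) → φ u = 1 → ‖u + v‖ ≤ 1 → ‖u - v‖ ≤ 1 →
      φ v = 0 := by
    intro φ u v l g p q
    have a := (le_abs_self _).trans ((l _).trans p)
    have b := (le_abs_self _).trans ((l _).trans q)
    rw [map_add] at a
    rw [map_sub] at b
    linarith
  have g12 := z f1 e1 e2 l1 g11 p12 q12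
  have g13 := z f1 e1 e3 l1 g11 p13 q13
  have g21 := z f2 e2 e1 l2 g22 (by rwa [add_comm]) (by rwa [norm_sub_rev])
  have g23 := z f2 e2 e3 l2 g22 p23 q23
  have g31 := z f3 e3 e1 l3 g33 (by rwa [add_comm]) (by rwa [norm_sub_rev])
  have g32 := z f3 e3 e2 l3 g33 (by rwa [add_comm]) (by rwa [norm_sub_rev])
  have hind : ∀ x y z : ℝ, x • e1 + y • e2 + z • e3 = 0 → x = 0 ∧ y = 0 ∧ z = 0 := by
    intro x y z h
    have h1 := congrArg f1 h
    have h2 := congrArg f2 h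
    have h3 := congrArg f3 h
    simp only [map_add, map_smul, smul_eq_mul, map_zero, g11, g12, g13, g21, g22, g23, g31, g32,
      g33] at h1 h2 h3
    exact ⟨by linarith, by linarith, by linarith⟩
  refine ⟨⟨![e1, e2, e3], ![f1, f2, f3], ?_, ?_, ?_, ?_, ?_⟩⟩
  · intro i v
    fin_cases i
    · exact l1 v
    · exact l2 v
    · exact l3 v
  · intro v
    obtain ⟨x, y, z, rfl⟩ := span3 h3 e1 e2 e3 hind v
    simp [g11, g12, g13, g21, g22, g23, g31, g32, g33]
  · intro i j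
    fin_cases i <;> fin_cases j <;> simp [g11, g12, g13, g21, g22, g23, g31, g32, g33]
  · intro i j hij
    fin_cases i <;> fin_cases j <;> simp at hij ⊢ <;>
      first | assumption | (rw [add_comm]; assumption)
  · intro i j hij
    fin_cases i <;> fin_cases j <;> simp at hij ⊢ <;>
      first | assumption | (rw [norm_sub_rev]; assumption)

theorem l1_le {p q : E} (hp : ‖p‖ ≤ 1) (hq : ‖q‖ ≤ 1) (x y : ℝ) : ‖x • p + y • q‖ ≤ |x| + |y| := by
  refine (norm_add_le _ _).trans ?_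
  rw [norm_smul, norm_smul, Real.norm_eq_abs, Real.norm_eq_abs]
  nlinarith [abs_nonneg x, abs_nonneg y]

theorem mono_aux {p q : E} (hq : ‖q‖ ≤ 1) {x y x' y' : ℝ} (x0 : 0 ≤ x) (hx : x < x')
    (hy : y < y') (y1 : y' ≤ 1) (h : x * y' ≤ y * x') (h1 : 1 ≤ ‖x • p + y • q‖)
    (h2 : ‖x' • p + y' • q‖ ≤ 1) : False := by
  have x'0 : 0 < x' := by linarith
  obtain ⟨l, hl⟩ : ∃ l, l = x / x' := ⟨_, rfl⟩
  have l0 : 0 ≤ l := by rw [hl]; positivity
  have l1 : l < 1 := by rw [hl, div_lt_one x'0]; exact hx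
  have lx : x = l * x' := by rw [hl]; field_simp
  have ly : l * y' ≤ y := by
    by_contra t
    push Not at t
    rw [lx] at h
    nlinarith
  have e : x • p + y • q = l • (x' • p + y' • q) + (y - l * y') • q := by rw [lx]; module
  rw [e] at h1
  have := h1.trans (norm_add_le _ _)
  rw [norm_smul, norm_smul, Real.norm_of_nonneg l0, Real.norm_of_nonneg (by linarith)] at this
  have a1 := mul_le_mul_of_nonneg_left h2 l0
  have a2 := mul_le_mul_of_nonneg_left hq (sub_nonneg.mpr ly)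
  nlinarith

theorem mono_lt {p q : E} (hp : ‖p‖ ≤ 1) (hq : ‖q‖ ≤ 1) {x y x' y' : ℝ} (x0 : 0 ≤ x) (y0 : 0 ≤ y)
    (hx : x < x') (hy : y < y') (x1 : x' ≤ 1) (y1 : y' ≤ 1) (h1 : 1 ≤ ‖x • p + y • q‖)
    (h2 : ‖x' • p + y' • q‖ ≤ 1) : False := by
  rcases le_total (x * y') (y * x') with h | h
  · exact mono_aux hq x0 hx hy y1 h h1 h2
  · exact mono_aux hp y0 hy hx x1 h (by rwa [add_comm]) (by rwa [add_comm])

theorem quad {p q : E} (hp : ‖p‖ ≤ 1) (hq : ‖q‖ ≤ 1) {x y x' y' : ℝ} (x0 : 0 ≤ x) (y0 : 0 ≤ y)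
    (x1 : x ≤ 1) (y1 : y ≤ 1) (x0' : 0 ≤ x') (y0' : 0 ≤ y') (x1' : x' ≤ 1) (y1' : y' ≤ 1)
    (h1 : ‖x • p + y • q‖ = 1) (h2 : ‖x' • p + y' • q‖ = 1) (t : y - x ≤ y' - x') :
    x' ≤ x ∧ y ≤ y' ∧ ‖(x • p + y • q) - (x' • p + y' • q)‖ ≤ (y' - x') - (y - x) := by
  have a : x' ≤ x := by
    by_contra s
    push Not at s
    exact mono_lt hp hq x0 y0 s (by linarith) x1' y1' h1.ge h2.le
  have b : y ≤ y' := by
    by_contra s
    push Not at s
    exact mono_lt hp hq x0' y0' (by linarith) s x1 y1 h2.ge h1.le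
  refine ⟨a, b, ?_⟩
  have := l1_le hp hq (x - x') (y - y')
  rw [abs_of_nonneg (by linarith), abs_of_nonpos (by linarith)] at this
  rw [show (x • p + y • q) - (x' • p + y' • q) = (x - x') • p + (y - y') • q by module]
  linarith

theorem quad1 {p q : E} (hp : ‖p‖ = 1) (hq : ‖q‖ ≤ 1) {x y x' y' : ℝ} (x0 : 0 ≤ x) (y0 : 0 ≤ y)
    (x1 : x ≤ 1) (y1 : y ≤ 1) (x0' : 0 < x') (y0' : 0 ≤ y') (x1' : x' ≤ 1) (y1' : y' ≤ 1)
    (h1 : ‖x • p + y • q‖ = 1) (h2 : ‖x' • p + y' • q‖ = 1) (t : y - x + 1 = y' - x')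
    (h : 1 ≤ ‖(x • p + y • q) - (x' • p + y' • q)‖) :
    ‖p + q‖ = 1 ∨ ∃ s : ℝ, 0 < s ∧ s < 1 ∧ 1 ≤ ‖s • (-p) + (1 - s) • q‖ := by
  obtain ⟨a, b, -⟩ := quad hp.le hq x0 y0 x1 y1 x0'.le y0' x1' y1' h1 h2 (by linarith)
  rcases a.lt_or_eq with a | a
  · right
    refine ⟨x - x', by linarith, by linarith, ?_⟩
    rw [norm_sub_rev] at h
    rwa [show (x - x') • (-p) + (1 - (x - x')) • q = (x' • p + y' • q) - (x • p + y • q) by
      rw [show y' = y - x + 1 + x' by linarith]; module]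
  · left
    have e1 : y = 0 := by linarith
    have e2 : y' = 1 := by linarith
    subst e1 e2
    rw [zero_smul, add_zero, norm_smul, hp, mul_one, Real.norm_of_nonneg x0] at h1
    rw [a, h1] at h2
    simpa using h2

theorem mid_one {p q : E} (hp : ‖p‖ ≤ 1) (hq : ‖q‖ ≤ 1) {s : ℝ} (s0 : 0 < s) (s1 : s < 1)
    (h : 1 ≤ ‖s • p + (1 - s) • q‖) : ‖(1 / 2 : ℝ) • p + (1 / 2 : ℝ) • q‖ = 1 := by
  have u := l1_le hp hq (1 / 2) (1 / 2)
  rw [abs_of_pos (by norm_num : (0 : ℝ) < 1 / 2)] at u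
  refine le_antisymm (by linarith) ?_
  set m := (1 / 2 : ℝ) • p + (1 / 2 : ℝ) • q with hm
  rcases le_total s (1 / 2) with t | t
  · rw [show s • p + (1 - s) • q = (2 * s) • m + (1 - 2 * s) • q by rw [hm]; module] at h
    have := h.trans (norm_add_le _ _)
    rw [norm_smul, norm_smul, Real.norm_of_nonneg (by linarith), Real.norm_of_nonneg (by linarith)]
      at this
    by_contra c
    push Not at c
    nlinarith
  · rw [show s • p + (1 - s) • q = (2 * (1 - s)) • m + (2 * s - 1) • p by rw [hm]; module] at h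
    have := h.trans (norm_add_le _ _)
    rw [norm_smul, norm_smul, Real.norm_of_nonneg (by linarith), Real.norm_of_nonneg (by linarith)]
      at this
    by_contra c
    push Not at c
    nlinarith

theorem circ8 {ι : Type*} (s : Finset ι) (τ : ι → ℝ) (h8 : 8 ≤ s.card)
    (h0 : ∀ i ∈ s, 0 ≤ τ i ∧ τ i < 8)
    (h1 : ∀ i ∈ s, ∀ j ∈ s, i ≠ j → τ i ≤ τ j → τ i + 1 ≤ τ j ∧ τ j + 1 ≤ τ i + 8) :
    ∃ i0 ∈ s, ∃ i1 ∈ s, ∃ i2 ∈ s, ∃ i3 ∈ s, τ i0 < 1 ∧ τ i1 = τ i0 + 1 ∧ τ i2 = τ i0 + 2 ∧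
      τ i3 = τ i0 + 3 := by
  classical
  have inj : Set.InjOn (fun i => ⌊τ i⌋₊) s := by
    intro i hi j hj e
    by_contra ne
    have a := Nat.floor_le (h0 i hi).1
    have b := Nat.lt_floor_add_one (τ i)
    have c := Nat.floor_le (h0 j hj).1
    have d := Nat.lt_floor_add_one (τ j)
    simp only at e
    rw [e] at a b
    rcases le_total (τ i) (τ j) with t | t
    · linarith [(h1 i hi j hj ne t).1]
    · linarith [(h1 j hj i hi (Ne.symm ne) t).1]
  have sub : s.image (fun i => ⌊τ i⌋₊) ⊆ Finset.range 8 := by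
    intro n hn
    obtain ⟨i, hi, rfl⟩ := Finset.mem_image.mp hn
    rw [Finset.mem_range, Nat.floor_lt (h0 i hi).1]
    exact_mod_cast (h0 i hi).2
  have eq := Finset.eq_of_subset_of_card_le sub (by
    rw [Finset.card_image_of_injOn inj]; simpa using h8)
  have get : ∀ n : ℕ, n < 8 → ∃ i ∈ s, (n : ℝ) ≤ τ i ∧ τ i < n + 1 := by
    intro n hn
    have : n ∈ s.image (fun i => ⌊τ i⌋₊) := by rw [eq]; simpa using hn
    obtain ⟨i, hi, rfl⟩ := Finset.mem_image.mp this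
    exact ⟨i, hi, Nat.floor_le (h0 i hi).1, Nat.lt_floor_add_one _⟩
  obtain ⟨i0, m0, a0, b0⟩ := get 0 (by norm_num)
  obtain ⟨i1, m1, a1, b1⟩ := get 1 (by norm_num)
  obtain ⟨i2, m2, a2, b2⟩ := get 2 (by norm_num)
  obtain ⟨i3, m3, a3, b3⟩ := get 3 (by norm_num)
  obtain ⟨i4, m4, a4, b4⟩ := get 4 (by norm_num)
  obtain ⟨i5, m5, a5, b5⟩ := get 5 (by norm_num)
  obtain ⟨i6, m6, a6, b6⟩ := get 6 (by norm_num)
  obtain ⟨i7, m7, a7, b7⟩ := get 7 (by norm_num)
  push_cast at *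
  have st : ∀ i ∈ s, ∀ j ∈ s, τ i < τ j → τ i + 1 ≤ τ j ∧ τ j + 1 ≤ τ i + 8 :=
    fun i hi j hj t => h1 i hi j hj (by rintro rfl; exact lt_irrefl _ t) t.le
  have c0 := (st i0 m0 i1 m1 (by linarith)).1
  have c1 := (st i1 m1 i2 m2 (by linarith)).1
  have c2 := (st i2 m2 i3 m3 (by linarith)).1
  have c3 := (st i3 m3 i4 m4 (by linarith)).1
  have c4 := (st i4 m4 i5 m5 (by linarith)).1
  have c5 := (st i5 m5 i6 m6 (by linarith)).1
  have c6 := (st i6 m6 i7 m7 (by linarith)).1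
  have c7 := (st i0 m0 i7 m7 (by linarith)).2
  exact ⟨i0, m0, i1, m1, i2, m2, i3, m3, by linarith, by linarith, by linarith, by linarith⟩

def bs (a c : E) (k : ℕ) : E :=
  if k = 0 then a else if k = 1 then c else if k = 2 then -a else if k = 3 then -c else a

theorem plane8 {ι : Type*} (s : Finset ι) (u : ι → E) (h8 : 8 ≤ s.card) (a c : E) (ha : ‖a‖ = 1)
    (hc : ‖c‖ = 1) (hn : ∀ i ∈ s, ‖u i‖ = 1) (hs : ∀ i ∈ s, ∀ j ∈ s, i ≠ j → 1 ≤ ‖u i - u j‖)
    (hr : ∀ i ∈ s, ∃ x y : ℝ, |x| ≤ 1 ∧ |y| ≤ 1 ∧ u i = x • a + y • c) :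
    ∃ x y z w : ℝ, ‖x • a + y • c‖ = 1 ∧ ‖z • a + w • c‖ = 1 ∧
      ‖(x • a + y • c) + (z • a + w • c)‖ = 1 ∧ ‖(x • a + y • c) - (z • a + w • c)‖ = 1 := by
  have nb : ∀ k, ‖bs a c k‖ = 1 := by
    intro k; unfold bs; split_ifs <;> simp [ha, hc]
  have rep : ∀ i ∈ s, ∃ (k : ℕ) (x y : ℝ), k ≤ 3 ∧ 0 < x ∧ x ≤ 1 ∧ 0 ≤ y ∧ y ≤ 1 ∧
      u i = x • bs a c k + y • bs a c (k + 1) := by
    intro i hi
    obtain ⟨x, y, hx, hy, e⟩ := hr i hi
    rw [abs_le] at hx hy
    by_cases q0 : 0 < x ∧ 0 ≤ y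
    · exact ⟨0, x, y, by norm_num, q0.1, hx.2, q0.2, hy.2, by simpa [bs] using e⟩
    by_cases q1 : x ≤ 0 ∧ 0 < y
    · exact ⟨1, y, -x, by norm_num, q1.2, hy.2, by linarith [q1.1], by linarith [hx.1],
        by rw [e]; simp [bs, add_comm]⟩
    by_cases q2 : x < 0 ∧ y ≤ 0
    · exact ⟨2, -x, -y, by norm_num, by linarith [q2.1], by linarith [hx.1], by linarith [q2.2],
        by linarith [hy.1], by rw [e]; simp [bs]⟩
    by_cases q3 : 0 ≤ x ∧ y < 0
    · exact ⟨3, -y, x, by norm_num, by linarith [q3.2], by linarith [hy.1], q3.1, hx.2,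
        by rw [e]; simp [bs, add_comm]⟩
    exfalso
    push Not at q0 q1 q2 q3
    have x0 : x = 0 := by
      rcases lt_trichotomy x 0 with t | t | t
      · linarith [q1 t.le, q2 t]
      · exact t
      · linarith [q0 t, q3 t.le]
    have y0 : y = 0 := by linarith [q1 x0.le, q3 x0.ge]
    have := hn i hi
    rw [e, x0, y0] at this
    simp at this
  choose! K X Y hK hX0 hX1 hY0 hY1 hu using rep
  have d0 : ∀ i ∈ s, ‖u i - bs a c (K i)‖ ≤ 1 - X i + Y i := by
    intro i hi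
    have := l1_le (nb (K i)).le (nb (K i + 1)).le (X i - 1) (Y i)
    rw [abs_of_nonpos (by linarith [hX1 i hi]), abs_of_nonneg (hY0 i hi)] at this
    rw [hu i hi, show X i • bs a c (K i) + Y i • bs a c (K i + 1) - bs a c (K i) =
      (X i - 1) • bs a c (K i) + Y i • bs a c (K i + 1) by module]
    linarith
  have d1 : ∀ i ∈ s, ‖u i - bs a c (K i + 1)‖ ≤ X i + 1 - Y i := by
    intro i hi
    have := l1_le (nb (K i)).le (nb (K i + 1)).le (X i) (Y i - 1)
    rw [abs_of_pos (hX0 i hi), abs_of_nonpos (by linarith [hY1 i hi])] at this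
    rw [hu i hi, show X i • bs a c (K i) + Y i • bs a c (K i + 1) - bs a c (K i + 1) =
      X i • bs a c (K i) + (Y i - 1) • bs a c (K i + 1) by module]
    linarith
  have tri : ∀ p q r : E, ‖p - q‖ ≤ ‖p - r‖ + ‖q - r‖ := by
    intro p q r
    rw [← dist_eq_norm, ← dist_eq_norm, ← dist_eq_norm]
    exact dist_triangle_right p q r
  obtain ⟨i0, m0, i1, m1, i2, m2, i3, m3, t0, t1, t2, t3⟩ :=
    circ8 s (fun i => 2 * (K i : ℝ) + (1 - X i + Y i)) h8 (fun i hi => by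
      have : (K i : ℝ) ≤ 3 := by exact_mod_cast hK i hi
      have : (0 : ℝ) ≤ K i := Nat.cast_nonneg _
      constructor <;> linarith [hX0 i hi, hX1 i hi, hY0 i hi, hY1 i hi]) (fun i hi j hj ne le => by
      have sep := hs i hi j hj ne
      have xi0 := hX0 i hi; have xi1 := hX1 i hi; have yi0 := hY0 i hi; have yi1 := hY1 i hi
      have xj0 := hX0 j hj; have xj1 := hX1 j hj; have yj0 := hY0 j hj; have yj1 := hY1 j hj
      have kij : K i ≤ K j := by
        by_contra t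
        have : (K j : ℝ) + 1 ≤ K i := by exact_mod_cast Nat.lt_of_not_le t
        linarith
      constructor
      · rcases (by omega : K j = K i ∨ K j = K i + 1 ∨ K i + 2 ≤ K j) with t | t | t
        · have hi' := hn i hi
          have hj' := hn j hj
          rw [hu i hi] at hi' sep
          rw [hu j hj, t] at hj' sep
          rw [t] at le ⊢
          have := (quad (nb _).le (nb _).le xi0.le yi0 xi1 yi1 xj0.le yj0 xj1 yj1 hi' hj'
            (by linarith)).2.2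
          linarith
        · have a1 := d1 i hi
          have a2 := d0 j hj
          rw [t] at a2 ⊢
          have := tri (u i) (u j) (bs a c (K i + 1))
          push_cast
          linarith
        · have : (K i : ℝ) + 2 ≤ K j := by exact_mod_cast t
          linarith
      · rcases (by have := hK j hj; omega : (K i = 0 ∧ K j = 3) ∨ K j ≤ K i + 2) with t | t
        · have a1 := d0 i hi
          have a2 := d1 j hj
          rw [t.1] at a1 ⊢
          rw [t.2] at a2 ⊢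
          have := tri (u i) (u j) a
          simp only [bs] at a1 a2
          norm_num at a1 a2 ⊢
          linarith
        · have : (K j : ℝ) ≤ K i + 2 := by exact_mod_cast t
          linarith)
  have kv : ∀ i ∈ s, ∀ n : ℕ, 2 * (n : ℝ) ≤ 2 * (K i : ℝ) + (1 - X i + Y i) →
      2 * (K i : ℝ) + (1 - X i + Y i) < 2 * n + 2 → K i = n := by
    intro i hi n l1 l2
    have a1 : (n : ℝ) < K i + 1 := by linarith [hX0 i hi, hY1 i hi]
    have a2 : (K i : ℝ) < n + 1 := by linarith [hX1 i hi, hY0 i hi]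
    have b1 : n < K i + 1 := by exact_mod_cast a1
    have b2 : K i < n + 1 := by exact_mod_cast a2
    omega
  have p0 : (0 : ℝ) ≤ 2 * (K i0 : ℝ) + (1 - X i0 + Y i0) := by
    have : (0 : ℝ) ≤ K i0 := Nat.cast_nonneg _
    linarith [hX1 i0 m0, hY0 i0 m0]
  have k0 := kv i0 m0 0 (by push_cast; linarith) (by push_cast; linarith)
  have k1 := kv i1 m1 0 (by push_cast; linarith) (by push_cast; linarith)
  have k2 := kv i2 m2 1 (by push_cast; linarith) (by push_cast; linarith)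
  have k3 := kv i3 m3 1 (by push_cast; linarith) (by push_cast; linarith)
  have s01 := hs i0 m0 i1 m1 (by rintro rfl; linarith)
  have s23 := hs i2 m2 i3 m3 (by rintro rfl; linarith)
  have n0 := hn i0 m0; have n1 := hn i1 m1; have n2 := hn i2 m2; have n3 := hn i3 m3
  rw [hu i0 m0, k0] at n0 s01
  rw [hu i1 m1, k1] at n1 s01
  rw [hu i2 m2, k2] at n2 s23
  rw [hu i3 m3, k3] at n3 s23
  simp only [k0, k1, k2, k3] at t1 t2 t3
  have A := quad1 (nb 0) (nb 1).le (hX0 _ m0).le (hY0 _ m0) (hX1 _ m0) (hY1 _ m0) (hX0 _ m1)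
    (hY0 _ m1) (hX1 _ m1) (hY1 _ m1) n0 n1 (by linarith) s01
  have B := quad1 (nb 1) (nb 2).le (hX0 _ m2).le (hY0 _ m2) (hX1 _ m2) (hY1 _ m2) (hX0 _ m3)
    (hY0 _ m3) (hX1 _ m3) (hY1 _ m3) n2 n3 (by linarith) s23
  have b0 : bs a c 0 = a := by simp [bs]
  have b1 : bs a c 1 = c := by simp [bs]
  have b2 : bs a c 2 = -a := by simp [bs]
  rw [b0, b1] at A
  rw [b1, b2] at B
  have hna : ‖-a‖ ≤ 1 := by simp [ha]
  rcases A with A | ⟨r, r0, r1, A⟩ <;> rcases B with B | ⟨t, t0, t1, B⟩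
  · refine ⟨1, 0, 0, 1, by simp [ha], by simp [hc], by simpa using A, ?_⟩
    rw [← sub_eq_add_neg, norm_sub_rev] at B
    simpa using B
  · exfalso
    refine mono_lt ha.le hc.le (x := 1 - t) (y := t) (x' := 1) (y' := 1) (by linarith) t0.le
      (by linarith) t1 le_rfl le_rfl ?_ (by simpa using A.le)
    rw [← norm_neg] at B
    exact le_of_le_of_eq B (congrArg _ (by module))
  · exfalso
    refine mono_lt hc.le hna (x := 1 - r) (y := r) (x' := 1) (y' := 1) (by linarith) r0.le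
      (by linarith) r1 le_rfl le_rfl ?_ (by simpa using B.le)
    rwa [add_comm]
  · have A' := mid_one hna hc.le r0 r1 A
    have B' := mid_one (p := -c) (by simp [hc]) hna t0 t1 B
    rw [← norm_neg] at B'
    refine ⟨1 / 2, 1 / 2, -1 / 2, 1 / 2, ?_, ?_, ?_, ?_⟩
    · exact (congrArg _ (by module)).trans B'
    · exact (congrArg _ (by module)).trans A'
    · exact (congrArg _ (by module)).trans hc
    · exact (congrArg _ (by module)).trans ha

/-- The unit ball is a cylinder. -/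
def Cyl (E : Type*) [NormedAddCommGroup E] [NormedSpace ℝ E] : Prop :=
  ∃ (e : E) (f : E →ₗ[ℝ] ℝ), ‖e‖ = 1 ∧ f e = 1 ∧ (∀ v, |f v| ≤ ‖v‖) ∧
    ∀ p, ‖p‖ ≤ 1 → ‖e + (p - f p • e)‖ ≤ 1 ∧ ‖-e + (p - f p • e)‖ ≤ 1

theorem bow {p q : E} (hp : ‖p‖ ≤ 1) (q0 : q ≠ 0) (h : ‖q‖ ≤ ‖p‖) (hs : 1 ≤ ‖p - q‖) :
    1 ≤ ‖‖p‖⁻¹ • p - ‖q‖⁻¹ • q‖ := by
  have nq : 0 < ‖q‖ := norm_pos_iff.mpr q0
  have np : 0 < ‖p‖ := nq.trans_le h
  have e : p - q = ‖q‖ • (‖p‖⁻¹ • p - ‖q‖⁻¹ • q) + (‖p‖ - ‖q‖) • (‖p‖⁻¹ • p) := by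
    rw [smul_sub, smul_smul, smul_smul, smul_smul, mul_inv_cancel₀ nq.ne', sub_mul,
      mul_inv_cancel₀ np.ne']
    module
  rw [e] at hs
  have := hs.trans (norm_add_le _ _)
  rw [norm_smul, norm_smul, norm_smul, norm_norm, Real.norm_of_nonneg (sub_nonneg.mpr h), norm_inv,
    norm_norm, inv_mul_cancel₀ np.ne'] at this
  by_contra t
  push Not at t
  nlinarith

theorem cramer3 (b : Basis (Fin 3) ℝ E) (a c e u : E) :
    D3 b a c e • u = D3 b u c e • a + D3 b a u e • c + D3 b a c u • e := by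
  apply b.repr.injective
  ext i
  fin_cases i <;> simp [D3] <;> ring

theorem Cyl.frame (h3 : finrank ℝ E = 3) (h : Cyl E) (P : Finset E) (hc : 26 ≤ P.card)
    (hn : ∀ p ∈ P, ‖p‖ ≤ 1) (hs : ∀ p ∈ P, ∀ q ∈ P, p ≠ q → 1 ≤ ‖p - q‖) : Nonempty (Frame E) := by
  classical
  obtain ⟨e, f, ne, fe, fl, cy⟩ := h
  have pr : ∀ p, ‖p‖ ≤ 1 → ‖p - f p • e‖ ≤ 1 := by
    intro p hp
    simpa using seg_le (cy p hp).1 (cy p hp).2 (x := 0) (by simp)
  have lt : ∀ p, |f p| < 1 → ‖p - f p • e‖ < 1 → ‖p‖ < 1 := by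
    intro p h1 h2
    obtain ⟨m, m1, m2⟩ := exists_between (max_lt h1 h2)
    have m0 : 0 < m := ((abs_nonneg _).trans (le_max_left _ _)).trans_lt m1
    have a1 : |f p| ≤ m := ((le_max_left _ _).trans_lt m1).le
    have a2 : ‖p - f p • e‖ ≤ m := ((le_max_right _ _).trans_lt m1).le
    have q1 : ‖m⁻¹ • (p - f p • e)‖ ≤ 1 := by
      rw [norm_smul, norm_inv, Real.norm_of_nonneg m0.le, inv_mul_le_iff₀ m0]; linarith
    have c := cy _ q1
    have fq : f (m⁻¹ • (p - f p • e)) = 0 := by simp [fe]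
    rw [fq, zero_smul, sub_zero] at c
    have := seg_le c.1 c.2 (x := m⁻¹ * f p) (by
      rw [abs_mul, abs_inv, abs_of_pos m0, inv_mul_le_iff₀ m0]; linarith)
    rw [show (m⁻¹ * f p) • e + m⁻¹ • (p - f p • e) = m⁻¹ • p by module, norm_smul, norm_inv,
      Real.norm_of_nonneg m0.le, inv_mul_le_iff₀ m0] at this
    linarith
  obtain ⟨n, -, hF⟩ := Finset.exists_lt_card_fiber_of_mul_lt_card_of_maps_to (s := P)
    (t := ({-1, 0, 1} : Finset ℤ)) (f := fun p => ⌊f p⌋) (n := 8) (fun p hp => by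
      have := abs_le.mp ((fl p).trans (hn p hp))
      have a1 : -1 ≤ ⌊f p⌋ := Int.le_floor.mpr (by exact_mod_cast this.1)
      have a2 : ⌊f p⌋ < 2 := Int.floor_lt.mpr (by push_cast; linarith [this.2])
      simp only [Finset.mem_insert, Finset.mem_singleton]
      omega) (by
      have : ({-1, 0, 1} : Finset ℤ).card = 3 := by decide
      omega)
  set F := P.filter (fun p => ⌊f p⌋ = n) with hFd
  have sep : ∀ p ∈ F, ∀ q ∈ F, p ≠ q → 1 ≤ ‖(p - f p • e) - (q - f q • e)‖ := by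
    intro p hp q hq ne
    rw [hFd, Finset.mem_filter] at hp hq
    by_contra t
    push Not at t
    have := lt (p - q) (by
      rw [map_sub]; exact Int.abs_sub_lt_one_of_floor_eq_floor (hp.2.trans hq.2.symm))
      (by rw [map_sub]; exact lt_of_eq_of_lt (congrArg _ (by module)) t)
    linarith [hs p hp.1 q hq.1 ne]
  set G := F.filter (fun p => p - f p • e ≠ 0) with hG
  have G8 : 8 ≤ G.card := by
    have h1 := Finset.card_filter_add_card_filter_not (s := F) (fun p => p - f p • e ≠ 0)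
    have h2 : (F.filter (fun p => ¬ (p - f p • e ≠ 0))).card ≤ 1 := by
      rw [Finset.card_le_one]
      intro p hp q hq
      rw [Finset.mem_filter, not_not] at hp hq
      by_contra ne
      have := sep p hp.1 q hq.1 ne
      rw [hp.2, hq.2] at this
      norm_num at this
    rw [← hG] at h1
    omega
  let u : E → E := fun p => ‖p - f p • e‖⁻¹ • (p - f p • e)
  have un : ∀ p ∈ G, ‖u p‖ = 1 := by
    intro p hp
    have := (Finset.mem_filter.mp hp).2
    simp only [u]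
    rw [norm_smul, norm_inv, norm_norm, inv_mul_cancel₀ (norm_ne_zero_iff.mpr this)]
  have uf : ∀ p, f (u p) = 0 := by
    intro p; simp [u, fe]
  have us : ∀ p ∈ G, ∀ q ∈ G, p ≠ q → 1 ≤ ‖u p - u q‖ := by
    intro p hp q hq ne
    rw [hG, Finset.mem_filter] at hp hq
    have s1 := sep p hp.1 q hq.1 ne
    rcases le_total ‖q - f q • e‖ ‖p - f p • e‖ with t | t
    · exact bow (pr p (hn p (Finset.mem_filter.mp hp.1).1)) hq.2 t s1
    · rw [norm_sub_rev] at s1 ⊢
      exact bow (pr q (hn q (Finset.mem_filter.mp hq.1).1)) hp.2 t s1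
  have : FiniteDimensional ℝ E := Module.finite_of_finrank_pos (by omega)
  let b : Basis (Fin 3) ℝ E := Module.finBasisOfFinrankEq ℝ E h3
  have hne : G.Nonempty := Finset.card_pos.mp (by omega)
  obtain ⟨⟨p0, p1⟩, hp, hmax⟩ := Finset.exists_max_image (G ×ˢ G)
    (fun t => |D3 b (u t.1) (u t.2) e|) (by simpa using hne)
  simp only [Finset.mem_product] at hp
  have hm : ∀ p ∈ G, ∀ q ∈ G, |D3 b (u p) (u q) e| ≤ |D3 b (u p0) (u p1) e| :=
    fun p hp q hq => hmax (p, q) (by simp [hp, hq])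
  have hD : D3 b (u p0) (u p1) e ≠ 0 := by
    intro hD
    have opp : ∀ p ∈ G, ∀ q ∈ G, p ≠ q → u q = - u p := by
      intro p hp q hq ne
      have := hm p hp q hq
      rw [hD, abs_zero, abs_nonpos_iff] at this
      obtain ⟨x, y, z, n, d⟩ := dep_of_D3 b _ _ _ this
      have z0 : z = 0 := by simpa [uf, fe] using congrArg f d
      rw [z0, zero_smul, add_zero] at d
      have d' : x • u p = -(y • u q) := eq_neg_of_add_eq_zero_left d
      have := congrArg norm d'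
      rw [norm_neg, norm_smul x, norm_smul y, un p hp, un q hq, mul_one, mul_one, Real.norm_eq_abs,
        Real.norm_eq_abs] at this
      have y0 : y ≠ 0 := by
        rintro rfl
        exact n ⟨by simpa using this, rfl, z0⟩
      rcases abs_eq_abs.mp this with t | t
      · rw [t, ← smul_add] at d
        exact eq_neg_of_add_eq_zero_right ((smul_eq_zero.mp d).resolve_left y0)
      · rw [t, neg_smul, neg_inj] at d'
        have := smul_right_injective E y0 d'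
        have s := us p hp q hq ne
        rw [this] at s
        norm_num at s
    obtain ⟨p, q, r, hp, hq, hr, pq, pr, qr⟩ := Finset.two_lt_card_iff.mp (show 2 < G.card by omega)
    have s := us q hq r hr qr
    rw [opp p hp q hq pq, opp p hp r hr pr] at s
    norm_num at s
  obtain ⟨x, y, z, w, a1, a2, a3, a4⟩ := plane8 G u G8 (u p0) (u p1) (un _ hp.1) (un _ hp.2) un us
    (fun p hq => by
      have cr := cramer3 b (u p0) (u p1) e (u p)
      have z0 : D3 b (u p0) (u p1) (u p) = 0 := by simpa [uf, fe] using (congrArg f cr).symm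
      rw [z0, zero_smul, add_zero] at cr
      refine ⟨D3 b (u p) (u p1) e / D3 b (u p0) (u p1) e, D3 b (u p0) (u p) e / D3 b (u p0) (u p1) e,
        ?_, ?_, ?_⟩
      · rw [abs_div]; exact div_le_one_of_le₀ (hm _ hq _ hp.2) (abs_nonneg _)
      · rw [abs_div]; exact div_le_one_of_le₀ (hm _ hp.1 _ hq) (abs_nonneg _)
      · have := congrArg (fun v => (D3 b (u p0) (u p1) e)⁻¹ • v) cr
        simp only [smul_add, smul_smul, inv_mul_cancel₀ hD, one_smul] at this
        simpa only [div_eq_inv_mul] using this)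
  have c1 := cy _ a1.le
  have c2 := cy _ a2.le
  have f1 : f (x • u p0 + y • u p1) = 0 := by simp [uf]
  have f2 : f (z • u p0 + w • u p1) = 0 := by simp [uf]
  rw [f1, zero_smul, sub_zero] at c1
  rw [f2, zero_smul, sub_zero] at c2
  exact frame_of h3 e _ _ ne a1 a2 c1.1 c2.1 a3.le
    (by rw [norm_sub_rev, sub_eq_neg_add]; exact c1.2)
    (by rw [norm_sub_rev, sub_eq_neg_add]; exact c2.2) a4.le

end Pool.Agent.Lib.MP_b900b7_co
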