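import Pool.Agent.Lib.MP_b900b7_co.Tetra

set_option autoImplicit false
set_option linter.unusedSectionVars false

namespace Pool.Agent.Lib.MP_b900b7_co

open Module

variable {E : Type*} [NormedAddCommGroup E] [NormedSpace ℝ E] {S : Set E} {p0 p1 p2 p3 : E}

def Bary (p0 p1 p2 p3 q : E) : Prop :=
  ∃ b0 b1 b2 b3 : ℝ, b0 + b1 + b2 + b3 = 1 ∧ |b0| ≤ 1 ∧ |b1| ≤ 1 ∧ |b2| ≤ 1 ∧ |b3| ≤ 1 ∧
    q = b0 • p0 + b1 • p1 + b2 • p2 + b3 • p3

structure Ext (S : Set E) (p0 p1 p2 p3 q : E) : Prop where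
  mem : q ∈ S
  out : Out p0 p1 p2 p3 q
  bary : Bary p0 p1 p2 p3 q

theorem Ext.s01 {q : E} (h : Ext S p0 p1 p2 p3 q) : Ext S p1 p0 p2 p3 q := by
  obtain ⟨m, o, b0, b1, b2, b3, s, a0, a1, a2, a3, e⟩ := h
  exact ⟨m, ⟨o.2.1, o.1, o.2.2.1, o.2.2.2⟩, b1, b0, b2, b3, by linarith, a1, a0, a2, a3,
    by rw [e]; module⟩
theorem Ext.s12 {q : E} (h : Ext S p0 p1 p2 p3 q) : Ext S p0 p2 p1 p3 q := by
  obtain ⟨m, o, b0, b1, b2, b3, s, a0, a1, a2, a3, e⟩ := h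
  exact ⟨m, ⟨o.1, o.2.2.1, o.2.1, o.2.2.2⟩, b0, b2, b1, b3, by linarith, a0, a2, a1, a3,
    by rw [e]; module⟩
theorem Ext.s23 {q : E} (h : Ext S p0 p1 p2 p3 q) : Ext S p0 p1 p3 p2 q := by
  obtain ⟨m, o, b0, b1, b2, b3, s, a0, a1, a2, a3, e⟩ := h
  exact ⟨m, ⟨o.1, o.2.1, o.2.2.2, o.2.2.1⟩, b0, b1, b3, b2, by linarith, a0, a1, a3, a2,
    by rw [e]; module⟩

def IsA (p0 p1 p2 p3 x : E) : Prop :=
  InA p0 p1 p2 p3 x ∨ InA p1 p0 p2 p3 x ∨ InA p2 p0 p1 p3 x ∨ InA p3 p0 p1 p2 x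

def IsB (p0 p1 p2 p3 x : E) : Prop :=
  InB p0 p1 p2 p3 x ∨ InB p0 p2 p1 p3 x ∨ InB p0 p3 p1 p2 x ∨ InB p1 p2 p0 p3 x ∨
    InB p1 p3 p0 p2 x ∨ InB p2 p3 p0 p1 x

theorem IsA.s01 {x : E} (h : IsA p0 p1 p2 p3 x) : IsA p1 p0 p2 p3 x := by
  rcases h with h | h | h | h
  exacts [Or.inr (Or.inl h), Or.inl h, Or.inr (Or.inr (Or.inl h.s12)), Or.inr (Or.inr (Or.inr h.s12))]
theorem IsA.s12 {x : E} (h : IsA p0 p1 p2 p3 x) : IsA p0 p2 p1 p3 x := by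
  rcases h with h | h | h | h
  exacts [Or.inl h.s12, Or.inr (Or.inr (Or.inl h)), Or.inr (Or.inl h), Or.inr (Or.inr (Or.inr h.s23))]
theorem IsA.s23 {x : E} (h : IsA p0 p1 p2 p3 x) : IsA p0 p1 p3 p2 x := by
  rcases h with h | h | h | h
  exacts [Or.inl h.s23, Or.inr (Or.inl h.s23), Or.inr (Or.inr (Or.inr h)), Or.inr (Or.inr (Or.inl h))]

theorem dep5 (hS : Equi S) (m0 : p0 ∈ S) (m1 : p1 ∈ S) (m2 : p2 ∈ S) (m3 : p3 ∈ S) {q : E}
    (hq : q ∈ S) (ne : q ≠ p0) {b0 b1 b2 b3 : ℝ} (s : b0 + b1 + b2 + b3 = 1)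
    (e : q = b0 • p0 + b1 • p1 + b2 • p2 + b3 • p3) : 1 ≤ max b1 0 + max b2 0 + max b3 0 := by
  obtain ⟨φ, e0, -, t⟩ := hS.fn hq m0 ne
  have t1 := t _ m1
  have t2 := t _ m2
  have t3 := t _ m3
  have := congrArg φ e
  simp only [map_add, map_smul, smul_eq_mul] at this
  have k : 1 = b1 * (φ p1 - φ p0) + b2 * (φ p2 - φ p0) + b3 * (φ p3 - φ p0) := by
    rw [e0] at this
    linear_combination this + φ p0 * s
  have u : ∀ x y : ℝ, 0 ≤ y → y ≤ 1 → x * y ≤ max x 0 := by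
    intro x y y0 y1
    rcases le_total 0 x with h | h
    · rw [max_eq_left h]; nlinarith
    · rw [max_eq_right h]; nlinarith
  have a1 := u b1 (φ p1 - φ p0) (by linarith [t1.1]) (by linarith [t1.2])
  have a2 := u b2 (φ p2 - φ p0) (by linarith [t2.1]) (by linarith [t2.2])
  have a3 := u b3 (φ p3 - φ p0) (by linarith [t3.1]) (by linarith [t3.2])
  linarith

theorem mkA {q : E} {b0 b1 b2 b3 : ℝ} (s : b0 + b1 + b2 + b3 = 1) (a0 : -1 ≤ b0)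
    (h1 : b1 ≤ -b0) (h2 : b2 ≤ -b0) (h3 : b3 ≤ -b0)
    (e : q = b0 • p0 + b1 • p1 + b2 • p2 + b3 • p3) : InA p0 p1 p2 p3 q :=
  ⟨-b0, -b0 - b1, -b0 - b2, -b0 - b3, ⟨by linarith, by linarith, by linarith, by linarith,
    by linarith⟩, by rw [e]; unfold ptA; module⟩

theorem mkB {q : E} {b0 b1 b2 b3 : ℝ} (s : b0 + b1 + b2 + b3 = 1) (h0 : b0 < 0) (h1 : b1 < 0)
    (h2 : b2 ≤ 1) (h3 : b3 ≤ 1) (h4 : 1 ≤ b2) (h5 : 1 ≤ b3)
    (e : q = b0 • p0 + b1 • p1 + b2 • p2 + b3 • p3) : InB p0 p1 p2 p3 q := by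
  have e2 : b2 = 1 := le_antisymm h2 h4
  have e3 : b3 = 1 := le_antisymm h3 h5
  have e1 : b1 = -(1 + b0) := by linarith
  subst e2 e3
  refine ⟨-b0, by linarith, by linarith, ?_⟩
  rw [e, e1]; unfold ptB; module

theorem Tet.classify (h : Tet S p0 p1 p2 p3) {q : E} (x : Ext S p0 p1 p2 p3 q) :
    IsA p0 p1 p2 p3 q ∨ IsB p0 p1 p2 p3 q := by
  obtain ⟨m, o, b0, b1, b2, b3, s, a0, a1, a2, a3, e⟩ := x
  have d0 := dep5 h.equi h.m0 h.m1 h.m2 h.m3 m o.1 s e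
  have d1 := dep5 h.equi h.m1 h.m0 h.m2 h.m3 m o.2.1 (b0 := b1) (b1 := b0) (b2 := b2) (b3 := b3)
    (by linarith) (by rw [e]; module)
  have d2 := dep5 h.equi h.m2 h.m0 h.m1 h.m3 m o.2.2.1 (b0 := b2) (b1 := b0) (b2 := b1) (b3 := b3)
    (by linarith) (by rw [e]; module)
  have d3 := dep5 h.equi h.m3 h.m0 h.m1 h.m2 m o.2.2.2 (b0 := b3) (b1 := b0) (b2 := b1) (b3 := b2)
    (by linarith) (by rw [e]; module)
  rw [abs_le] at a0 a1 a2 a3
  have mx : ∀ t : ℝ, (t < 0 ∧ max t 0 = 0) ∨ (0 ≤ t ∧ max t 0 = t) := by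
    intro t
    rcases lt_or_ge t 0 with h | h
    · exact Or.inl ⟨h, max_eq_right h.le⟩
    · exact Or.inr ⟨h, max_eq_left h⟩
  rcases mx b0 with ⟨c0, r0⟩ | ⟨c0, r0⟩ <;> rcases mx b1 with ⟨c1, r1⟩ | ⟨c1, r1⟩ <;>
    rcases mx b2 with ⟨c2, r2⟩ | ⟨c2, r2⟩ <;> rcases mx b3 with ⟨c3, r3⟩ | ⟨c3, r3⟩ <;>
    rw [r1, r2, r3] at d0 <;> rw [r0, r2, r3] at d1 <;> rw [r0, r1, r3] at d2 <;>
    rw [r0, r1, r2] at d3
  · linarith
  · linarith
  · linarith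
  · exact Or.inr (Or.inl (mkB s c0 c1 a2.2 a3.2 (by linarith) (by linarith) e))
  · linarith
  · exact Or.inr (Or.inr (Or.inl (mkB (b0 := b0) (b1 := b2) (b2 := b1) (b3 := b3) (by linarith) c0 c2
      a1.2 a3.2 (by linarith) (by linarith) (by rw [e]; module))))
  · exact Or.inr (Or.inr (Or.inr (Or.inl (mkB (b0 := b0) (b1 := b3) (b2 := b1) (b3 := b2)
      (by linarith) c0 c3 a1.2 a2.2 (by linarith) (by linarith) (by rw [e]; module)))))
  · exact Or.inl (Or.inl (mkA s a0.1 (by linarith) (by linarith) (by linarith) e))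
  · linarith
  · exact Or.inr (Or.inr (Or.inr (Or.inr (Or.inl (mkB (b0 := b1) (b1 := b2) (b2 := b0) (b3 := b3)
      (by linarith) c1 c2 a0.2 a3.2 (by linarith) (by linarith) (by rw [e]; module))))))
  · exact Or.inr (Or.inr (Or.inr (Or.inr (Or.inr (Or.inl (mkB (b0 := b1) (b1 := b3) (b2 := b0)
      (b3 := b2) (by linarith) c1 c3 a0.2 a2.2 (by linarith) (by linarith) (by rw [e]; module)))))))
  · exact Or.inl (Or.inr (Or.inl (mkA (b0 := b1) (b1 := b0) (b2 := b2) (b3 := b3) (by linarith) a1.1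
      (by linarith) (by linarith) (by linarith) (by rw [e]; module))))
  · exact Or.inr (Or.inr (Or.inr (Or.inr (Or.inr (Or.inr (mkB (b0 := b2) (b1 := b3) (b2 := b0)
      (b3 := b1) (by linarith) c2 c3 a0.2 a1.2 (by linarith) (by linarith) (by rw [e]; module)))))))
  · exact Or.inl (Or.inr (Or.inr (Or.inl (mkA (b0 := b2) (b1 := b0) (b2 := b1) (b3 := b3)
      (by linarith) a2.1 (by linarith) (by linarith) (by linarith) (by rw [e]; module)))))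
  · exact Or.inl (Or.inr (Or.inr (Or.inr (mkA (b0 := b3) (b1 := b0) (b2 := b1) (b3 := b2)
      (by linarith) a3.1 (by linarith) (by linarith) (by linarith) (by rw [e]; module)))))
  · linarith

theorem Tet.levelB (h : Tet S p0 p1 p2 p3) {r : E} (x : Ext S p0 p1 p2 p3 r)
    (hr : InB p0 p1 p2 p3 r) : ∃ (φ : E →ₗ[ℝ] ℝ) (m : ℝ), φ p0 = m ∧ φ p1 = m ∧ φ p2 = m ∧
      φ p3 = m + 1 ∧ ∀ y ∈ S, m ≤ φ y := by
  obtain ⟨k, k0, k1, rfl⟩ := hr
  obtain ⟨φ, e0, -, t⟩ := h.equi.fn x.mem h.m2 x.out.2.2.1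
  have t0 := t _ h.m0
  have t1 := t _ h.m1
  have t3 := t _ h.m3
  rw [phiB] at e0
  have a1 := mul_nonneg k0.le (sub_nonneg.mpr t0.1)
  have a2 := mul_nonneg (sub_pos.mpr k1).le (sub_nonneg.mpr t1.1)
  have b1 : k * (φ p0 - φ p2) = 0 := by nlinarith [t3.2]
  have b2 : (1 - k) * (φ p1 - φ p2) = 0 := by nlinarith [t3.2]
  have c1 : φ p0 - φ p2 = 0 := (mul_eq_zero.mp b1).resolve_left k0.ne'
  have c2 : φ p1 - φ p2 = 0 := (mul_eq_zero.mp b2).resolve_left (sub_pos.mpr k1).ne'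
  exact ⟨φ, φ p2, by linarith, by linarith, rfl, by nlinarith, fun y hy => (t y hy).1⟩

theorem Tet.restrict (h : Tet S p0 p1 p2 p3) {r q : E} (x : Ext S p0 p1 p2 p3 r)
    (hr : InB p0 p1 p2 p3 r) (y : Ext S p0 p1 p2 p3 q) :
    InA p0 p1 p2 p3 q ∨ InA p1 p0 p2 p3 q ∨ InB p0 p1 p2 p3 q := by
  obtain ⟨φ, m, f0, f1, f2, f3, f⟩ := h.levelB x hr
  obtain ⟨ψ, n, g0, g1, g3, g2, g⟩ := h.s23.levelB x.s23 hr.s23
  have fq := f _ y.mem
  have gq := g _ y.mem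
  rcases h.classify y with (c | c | c | c) | (c | c | c | c | c | c)
  · exact Or.inl c
  · exact Or.inr (Or.inl c)
  · exfalso
    obtain ⟨c, u1, u2, u3, hu, rfl⟩ := c
    rw [phiA, g0, g1, g2, g3] at gq
    have : -c * (n + 1) + (c - u1) * n + (c - u2) * n + (c - u3) * n = n - c := by
      linear_combination n * hu.hc
    linarith [hu.h1, hu.h2, hu.h3, hu.hc]
  · exfalso
    obtain ⟨c, u1, u2, u3, hu, rfl⟩ := c
    rw [phiA, f0, f1, f2, f3] at fq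
    have : -c * (m + 1) + (c - u1) * m + (c - u2) * m + (c - u3) * m = m - c := by
      linear_combination m * hu.hc
    linarith [hu.h1, hu.h2, hu.h3, hu.hc]
  · exact Or.inr (Or.inr c)
  · exfalso
    obtain ⟨k, k0, k1, rfl⟩ := c
    rw [phiB, g0, g1, g2, g3] at gq
    linarith
  · exfalso
    obtain ⟨k, k0, k1, rfl⟩ := c
    rw [phiB, f0, f1, f2, f3] at fq
    linarith
  · exfalso
    obtain ⟨k, k0, k1, rfl⟩ := c
    rw [phiB, g0, g1, g2, g3] at gq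
    linarith
  · exfalso
    obtain ⟨k, k0, k1, rfl⟩ := c
    rw [phiB, f0, f1, f2, f3] at fq
    linarith
  · exfalso
    obtain ⟨k, k0, k1, rfl⟩ := c
    rw [phiB, g0, g1, g2, g3] at gq
    linarith

theorem Tet.caseB (h : Tet S p0 p1 p2 p3) {r q s : E} (x : Ext S p0 p1 p2 p3 r)
    (hr : InB p0 p1 p2 p3 r) (y : Ext S p0 p1 p2 p3 q) (z : Ext S p0 p1 p2 p3 s)
    (qr : q ≠ r) (sr : s ≠ r) (qs : q ≠ s) : Par S := by
  rcases h.restrict x hr y with c | c | c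
  · rcases h.restrict x hr z with d | d | d
    · exact h.sameA y.mem z.mem qs c d
    · exact h.BAA y.mem x.mem z.mem qr sr c hr d
    · exact (h.sameB z.mem x.mem sr d hr).elim
  · rcases h.restrict x hr z with d | d | d
    · exact h.BAA z.mem x.mem y.mem sr qr d hr c
    · exact h.s01.sameA y.mem z.mem qs c d
    · exact (h.sameB z.mem x.mem sr d hr).elim
  · exact (h.sameB y.mem x.mem qr c hr).elim

theorem Tet.caseB' (h : Tet S p0 p1 p2 p3) {r q s : E} (x : Ext S p0 p1 p2 p3 r)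
    (hr : IsB p0 p1 p2 p3 r) (y : Ext S p0 p1 p2 p3 q) (z : Ext S p0 p1 p2 p3 s)
    (qr : q ≠ r) (sr : s ≠ r) (qs : q ≠ s) : Par S := by
  rcases hr with c | c | c | c | c | c
  · exact h.caseB x c y z qr sr qs
  · exact h.s12.caseB x.s12 c y.s12 z.s12 qr sr qs
  · exact h.s23.s12.caseB x.s23.s12 c y.s23.s12 z.s23.s12 qr sr qs
  · exact h.s01.s12.caseB x.s01.s12 c y.s01.s12 z.s01.s12 qr sr qs
  · exact h.s01.s23.s12.caseB x.s01.s23.s12 c y.s01.s23.s12 z.s01.s23.s12 qr sr qs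
  · exact h.s12.s01.s23.s12.caseB x.s12.s01.s23.s12 c y.s12.s01.s23.s12 z.s12.s01.s23.s12 qr sr qs

theorem Tet.caseA1 (h : Tet S p0 p1 p2 p3) {q r s : E} (x : Ext S p0 p1 p2 p3 q)
    (y : Ext S p0 p1 p2 p3 r) (z : Ext S p0 p1 p2 p3 s) (qr : q ≠ r) (qs : q ≠ s) (rs : r ≠ s)
    (aq : InA p0 p1 p2 p3 q) (ar : InA p1 p0 p2 p3 r) (as : IsA p0 p1 p2 p3 s) : Par S := by
  rcases as with c | c | c | c
  · exact h.sameA x.mem z.mem qs aq c
  · exact h.s01.sameA y.mem z.mem rs ar c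
  · exact h.AAA x.mem y.mem z.mem x.out y.out z.out qr qs aq ar c
  · exact h.s23.AAA x.mem y.mem z.mem x.s23.out y.s23.out z.s23.out qr qs aq.s23 ar.s23 c

theorem Tet.caseA0 (h : Tet S p0 p1 p2 p3) {q r s : E} (x : Ext S p0 p1 p2 p3 q)
    (y : Ext S p0 p1 p2 p3 r) (z : Ext S p0 p1 p2 p3 s) (qr : q ≠ r) (qs : q ≠ s) (rs : r ≠ s)
    (aq : InA p0 p1 p2 p3 q) (ar : IsA p0 p1 p2 p3 r) (as : IsA p0 p1 p2 p3 s) : Par S := by
  rcases ar with c | c | c | c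
  · exact h.sameA x.mem y.mem qr aq c
  · exact h.caseA1 x y z qr qs rs aq c as
  · exact h.s12.caseA1 x.s12 y.s12 z.s12 qr qs rs aq.s12 c as.s12
  · exact h.s23.s12.caseA1 x.s23.s12 y.s23.s12 z.s23.s12 qr qs rs aq.s23.s12 c as.s23.s12

theorem Tet.par (h : Tet S p0 p1 p2 p3) {q r s : E} (x : Ext S p0 p1 p2 p3 q)
    (y : Ext S p0 p1 p2 p3 r) (z : Ext S p0 p1 p2 p3 s) (qr : q ≠ r) (qs : q ≠ s) (rs : r ≠ s) :
    Par S := by
  rcases h.classify x with aq | aq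
  swap
  · exact h.caseB' x aq y z qr.symm qs.symm rs
  rcases h.classify y with ar | ar
  swap
  · exact h.caseB' y ar x z qr rs.symm qs
  rcases h.classify z with as | as
  swap
  · exact h.caseB' z as x y qs rs qr
  rcases aq with c | c | c | c
  · exact h.caseA0 x y z qr qs rs c ar as
  · exact h.s01.caseA0 x.s01 y.s01 z.s01 qr qs rs c ar.s01 as.s01
  · exact h.s12.s01.caseA0 x.s12.s01 y.s12.s01 z.s12.s01 qr qs rs c ar.s12.s01 as.s12.s01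
  · exact h.s23.s12.s01.caseA0 x.s23.s12.s01 y.s23.s12.s01 z.s23.s12.s01 qr qs rs c
      ar.s23.s12.s01 as.s23.s12.s01

/-- determinant of three vectors in coordinates -/
noncomputable def D3 (b : Basis (Fin 3) ℝ E) (u v w : E) : ℝ :=
  b.repr u 0 * (b.repr v 1 * b.repr w 2 - b.repr v 2 * b.repr w 1) -
  b.repr u 1 * (b.repr v 0 * b.repr w 2 - b.repr v 2 * b.repr w 0) +
  b.repr u 2 * (b.repr v 0 * b.repr w 1 - b.repr v 1 * b.repr w 0)

noncomputable def D4 (b : Basis (Fin 3) ℝ E) (p q r s : E) : ℝ := D3 b (q - p) (r - p) (s - p)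

theorem cramer4 (b : Basis (Fin 3) ℝ E) (p0 p1 p2 p3 q : E) :
    D4 b p0 p1 p2 p3 • q = D4 b q p1 p2 p3 • p0 + D4 b p0 q p2 p3 • p1 + D4 b p0 p1 q p3 • p2 +
      D4 b p0 p1 p2 q • p3 := by
  apply b.repr.injective
  ext i
  fin_cases i <;> simp [D4, D3] <;> ring

theorem cramer4' (b : Basis (Fin 3) ℝ E) (p0 p1 p2 p3 q : E) :
    D4 b p0 p1 p2 p3 = D4 b q p1 p2 p3 + D4 b p0 q p2 p3 + D4 b p0 p1 q p3 + D4 b p0 p1 p2 q := by
  simp [D4, D3]; ring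

theorem dep_of_D3 (b : Basis (Fin 3) ℝ E) (u v w : E) (h : D3 b u v w = 0) :
    ∃ x y z : ℝ, ¬ (x = 0 ∧ y = 0 ∧ z = 0) ∧ x • u + y • v + z • w = 0 := by
  have hd : (Matrix.of ![![b.repr u 0, b.repr v 0, b.repr w 0], ![b.repr u 1, b.repr v 1, b.repr w 1],
      ![b.repr u 2, b.repr v 2, b.repr w 2]]).det = 0 := by
    rw [Matrix.det_fin_three]
    simp [D3] at h ⊢
    linarith
  obtain ⟨t, t0, ht⟩ := Matrix.exists_mulVec_eq_zero_iff.mpr hd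
  refine ⟨t 0, t 1, t 2, ?_, ?_⟩
  · rintro ⟨a, c, d⟩
    apply t0
    ext i
    fin_cases i
    · exact a
    · exact c
    · exact d
  · apply b.repr.injective
    ext i
    have := congrFun ht i
    fin_cases i <;> simp [Matrix.mulVec, dotProduct, Fin.sum_univ_three] at this ⊢ <;> linarith

theorem par_of_seven (h3 : finrank ℝ E = 3) {S : Finset E} (hS : Equi (S : Set E))
    (h7 : 7 ≤ S.card) : Par (S : Set E) := by
  classical
  have : FiniteDimensional ℝ E := Module.finite_of_finrank_pos (by omega)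
  let b : Basis (Fin 3) ℝ E := Module.finBasisOfFinrankEq ℝ E h3
  have hne : S.Nonempty := Finset.card_pos.mp (by omega)
  obtain ⟨⟨p0, p1, p2, p3⟩, hp, hmax⟩ := Finset.exists_max_image (S ×ˢ S ×ˢ S ×ˢ S)
    (fun t => |D4 b t.1 t.2.1 t.2.2.1 t.2.2.2|) (by simpa using hne)
  simp only [Finset.mem_product] at hp
  obtain ⟨m0, m1, m2, m3⟩ := hp
  have hm : ∀ p ∈ S, ∀ q ∈ S, ∀ r ∈ S, ∀ s ∈ S, |D4 b p q r s| ≤ |D4 b p0 p1 p2 p3| := by
    intro p hp q hq r hr s hs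
    exact hmax (p, q, r, s) (by simp [hp, hq, hr, hs])
  by_cases hD : D4 b p0 p1 p2 p3 = 0
  · obtain ⟨p, q, r, s, hp, hq, hr, hs, pq, pr, ps, qr, qs, rs⟩ :=
      Finset.three_lt_card_iff.mp (show 3 < S.card by omega)
    have := hm p hp q hq r hr s hs
    rw [hD, abs_zero, abs_nonpos_iff] at this
    obtain ⟨x, y, z, n, e⟩ := dep_of_D3 b _ _ _ this
    exact par_of_dep hS hp hq hr hs pq pr ps qr qs rs (-(x + y + z)) x y z (by ring)
      (by rw [← e]; module) (fun t => n t.2)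
  have T : Tet (S : Set E) p0 p1 p2 p3 := by
    refine ⟨hS, m0, m1, m2, m3, ?_, ?_, ?_, ?_, ?_, ?_⟩ <;> rintro rfl <;> apply hD <;>
      simp [D4, D3] <;> ring
  have hc : 2 < (S \ {p0, p1, p2, p3}).card := by
    have h1 := Finset.le_card_sdiff {p0, p1, p2, p3} S
    have h2 : ({p0, p1, p2, p3} : Finset E).card ≤ 4 := Finset.card_le_four
    omega
  obtain ⟨r1, r2, r3, k1, k2, k3, n12, n13, n23⟩ := Finset.two_lt_card_iff.mp hc
  have ext : ∀ q ∈ S \ {p0, p1, p2, p3}, Ext (S : Set E) p0 p1 p2 p3 q := by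
    intro q hq
    simp only [Finset.mem_sdiff, Finset.mem_insert, Finset.mem_singleton, not_or] at hq
    have ab : ∀ t : ℝ, |t| ≤ |D4 b p0 p1 p2 p3| → |t / D4 b p0 p1 p2 p3| ≤ 1 := by
      intro t ht
      rw [abs_div]
      exact div_le_one_of_le₀ ht (abs_nonneg _)
    refine ⟨hq.1, hq.2, D4 b q p1 p2 p3 / D4 b p0 p1 p2 p3, D4 b p0 q p2 p3 / D4 b p0 p1 p2 p3,
      D4 b p0 p1 q p3 / D4 b p0 p1 p2 p3, D4 b p0 p1 p2 q / D4 b p0 p1 p2 p3, ?_,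
      ab _ (hm _ hq.1 _ m1 _ m2 _ m3), ab _ (hm _ m0 _ hq.1 _ m2 _ m3),
      ab _ (hm _ m0 _ m1 _ hq.1 _ m3), ab _ (hm _ m0 _ m1 _ m2 _ hq.1), ?_⟩
    · rw [← add_div, ← add_div, ← add_div, ← cramer4', div_self hD]
    · have := congrArg (fun v => (D4 b p0 p1 p2 p3)⁻¹ • v) (cramer4 b p0 p1 p2 p3 q)
      simp only [smul_add, smul_smul, inv_mul_cancel₀ hD, one_smul] at this
      simpa only [div_eq_inv_mul] using this
  exact T.par (ext _ k1) (ext _ k2) (ext _ k3) n12 n13 n23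

theorem frame_of_seven (h3 : finrank ℝ E = 3) {S : Finset E} (hS : Equi (S : Set E))
    (h7 : 7 ≤ S.card) : Nonempty (Frame E) :=
  ((par_of_seven h3 hS h7).good h3 hS h7).frame h3 hS

end Pool.Agent.Lib.MP_b900b7_co
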