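import Pool.Agent.Lib.MP_b900b7_co.Basic

set_option autoImplicit false
set_option linter.unusedSectionVars false

namespace Pool.Agent.Lib.MP_b900b7_co

open Module

variable {E : Type*} [NormedAddCommGroup E] [NormedSpace ℝ E]

/-- Point with coordinates. -/
def pt (o a b c : E) (x y z : ℝ) : E := o + x • a + y • b + z • c

structure Ctx (S : Set E) (o a b c : E) : Prop where
  equi : Equi S
  ind : ∀ x y z : ℝ, x • a + y • b + z • c = 0 → x = 0 ∧ y = 0 ∧ z = 0
  m00 : pt o a b c 0 0 0 ∈ S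
  m10 : pt o a b c 1 0 0 ∈ S
  m01 : pt o a b c 0 1 0 ∈ S
  m11 : pt o a b c 1 1 0 ∈ S
  rng : ∀ x y z, pt o a b c x y z ∈ S → 0 ≤ x ∧ x ≤ 1 ∧ 0 ≤ y ∧ y ≤ 1

theorem pt_swap (o a b c : E) (x y z : ℝ) : pt o b a c y x z = pt o a b c x y z := by
  unfold pt; module

theorem pt_flip (o a b c : E) (x y z : ℝ) : pt (o + a) (-a) b c (1 - x) y z = pt o a b c x y z := by
  unfold pt; module

theorem pt_scale (o a b c : E) (k x y z : ℝ) : pt o a b (k • c) x y z = pt o a b c x y (z * k) := by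
  unfold pt; module

variable {S : Set E} {o a b c : E}

theorem Ctx.swap (h : Ctx S o a b c) : Ctx S o b a c where
  equi := h.equi
  ind := fun x y z e => by
    have := h.ind y x z (by rw [← e]; module)
    tauto
  m00 := by rw [pt_swap]; exact h.m00
  m10 := by rw [pt_swap]; exact h.m01
  m01 := by rw [pt_swap]; exact h.m10
  m11 := by rw [pt_swap]; exact h.m11
  rng := fun x y z e => by
    rw [pt_swap] at e
    have := h.rng _ _ _ e
    tauto

theorem Ctx.scale (h : Ctx S o a b c) (k : ℝ) (hk : k ≠ 0) : Ctx S o a b (k • c) where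
  equi := h.equi
  ind := fun x y z e => by
    have := h.ind x y (z * k) (by rw [← e]; module)
    refine ⟨this.1, this.2.1, ?_⟩
    rcases mul_eq_zero.mp this.2.2 with h | h
    · exact h
    · exact absurd h hk
  m00 := by rw [pt_scale, zero_mul]; exact h.m00
  m10 := by rw [pt_scale, zero_mul]; exact h.m10
  m01 := by rw [pt_scale, zero_mul]; exact h.m01
  m11 := by rw [pt_scale, zero_mul]; exact h.m11
  rng := fun x y z e => by
    rw [pt_scale] at e
    exact h.rng _ _ _ e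

theorem Ctx.fn (h : Ctx S o a b c) {x y z x' y' z' : ℝ} (hp : pt o a b c x y z ∈ S)
    (hq : pt o a b c x' y' z' ∈ S) (ne : ¬ (x = x' ∧ y = y' ∧ z = z')) :
    ∃ A B G : ℝ, x * A + y * B + z * G = x' * A + y' * B + z' * G + 1 ∧
      ∀ u v w, pt o a b c u v w ∈ S → x' * A + y' * B + z' * G ≤ u * A + v * B + w * G ∧
        u * A + v * B + w * G ≤ x' * A + y' * B + z' * G + 1 := by
  have hne : pt o a b c x y z ≠ pt o a b c x' y' z' := by
    intro e
    apply ne
    have := h.ind (x - x') (y - y') (z - z') (by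
      have e' : pt o a b c x y z - pt o a b c x' y' z' = 0 := sub_eq_zero.mpr e
      rw [← e']; unfold pt; module)
    exact ⟨by linarith [this.1], by linarith [this.2.1], by linarith [this.2.2]⟩
  obtain ⟨φ, h1, -, h2⟩ := h.equi.fn hp hq hne
  refine ⟨φ a, φ b, φ c, ?_, fun u v w hr => ?_⟩
  · simp only [pt, map_add, map_smul, smul_eq_mul] at h1
    linarith
  · have := h2 _ hr
    simp only [pt, map_add, map_smul, smul_eq_mul] at this
    constructor <;> linarith [this.1, this.2]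

/-- What the functional for the pair (point, corner) gives. -/
theorem Ctx.corner (h : Ctx S o a b c) {x y z : ℝ} (hp : pt o a b c x y z ∈ S) (i j : ℝ)
    (hi : i = 0 ∨ i = 1) (hj : j = 0 ∨ j = 1) (ne : ¬ (x = i ∧ y = j ∧ z = 0)) :
    ∃ A B G : ℝ, 0 ≤ (1 - 2 * i) * A ∧ 0 ≤ (1 - 2 * j) * B ∧
      (x - i) * A + (y - j) * B + z * G = 1 ∧ (1 - 2 * i) * A + (1 - 2 * j) * B ≤ 1 ∧
      ∀ u v w, pt o a b c u v w ∈ S → 0 ≤ (u - i) * A + (v - j) * B + w * G ∧
        (u - i) * A + (v - j) * B + w * G ≤ 1 := by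
  have hq : pt o a b c i j 0 ∈ S := by
    rcases hi with rfl | rfl <;> rcases hj with rfl | rfl
    exacts [h.m00, h.m01, h.m10, h.m11]
  obtain ⟨A, B, G, e, r⟩ := h.fn hp hq ne
  have r00 := r _ _ _ h.m00
  have r10 := r _ _ _ h.m10
  have r01 := r _ _ _ h.m01
  have r11 := r _ _ _ h.m11
  refine ⟨A, B, G, ?_, ?_, by linarith, ?_, fun u v w hr => ?_⟩
  · rcases hi with rfl | rfl <;> rcases hj with rfl | rfl <;> linarith [r00.1, r10.1, r01.1, r11.1]
  · rcases hi with rfl | rfl <;> rcases hj with rfl | rfl <;> linarith [r00.1, r10.1, r01.1, r11.1]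
  · rcases hi with rfl | rfl <;> rcases hj with rfl | rfl <;> linarith [r00.2, r10.2, r01.2, r11.2]
  · have := r _ _ _ hr
    constructor <;> linarith [this.1, this.2]

theorem neg_choice (x d l : ℝ) (hl : 0 < l) :
    ∃ i : ℝ, (i = 0 ∨ i = 1) ∧ (1 - 2 * i) * (d - l * (1 - i - x)) < 0 := by
  by_cases h : d - l * (1 - x) < 0
  · exact ⟨0, Or.inl rfl, by linarith⟩
  · exact ⟨1, Or.inr rfl, by nlinarith⟩

theorem sq_one {i : ℝ} (hi : i = 0 ∨ i = 1) : (1 - 2 * i) * (1 - 2 * i) = 1 := by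
  rcases hi with rfl | rfl <;> norm_num

theorem two_neg {P Q s t : ℝ} (hP : 0 ≤ P) (hQ : 0 ≤ Q) (hs : s < 0) (ht : t < 0)
    (h : 0 ≤ P * s + Q * t) : P = 0 ∧ Q = 0 := by
  constructor <;> nlinarith [mul_nonneg hP (neg_pos.mpr hs).le, mul_nonneg hQ (neg_pos.mpr ht).le]

theorem Ctx.flat (h : Ctx S o a b c) {x y : ℝ} (hp : pt o a b c x y 0 ∈ S)
    (n : ∀ i j : ℝ, (i = 0 ∨ i = 1) → (j = 0 ∨ j = 1) → ¬ (x = i ∧ y = j)) : False := by
  obtain ⟨i, hi, ei⟩ := neg_choice x 0 1 one_pos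
  obtain ⟨j, hj, ej⟩ := neg_choice y 0 1 one_pos
  obtain ⟨A, B, G, hA, hB, e, w, -⟩ := h.corner hp i j hi hj (fun t => n i j hi hj ⟨t.1, t.2.1⟩)
  have si := sq_one hi
  have sj := sq_one hj
  have := two_neg hA hB ei ej (by
    have e1 : (1 - 2 * i) * A * ((1 - 2 * i) * (0 - 1 * (1 - i - x))) = - (1 - i - x) * A := by
      linear_combination (- (1 - i - x) * A) * si
    have e2 : (1 - 2 * j) * B * ((1 - 2 * j) * (0 - 1 * (1 - j - y))) = - (1 - j - y) * B := by
      linear_combination (- (1 - j - y) * B) * sj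
    rw [e1, e2]; linarith)
  have a0 : A = 0 := by linear_combination (1 - 2 * i) * this.1 - A * si
  have b0 : B = 0 := by linear_combination (1 - 2 * j) * this.2 - B * sj
  rw [a0, b0] at e
  norm_num at e

theorem Ctx.side (h : Ctx S o a b c) {x y z x' y' z' : ℝ} (hp : pt o a b c x y z ∈ S)
    (hq : pt o a b c x' y' z' ∈ S) (hz : 0 < z) (hz' : z < z') : False := by
  have hl : 0 < (z' - z) / z := div_pos (by linarith) hz
  obtain ⟨i, hi, ei⟩ := neg_choice x (x - x') _ hl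
  obtain ⟨j, hj, ej⟩ := neg_choice y (y - y') _ hl
  obtain ⟨A, B, G, hA, hB, e, w, r⟩ := h.corner hp i j hi hj (fun t => hz.ne' t.2.2)
  have si := sq_one hi
  have sj := sq_one hj
  have r' := (r _ _ _ hq).2
  set l := (z' - z) / z with hl'
  have hzl : l * z = z' - z := by rw [hl']; field_simp
  have := two_neg hA hB ei ej (by
    have e1 : (1 - 2 * i) * A * ((1 - 2 * i) * (x - x' - l * (1 - i - x))) =
        (x - x' - l * (1 - i - x)) * A := by
      linear_combination ((x - x' - l * (1 - i - x)) * A) * si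
    have e2 : (1 - 2 * j) * B * ((1 - 2 * j) * (y - y' - l * (1 - j - y))) =
        (y - y' - l * (1 - j - y)) * B := by
      linear_combination ((y - y' - l * (1 - j - y)) * B) * sj
    rw [e1, e2]
    have k1 : (1 - i - x) * A + (1 - j - y) * B ≤ z * G := by linarith
    have k2 : (z' - z) * G ≤ (x - x') * A + (y - y') * B := by linarith
    have k3 := mul_le_mul_of_nonneg_left k1 hl.le
    have k4 : l * (z * G) = (z' - z) * G := by rw [← mul_assoc, hzl]
    linarith)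
  have a0 : A = 0 := by linear_combination (1 - 2 * i) * this.1 - A * si
  have b0 : B = 0 := by linear_combination (1 - 2 * j) * this.2 - B * sj
  rw [a0, b0] at e r'
  nlinarith

theorem Ctx.top (h : Ctx S o a b c) {x y x' y' z : ℝ} (hp : pt o a b c x y z ∈ S)
    (hq : pt o a b c x' y' z ∈ S) (ne : ¬ (x = x' ∧ y = y')) :
    (x = 0 ∧ x' = 1) ∨ (x = 1 ∧ x' = 0) ∨ (y = 0 ∧ y' = 1) ∨ (y = 1 ∧ y' = 0) := by
  obtain ⟨A, B, G, e, r⟩ := h.fn hp hq (fun t => ne ⟨t.1, t.2.1⟩)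
  have r00 := r _ _ _ h.m00
  have r10 := r _ _ _ h.m10
  have r01 := r _ _ _ h.m01
  have r11 := r _ _ _ h.m11
  obtain ⟨x0, x1, y0, y1⟩ := h.rng _ _ _ hp
  obtain ⟨x0', x1', y0', y1'⟩ := h.rng _ _ _ hq
  by_contra hc
  push Not at hc
  obtain ⟨c1, c2, c3, c4⟩ := hc
  have dx : |x - x'| < 1 := by
    rw [abs_lt]
    constructor
    · by_contra t
      exact c1 (by linarith) (by linarith)
    · by_contra t
      exact c2 (by linarith) (by linarith)
  have dy : |y - y'| < 1 := by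
    rw [abs_lt]
    constructor
    · by_contra t
      exact c3 (by linarith) (by linarith)
    · by_contra t
      exact c4 (by linarith) (by linarith)
  have w : |A| + |B| ≤ 1 := by
    rcases abs_cases A with t | t <;> rcases abs_cases B with s | s <;>
      linarith [t.1, s.1, r00.1, r10.1, r01.1, r11.1, r00.2, r10.2, r01.2, r11.2]
  have e' : (x - x') * A + (y - y') * B = 1 := by linarith
  have k1 : (x - x') * A ≤ |x - x'| * |A| := by rw [← abs_mul]; exact le_abs_self _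
  have k2 : (y - y') * B ≤ |y - y'| * |B| := by rw [← abs_mul]; exact le_abs_self _
  have := two_neg (abs_nonneg A) (abs_nonneg B) (sub_neg.mpr dx) (sub_neg.mpr dy) (by nlinarith)
  rw [abs_eq_zero.mp this.1, abs_eq_zero.mp this.2] at e'
  norm_num at e'

theorem Ctx.ne0 (h : Ctx S o a b c) (x y z : ℝ) (n : ¬ (x = 0 ∧ y = 0 ∧ z = 0)) :
    x • a + y • b + z • c ≠ 0 := fun e => n (h.ind _ _ _ e)

theorem Ctx.good (h : Ctx S o a b c) (o1 o2 o3 p1 p2 p3 q1 q2 q3 r1 r2 r3 α : ℝ)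
    (np : ¬ (p1 = 0 ∧ p2 = 0 ∧ p3 = 0)) (nq : ¬ (q1 = 0 ∧ q2 = 0 ∧ q3 = 0))
    (nr : ¬ (r1 = 0 ∧ r2 = 0 ∧ r3 = 0)) (a0 : 0 ≤ α) (a1 : α ≤ 1)
    (k0 : pt o a b c o1 o2 o3 ∈ S) (k1 : pt o a b c (o1 + p1) (o2 + p2) (o3 + p3) ∈ S)
    (k2 : pt o a b c (o1 + q1) (o2 + q2) (o3 + q3) ∈ S)
    (k3 : pt o a b c (o1 + q1 + p1) (o2 + q2 + p2) (o3 + q3 + p3) ∈ S)
    (k4 : pt o a b c (o1 + r1) (o2 + r2) (o3 + r3) ∈ S)
    (k5 : pt o a b c (o1 + r1 + p1) (o2 + r2 + p2) (o3 + r3 + p3) ∈ S)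
    (k6 : pt o a b c (o1 + q1 + r1 + α * p1) (o2 + q2 + r2 + α * p2) (o3 + q3 + r3 + α * p3) ∈ S) :
    Good S := by
  refine ⟨pt o a b c o1 o2 o3, p1 • a + p2 • b + p3 • c, q1 • a + q2 • b + q3 • c,
    r1 • a + r2 • b + r3 • c, α, h.ne0 _ _ _ np, h.ne0 _ _ _ nq, h.ne0 _ _ _ nr, a0, a1, k0,
    ?_, ?_, ?_, ?_, ?_, ?_⟩
  · convert k1 using 1; unfold pt; module
  · convert k2 using 1; unfold pt; module
  · convert k3 using 1; unfold pt; module
  · convert k4 using 1; unfold pt; module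
  · convert k5 using 1; unfold pt; module
  · convert k6 using 1; unfold pt; module

/-- two top points on a common vertical side, a third top point on the opposite side -/
theorem Ctx.good_y (h : Ctx S o a b c) {i y : ℝ} (hi : i = 0 ∨ i = 1)
    (h0 : pt o a b c i 0 1 ∈ S) (h1 : pt o a b c i 1 1 ∈ S) (h2 : pt o a b c (1 - i) y 1 ∈ S) :
    Good S := by
  obtain ⟨-, -, y0, y1⟩ := h.rng _ _ _ h2
  rcases hi with rfl | rfl
  · exact h.good 0 0 0 0 1 0 1 0 0 0 0 1 y (by simp) (by simp) (by simp) y0 y1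
      h.m00 (by simpa using h.m01) (by simpa using h.m10) (by simpa using h.m11)
      (by simpa using h0) (by simpa using h1) (by simpa using h2)
  · exact h.good 1 0 0 0 1 0 (-1) 0 0 0 0 1 y (by simp) (by simp) (by simp) y0 y1
      h.m10 (by simpa using h.m11) (by simpa using h.m00) (by simpa using h.m01)
      (by simpa using h0) (by simpa using h1) (by simpa using h2)

theorem Ctx.three_top (h : Ctx S o a b c) {y1 y2 x3 y3 : ℝ} (h1 : pt o a b c 0 y1 1 ∈ S)
    (h2 : pt o a b c 1 y2 1 ∈ S) (h3 : pt o a b c x3 y3 1 ∈ S) (n13 : ¬ (0 = x3 ∧ y1 = y3))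
    (n23 : ¬ (1 = x3 ∧ y2 = y3)) : Good S := by
  have t13 := h.top h1 h3 n13
  have t23 := h.top h2 h3 n23
  rcases t13 with ⟨-, rfl⟩ | ⟨t, -⟩ | ⟨rfl, rfl⟩ | ⟨rfl, rfl⟩
  · rcases t23 with ⟨t, -⟩ | ⟨-, t⟩ | ⟨rfl, rfl⟩ | ⟨rfl, rfl⟩
    · norm_num at t
    · norm_num at t
    · exact h.good_y (Or.inr rfl) h2 h3 (y := y1) (by simpa using h1)
    · exact h.good_y (Or.inr rfl) h3 h2 (y := y1) (by simpa using h1)
  · norm_num at t
  · rcases t23 with ⟨t, -⟩ | ⟨-, rfl⟩ | ⟨rfl, -⟩ | ⟨-, t⟩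
    · norm_num at t
    · exact h.good_y (Or.inl rfl) h1 h3 (y := y2) (by simpa using h2)
    · exact h.swap.good_y (i := 0) (y := x3) (Or.inl rfl) (by rwa [pt_swap]) (by rwa [pt_swap])
        (by rw [pt_swap]; simpa using h3)
    · norm_num at t
  · rcases t23 with ⟨t, -⟩ | ⟨-, rfl⟩ | ⟨-, t⟩ | ⟨rfl, -⟩
    · norm_num at t
    · exact h.good_y (Or.inl rfl) h3 h1 (y := y2) (by simpa using h2)
    · norm_num at t
    · exact h.swap.good_y (i := 1) (y := x3) (Or.inr rfl) (by rwa [pt_swap]) (by rwa [pt_swap])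
        (by rw [pt_swap]; simpa using h3)

theorem Ctx.below (h : Ctx S o a b c) {y1 y2 x3 y3 k : ℝ} (h1 : pt o a b c 0 y1 1 ∈ S)
    (h2 : pt o a b c 1 y2 1 ∈ S) (h3 : pt o a b c x3 y3 (-k) ∈ S) (hk : 0 < k) : Good S := by
  obtain ⟨-, -, y10, y11⟩ := h.rng _ _ _ h1
  obtain ⟨-, -, y20, y21⟩ := h.rng _ _ _ h2
  obtain ⟨x30, x31, y30, y31⟩ := h.rng _ _ _ h3
  obtain ⟨A, B, G, hA, hB, e, w, r⟩ := h.corner h1 0 0 (Or.inl rfl) (Or.inl rfl) (by simp)
  obtain ⟨A', B', G', hA', hB', e', w', r'⟩ := h.corner h1 0 1 (Or.inl rfl) (Or.inr rfl) (by simp)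
  have s2 := (r _ _ _ h2).2
  have s3 := (r _ _ _ h3).1
  have s2' := (r' _ _ _ h2).2
  have s3' := (r' _ _ _ h3).1
  norm_num at hA hB e w hA' hB' e' w' s2 s3 s2' s3'
  have G0 : 0 ≤ G := by nlinarith
  have G0' : 0 ≤ G' := by nlinarith
  have ey : y1 = y2 := by
    rcases lt_trichotomy y1 y2 with t | t | t
    · exfalso
      have := two_neg hA hB (s := -1) (t := y1 - y2) (by norm_num) (by linarith) (by nlinarith)
      rw [this.2] at e
      rw [this.1, this.2] at s3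
      nlinarith
    · exact t
    · exfalso
      have := two_neg hA' (neg_nonneg.mpr hB') (s := -1) (t := y2 - y1) (by norm_num) (by linarith)
        (by nlinarith)
      have b0 : B' = 0 := by linarith [this.2]
      rw [b0] at e'
      rw [this.1, b0] at s3'
      nlinarith
  subst ey
  have a0 : A = 0 := by linarith
  have a0' : A' = 0 := by linarith
  subst a0 a0'
  have Bp : 0 < B := by
    rcases hB.lt_or_eq with t | t
    · exact t
    · exfalso; rw [← t] at e s3; nlinarith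
  have Bp' : B' < 0 := by
    rcases hB'.lt_or_eq with t | t
    · exact t
    · exfalso; rw [t] at e' s3'; nlinarith
  have u1 : k * (1 - y1) ≤ y3 := by
    have : B * (1 - y1) ≤ G := by linarith
    have := mul_le_mul_of_nonneg_left this hk.le
    by_contra t
    push Not at t
    nlinarith
  have u2 : k * y1 ≤ 1 - y3 := by
    have : -B' * y1 ≤ G' := by linarith
    have := mul_le_mul_of_nonneg_left this hk.le
    by_contra t
    push Not at t
    nlinarith
  have key : ∀ i : ℝ, (i = 0 ∨ i = 1) → x3 ≠ 1 - i → 1 - y3 ≤ k * y1 ∧ y3 ≤ k * (1 - y1) := by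
    intro i hi hx
    have hri : pt o a b c i y1 1 ∈ S := by rcases hi with rfl | rfl; exacts [h1, h2]
    have hxi : (1 - 2 * i) * (x3 - (1 - i)) < 0 := by
      rcases hi with rfl | rfl
      · have : x3 < 1 := lt_of_le_of_ne x31 (by simpa using hx)
        linarith
      · have : 0 < x3 := lt_of_le_of_ne x30 (by simpa using hx.symm)
        linarith
    have si := sq_one hi
    obtain ⟨C, D, H, hC, hD, f, v, t⟩ := h.corner h3 i 0 hi (Or.inl rfl) (fun t => by linarith [t.2.2])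
    obtain ⟨C', D', H', hC', hD', f', v', t'⟩ :=
      h.corner h3 i 1 hi (Or.inr rfl) (fun t => by linarith [t.2.2])
    have t1 := (t _ _ _ hri).1
    have t1' := (t' _ _ _ hri).1
    norm_num at hD f v t1 hD' f' v' t1'
    have z1 : (1 - 2 * i) * C * ((1 - 2 * i) * (x3 - (1 - i))) = (x3 - (1 - i)) * C := by
      linear_combination ((x3 - (1 - i)) * C) * si
    have z2 : (1 - 2 * i) * C' * ((1 - 2 * i) * (x3 - (1 - i))) = (x3 - (1 - i)) * C' := by
      linear_combination ((x3 - (1 - i)) * C') * si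
    have n1 : (x3 - (1 - i)) * C ≤ 0 := by rw [← z1]; exact mul_nonpos_of_nonneg_of_nonpos hC hxi.le
    have n2 : (x3 - (1 - i)) * C' ≤ 0 := by rw [← z2]; exact mul_nonpos_of_nonneg_of_nonpos hC' hxi.le
    constructor
    · by_contra q
      push Not at q
      have m1 := mul_le_mul_of_nonneg_left t1 hk.le
      have := two_neg hC hD hxi (t := k * y1 - (1 - y3)) (by linarith) (by rw [z1]; nlinarith)
      have c0 : C = 0 := by linear_combination (1 - 2 * i) * this.1 - C * si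
      rw [c0, this.2] at f
      rw [this.2] at t1
      nlinarith
    · by_contra q
      push Not at q
      have m1 := mul_le_mul_of_nonneg_left t1' hk.le
      have := two_neg hC' (neg_nonneg.mpr hD') hxi (t := k * (1 - y1) - y3) (by linarith)
        (by rw [z2]; nlinarith)
      have c0 : C' = 0 := by linear_combination (1 - 2 * i) * this.1 - C' * si
      have d0 : D' = 0 := by linarith [this.2]
      rw [c0, d0] at f'
      rw [d0] at t1'
      nlinarith
  have kk : 1 - y3 ≤ k * y1 ∧ y3 ≤ k * (1 - y1) := by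
    by_cases t : x3 = 1
    · exact key 1 (Or.inr rfl) (by rw [t]; norm_num)
    · exact key 0 (Or.inl rfl) (by simpa using t)
  have k1 : k = 1 := by linarith [kk.1, kk.2]
  subst k1
  have y3e : y3 = 1 - y1 := by linarith [kk.1, kk.2]
  subst y3e
  exact h.good 0 y1 1 1 0 0 0 (-y1) (-1) 0 (1 - y1) (-1) x3 (by simp) (by simp) (by simp) x30 x31
    h1 (by simpa using h2) (by simpa using h.m00) (by simpa using h.m10) (by simpa using h.m01)
    (by simpa using h.m11) (by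
      convert h3 using 2 <;> ring)

theorem Ctx.core1 (h : Ctx S o a b c) {y1 y2 x3 y3 z3 : ℝ} (h1 : pt o a b c 0 y1 1 ∈ S)
    (h2 : pt o a b c 1 y2 1 ∈ S) (h3 : pt o a b c x3 y3 z3 ∈ S) (hz : z3 ≠ 0)
    (n13 : pt o a b c 0 y1 1 ≠ pt o a b c x3 y3 z3) (n23 : pt o a b c 1 y2 1 ≠ pt o a b c x3 y3 z3) :
    Good S := by
  rcases lt_or_gt_of_ne hz with t | t
  · exact h.below h1 h2 (k := -z3) (by simpa using h3) (by linarith)
  · have : z3 = 1 := by
      rcases lt_trichotomy z3 1 with s | s | s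
      · exact (h.side h3 h1 t s).elim
      · exact s
      · exact (h.side h1 h3 one_pos s).elim
    subst this
    refine h.three_top h1 h2 h3 ?_ ?_
    · rintro ⟨rfl, rfl⟩; exact n13 rfl
    · rintro ⟨rfl, rfl⟩; exact n23 rfl

theorem Ctx.core (h : Ctx S o a b c) {x1 y1 x2 y2 z2 x3 y3 z3 : ℝ} (h1 : pt o a b c x1 y1 1 ∈ S)
    (h2 : pt o a b c x2 y2 z2 ∈ S) (h3 : pt o a b c x3 y3 z3 ∈ S) (hz2 : 0 < z2) (hz : z3 ≠ 0)
    (n12 : pt o a b c x1 y1 1 ≠ pt o a b c x2 y2 z2)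
    (n13 : pt o a b c x1 y1 1 ≠ pt o a b c x3 y3 z3) (n23 : pt o a b c x2 y2 z2 ≠ pt o a b c x3 y3 z3) :
    Good S := by
  have : z2 = 1 := by
    rcases lt_trichotomy z2 1 with s | s | s
    · exact (h.side h2 h1 hz2 s).elim
    · exact s
    · exact (h.side h1 h2 one_pos s).elim
  subst this
  rcases h.top h1 h2 (by rintro ⟨rfl, rfl⟩; exact n12 rfl) with
    ⟨rfl, rfl⟩ | ⟨rfl, rfl⟩ | ⟨rfl, rfl⟩ | ⟨rfl, rfl⟩
  · exact h.core1 h1 h2 h3 hz n13 n23
  · exact h.core1 h2 h1 h3 hz n23 n13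
  · rw [← pt_swap] at h1 h2 h3
    rw [← pt_swap o a b c x1, ← pt_swap o a b c x3] at n13
    rw [← pt_swap o a b c x2, ← pt_swap o a b c x3] at n23
    exact h.swap.core1 h1 h2 h3 hz n13 n23
  · rw [← pt_swap] at h1 h2 h3
    rw [← pt_swap o a b c x1, ← pt_swap o a b c x3] at n13
    rw [← pt_swap o a b c x2, ← pt_swap o a b c x3] at n23
    exact h.swap.core1 h2 h1 h3 hz n23 n13

theorem Ctx.all (h : Ctx S o a b c) {x1 y1 z1 x2 y2 z2 x3 y3 z3 : ℝ} (h1 : pt o a b c x1 y1 z1 ∈ S)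
    (h2 : pt o a b c x2 y2 z2 ∈ S) (h3 : pt o a b c x3 y3 z3 ∈ S) (hz2 : 0 < z1 * z2) (hz : z3 ≠ 0)
    (n12 : pt o a b c x1 y1 z1 ≠ pt o a b c x2 y2 z2)
    (n13 : pt o a b c x1 y1 z1 ≠ pt o a b c x3 y3 z3) (n23 : pt o a b c x2 y2 z2 ≠ pt o a b c x3 y3 z3) :
    Good S := by
  have z0 : z1 ≠ 0 := by rintro rfl; simp at hz2
  have e1 : pt o a b c x1 y1 z1 = pt o a b (z1 • c) x1 y1 1 := by rw [pt_scale, one_mul]
  have e2 : pt o a b c x2 y2 z2 = pt o a b (z1 • c) x2 y2 (z2 / z1) := by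
    rw [pt_scale, div_mul_cancel₀ _ z0]
  have e3 : pt o a b c x3 y3 z3 = pt o a b (z1 • c) x3 y3 (z3 / z1) := by
    rw [pt_scale, div_mul_cancel₀ _ z0]
  rw [e1] at h1 n12 n13
  rw [e2] at h2 n12 n23
  rw [e3] at h3 n13 n23
  refine (h.scale z1 z0).core h1 h2 h3 ?_ (div_ne_zero hz z0) n12 n13 n23
  have : z2 / z1 = z1 * z2 / z1 ^ 2 := by field_simp
  rw [this]
  positivity

theorem Par.good (h3 : finrank ℝ E = 3) {S : Finset E} (hS : Equi (S : Set E)) (h7 : 7 ≤ S.card)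
    (hP : Par (S : Set E)) : Good (S : Set E) := by
  classical
  obtain ⟨o, a, b, na, nb, m0, ma, mb, mab⟩ := hP
  obtain ⟨f, fa, -, rf⟩ := hS.fn ma m0 (by simpa using na)
  obtain ⟨g, gb, -, rg⟩ := hS.fn mb m0 (by simpa using nb)
  have A1 := rf _ mb; have A2 := rf _ mab; have B1 := rg _ ma; have B2 := rg _ mab
  simp only [map_add] at fa gb A1 A2 B1 B2
  have fa1 : f a = 1 := by linarith
  have fb0 : f b = 0 := by linarith [A1.1, A2.2]
  have gb1 : g b = 1 := by linarith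
  have ga0 : g a = 0 := by linarith [B1.1, B2.2]
  obtain ⟨c, c0, fc, gc⟩ : ∃ c : E, c ≠ 0 ∧ f c = 0 ∧ g c = 0 := by
    have : FiniteDimensional ℝ E := Module.finite_of_finrank_pos (by omega)
    have hk : LinearMap.ker (f.prod g) ≠ ⊥ := by
      apply LinearMap.ker_ne_bot_of_finrank_lt
      simp [h3]
    obtain ⟨c, hc, c0⟩ := Submodule.exists_mem_ne_zero_of_ne_bot hk
    rw [LinearMap.mem_ker] at hc
    exact ⟨c, c0, congrArg Prod.fst hc, congrArg Prod.snd hc⟩
  have ind : ∀ x y z : ℝ, x • a + y • b + z • c = 0 → x = 0 ∧ y = 0 ∧ z = 0 := by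
    intro x y z e
    have e1 := congrArg f e
    have e2 := congrArg g e
    simp only [map_add, map_smul, smul_eq_mul, map_zero, fa1, fb0, gb1, ga0, fc, gc] at e1 e2
    have x0 : x = 0 := by linarith
    have y0 : y = 0 := by linarith
    rw [x0, y0] at e
    simp at e
    exact ⟨x0, y0, e.resolve_right c0⟩
  have C : Ctx (S : Set E) o a b c :=
    { equi := hS
      ind := ind
      m00 := by simpa [pt] using m0
      m10 := by simpa [pt] using ma
      m01 := by simpa [pt] using mb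
      m11 := by simpa [pt] using mab
      rng := fun x y z e => by
        have e1 := rf _ e
        have e2 := rg _ e
        simp only [pt, map_add, map_smul, smul_eq_mul, fa1, fb0, gb1, ga0, fc, gc] at e1 e2
        exact ⟨by linarith [e1.1], by linarith [e1.2], by linarith [e2.1], by linarith [e2.2]⟩ }
  have hc : 2 < (S \ {o, o + a, o + b, o + a + b}).card := by
    have h1 := Finset.le_card_sdiff {o, o + a, o + b, o + a + b} S
    have h2 : ({o, o + a, o + b, o + a + b} : Finset E).card ≤ 4 := Finset.card_le_four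
    omega
  obtain ⟨r1, r2, r3, k1, k2, k3, n12, n13, n23⟩ := Finset.two_lt_card_iff.mp hc
  have rep : ∀ r ∈ S \ {o, o + a, o + b, o + a + b}, ∃ x y z, z ≠ 0 ∧ r = pt o a b c x y z ∧
      pt o a b c x y z ∈ (S : Set E) := by
    intro r hr
    rw [Finset.mem_sdiff] at hr
    obtain ⟨x, y, z, e⟩ := span3 h3 a b c ind (r - o)
    have e' : r = pt o a b c x y z := by unfold pt; rw [add_assoc, add_assoc, ← add_assoc (x • a), ← e]; abel
    refine ⟨x, y, z, ?_, e', by rw [← e']; exact hr.1⟩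
    rintro rfl
    refine C.flat (x := x) (y := y) (by rw [← e']; exact hr.1) ?_
    rintro i j (rfl | rfl) (rfl | rfl) ⟨rfl, rfl⟩ <;> apply hr.2 <;> simp [e', pt]
  obtain ⟨x1, y1, z1, w1, rfl, s1⟩ := rep r1 k1
  obtain ⟨x2, y2, z2, w2, rfl, s2⟩ := rep r2 k2
  obtain ⟨x3, y3, z3, w3, rfl, s3⟩ := rep r3 k3
  by_cases p12 : 0 < z1 * z2
  · exact C.all s1 s2 s3 p12 w3 n12 n13 n23
  by_cases p13 : 0 < z1 * z3
  · exact C.all s1 s3 s2 p13 w2 n13 n12 n23.symm
  have p23 : 0 < z2 * z3 := by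
    have q12 : z1 * z2 < 0 := lt_of_le_of_ne (not_lt.mp p12) (mul_ne_zero w1 w2)
    have q13 : z1 * z3 < 0 := lt_of_le_of_ne (not_lt.mp p13) (mul_ne_zero w1 w3)
    have := mul_pos_of_neg_of_neg q12 q13
    have z1s : 0 < z1 ^ 2 := by positivity
    by_contra t
    push Not at t
    nlinarith
  exact C.all s2 s3 s1 p23 w1 n23 n12.symm n13.symm

end Pool.Agent.Lib.MP_b900b7_co
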