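import Pool.Agent.Lib.MP_b900b7_co.Square

set_option autoImplicit false
set_option linter.unusedSectionVars false

namespace Pool.Agent.Lib.MP_b900b7_co

open Module

variable {E : Type*} [NormedAddCommGroup E] [NormedSpace ℝ E] {S : Set E}

theorem dep4 (hS : Equi S) {p q r s : E} (hp : p ∈ S) (hq : q ∈ S) (hr : r ∈ S) (hs : s ∈ S)
    (ne : p ≠ q) (a b c d : ℝ) (h0 : a + b + c + d = 0) (h : a • p + b • q + c • r + d • s = 0) :
    a ≤ max (-c) 0 + max (-d) 0 ∧ -a ≤ max c 0 + max d 0 := by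
  obtain ⟨φ, e, -, t⟩ := hS.fn hp hq ne
  have t1 := t r hr
  have t2 := t s hs
  have := congrArg φ h
  simp only [map_add, map_smul, smul_eq_mul, map_zero] at this
  have k : a + c * (φ r - φ q) + d * (φ s - φ q) = 0 := by
    rw [e] at this
    linear_combination this - φ q * h0
  have u : ∀ x y : ℝ, 0 ≤ y → y ≤ 1 → x * y ≤ max x 0 := by
    intro x y y0 y1
    rcases le_total 0 x with h | h
    · rw [max_eq_left h]; nlinarith
    · rw [max_eq_right h]; nlinarith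
  have a1 := u (-c) (φ r - φ q) (by linarith [t1.1]) (by linarith [t1.2])
  have a2 := u (-d) (φ s - φ q) (by linarith [t2.1]) (by linarith [t2.2])
  have a3 := u c (φ r - φ q) (by linarith [t1.1]) (by linarith [t1.2])
  have a4 := u d (φ s - φ q) (by linarith [t2.1]) (by linarith [t2.2])
  constructor <;> linarith

theorem par_of_sum {p q r s : E} (hp : p ∈ S) (hq : q ∈ S) (hr : r ∈ S) (hs : s ∈ S)
    (pr : p ≠ r) (ps : p ≠ s) (h : p + q = r + s) : Par S := by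
  refine ⟨p, r - p, s - p, sub_ne_zero.mpr pr.symm, sub_ne_zero.mpr ps.symm, hp, by simpa using hr,
    by simpa using hs, ?_⟩
  have : p + (r - p) + (s - p) = q := by
    rw [show q = r + s - p by rw [← h]; abel]; abel
  rwa [this]

theorem par_sorted (hS : Equi S) {p q r s : E} (hp : p ∈ S) (hq : q ∈ S) (hr : r ∈ S) (hs : s ∈ S)
    (pr : p ≠ r) (ps : p ≠ s) (a b c d : ℝ) (h0 : a + b + c + d = 0)
    (h : a • p + b • q + c • r + d • s = 0) (ab : b ≤ a) (bc : c ≤ b) (cd : d ≤ c) (ne : d < a) :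
    Par S := by
  have k1 := (dep4 hS hp hs hq hr ps a d b c (by linarith) (by rw [← h]; module)).1
  have k2 := (dep4 hS hs hp hq hr ps.symm d a b c (by linarith) (by rw [← h]; module)).2
  have a0 : 0 < a := by linarith
  have d0 : d < 0 := by linarith
  have b0 : 0 < b := by
    by_contra t
    push Not at t
    rw [max_eq_right t, max_eq_right (by linarith : c ≤ 0)] at k2
    linarith
  have c0 : c < 0 := by
    by_contra t
    push Not at t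
    rw [max_eq_right (by linarith : -b ≤ 0), max_eq_right (by linarith : -c ≤ 0)] at k1
    linarith
  rw [max_eq_right (by linarith : -b ≤ 0), max_eq_left (by linarith : 0 ≤ -c)] at k1
  rw [max_eq_left b0.le, max_eq_right c0.le] at k2
  have eb : b = a := by linarith
  have ec : c = -a := by linarith
  have ed : d = -a := by linarith
  subst eb ec
  rw [ed] at h
  refine par_of_sum hp hq hr hs pr ps ?_
  have : b • (p + q - (r + s)) = 0 := by rw [← h]; module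
  exact sub_eq_zero.mp ((smul_eq_zero.mp this).resolve_left a0.ne')

theorem par_top (hS : Equi S) {p q r s : E} (hp : p ∈ S) (hq : q ∈ S) (hr : r ∈ S) (hs : s ∈ S)
    (pq : p ≠ q) (pr : p ≠ r) (ps : p ≠ s) (a b c d : ℝ) (h0 : a + b + c + d = 0)
    (h : a • p + b • q + c • r + d • s = 0) (ab : b ≤ a) (ac : c ≤ a) (ad : d ≤ a) (a0 : 0 < a) :
    Par S := by
  rcases le_total b c with bc | bc <;> rcases le_total b d with bd | bd <;>
    rcases le_total c d with cd | cd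
  · exact par_sorted hS hp hs hr hq pr pq a d c b (by linarith) (by rw [← h]; module) ad cd bc
      (by linarith)
  · exact par_sorted hS hp hr hs hq ps pq a c d b (by linarith) (by rw [← h]; module) ac cd bd
      (by linarith)
  · exact par_sorted hS hp hs hr hq pr pq a d c b (by linarith) (by rw [← h]; module) ad cd bc
      (by linarith)
  · exact par_sorted hS hp hr hq hs pq ps a c b d (by linarith) (by rw [← h]; module) ac bc bd
      (by linarith)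
  · exact par_sorted hS hp hs hq hr pq pr a d b c (by linarith) (by rw [← h]; module) ad bd bc
      (by linarith)
  · exact par_sorted hS hp hq hr hs pr ps a b c d h0 h ab bc cd
      (by linarith)
  · exact par_sorted hS hp hq hs hr ps pr a b d c (by linarith) (by rw [← h]; module) ab bd cd
      (by linarith)
  · exact par_sorted hS hp hq hr hs pr ps a b c d h0 h ab bc cd
      (by linarith)

theorem par_of_dep (hS : Equi S) {p q r s : E} (hp : p ∈ S) (hq : q ∈ S) (hr : r ∈ S) (hs : s ∈ S)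
    (pq : p ≠ q) (pr : p ≠ r) (ps : p ≠ s) (qr : q ≠ r) (qs : q ≠ s) (rs : r ≠ s)
    (a b c d : ℝ) (h0 : a + b + c + d = 0) (h : a • p + b • q + c • r + d • s = 0)
    (ne : ¬ (a = 0 ∧ b = 0 ∧ c = 0 ∧ d = 0)) : Par S := by
  have pos : ∀ m : ℝ, a ≤ m → b ≤ m → c ≤ m → d ≤ m → 0 < m := by
    intro m h1 h2 h3 h4
    by_contra t
    push Not at t
    exact ne ⟨by linarith, by linarith, by linarith, by linarith⟩
  by_cases A : b ≤ a ∧ c ≤ a ∧ d ≤ a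
  · exact par_top hS hp hq hr hs pq pr ps a b c d h0 h A.1 A.2.1 A.2.2 (pos a le_rfl A.1 A.2.1 A.2.2)
  by_cases B : a ≤ b ∧ c ≤ b ∧ d ≤ b
  · exact par_top hS hq hp hr hs pq.symm qr qs b a c d (by linarith) (by rw [← h]; module)
      B.1 B.2.1 B.2.2 (pos b B.1 le_rfl B.2.1 B.2.2)
  by_cases C : a ≤ c ∧ b ≤ c ∧ d ≤ c
  · exact par_top hS hr hp hq hs pr.symm qr.symm rs c a b d (by linarith) (by rw [← h]; module)
      C.1 C.2.1 C.2.2 (pos c C.1 C.2.1 le_rfl C.2.2)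
  have D : a ≤ d ∧ b ≤ d ∧ c ≤ d := by
    refine ⟨?_, ?_, ?_⟩ <;> by_contra t <;> push Not at t <;>
      rcases le_total a b with t1 | t1 <;> rcases le_total a c with t2 | t2 <;>
      rcases le_total b c with t3 | t3 <;>
      first
        | exact A ⟨by linarith, by linarith, by linarith⟩
        | exact B ⟨by linarith, by linarith, by linarith⟩
        | exact C ⟨by linarith, by linarith, by linarith⟩
  exact par_top hS hs hp hq hr ps.symm qs.symm rs.symm d a b c (by linarith) (by rw [← h]; module)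
    D.1 D.2.1 D.2.2 (pos d D.1 D.2.1 D.2.2 le_rfl)

structure Tet (S : Set E) (p0 p1 p2 p3 : E) : Prop where
  equi : Equi S
  m0 : p0 ∈ S
  m1 : p1 ∈ S
  m2 : p2 ∈ S
  m3 : p3 ∈ S
  n01 : p0 ≠ p1
  n02 : p0 ≠ p2
  n03 : p0 ≠ p3
  n12 : p1 ≠ p2
  n13 : p1 ≠ p3
  n23 : p2 ≠ p3

variable {p0 p1 p2 p3 : E}

theorem Tet.s01 (h : Tet S p0 p1 p2 p3) : Tet S p1 p0 p2 p3 :=
  ⟨h.equi, h.m1, h.m0, h.m2, h.m3, h.n01.symm, h.n12, h.n13, h.n02, h.n03, h.n23⟩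
theorem Tet.s12 (h : Tet S p0 p1 p2 p3) : Tet S p0 p2 p1 p3 :=
  ⟨h.equi, h.m0, h.m2, h.m1, h.m3, h.n02, h.n01, h.n03, h.n12.symm, h.n23, h.n13⟩
theorem Tet.s23 (h : Tet S p0 p1 p2 p3) : Tet S p0 p1 p3 p2 :=
  ⟨h.equi, h.m0, h.m1, h.m3, h.m2, h.n01, h.n03, h.n02, h.n13, h.n12, h.n23.symm⟩

/-- point of type A with parameters -/
def ptA (p0 p1 p2 p3 : E) (c u1 u2 u3 : ℝ) : E :=
  (-c) • p0 + (c - u1) • p1 + (c - u2) • p2 + (c - u3) • p3

structure ParA (c u1 u2 u3 : ℝ) : Prop where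
  h1 : 0 ≤ u1
  h2 : 0 ≤ u2
  h3 : 0 ≤ u3
  hc : 2 * c = 1 + u1 + u2 + u3
  le : c ≤ 1

def InA (p0 p1 p2 p3 q : E) : Prop :=
  ∃ c u1 u2 u3 : ℝ, ParA c u1 u2 u3 ∧ q = ptA p0 p1 p2 p3 c u1 u2 u3

def ptB (p0 p1 p2 p3 : E) (k : ℝ) : E := (-k) • p0 + (-(1 - k)) • p1 + p2 + p3

def InB (p0 p1 p2 p3 q : E) : Prop := ∃ k : ℝ, 0 < k ∧ k < 1 ∧ q = ptB p0 p1 p2 p3 k

theorem ParA.s12 {c u1 u2 u3 : ℝ} (h : ParA c u1 u2 u3) : ParA c u2 u1 u3 :=
  ⟨h.h2, h.h1, h.h3, by linarith [h.hc], h.le⟩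
theorem ParA.s23 {c u1 u2 u3 : ℝ} (h : ParA c u1 u2 u3) : ParA c u1 u3 u2 :=
  ⟨h.h1, h.h3, h.h2, by linarith [h.hc], h.le⟩
theorem ptA_s12 (c u1 u2 u3 : ℝ) : ptA p0 p2 p1 p3 c u2 u1 u3 = ptA p0 p1 p2 p3 c u1 u2 u3 := by
  unfold ptA; module
theorem ptA_s23 (c u1 u2 u3 : ℝ) : ptA p0 p1 p3 p2 c u1 u3 u2 = ptA p0 p1 p2 p3 c u1 u2 u3 := by
  unfold ptA; module
theorem InA.s12 {q : E} (h : InA p0 p1 p2 p3 q) : InA p0 p2 p1 p3 q := by
  obtain ⟨c, u1, u2, u3, h1, h2⟩ := h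
  exact ⟨c, u2, u1, u3, h1.s12, by rw [ptA_s12, h2]⟩
theorem InA.s23 {q : E} (h : InA p0 p1 p2 p3 q) : InA p0 p1 p3 p2 q := by
  obtain ⟨c, u1, u2, u3, h1, h2⟩ := h
  exact ⟨c, u1, u3, u2, h1.s23, by rw [ptA_s23, h2]⟩
theorem ptB_s01 (k : ℝ) : ptB p1 p0 p2 p3 (1 - k) = ptB p0 p1 p2 p3 k := by
  unfold ptB; module
theorem ptB_s23 (k : ℝ) : ptB p0 p1 p3 p2 k = ptB p0 p1 p2 p3 k := by
  unfold ptB; module
theorem InB.s01 {q : E} (h : InB p0 p1 p2 p3 q) : InB p1 p0 p2 p3 q := by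
  obtain ⟨k, h1, h2, h3⟩ := h
  exact ⟨1 - k, by linarith, by linarith, by rw [ptB_s01, h3]⟩
theorem InB.s23 {q : E} (h : InB p0 p1 p2 p3 q) : InB p0 p1 p3 p2 q := by
  obtain ⟨k, h1, h2, h3⟩ := h
  exact ⟨k, h1, h2, by rw [ptB_s23, h3]⟩

theorem phiA (φ : E →ₗ[ℝ] ℝ) (c u1 u2 u3 : ℝ) : φ (ptA p0 p1 p2 p3 c u1 u2 u3) =
    -c * φ p0 + (c - u1) * φ p1 + (c - u2) * φ p2 + (c - u3) * φ p3 := by
  simp [ptA]

theorem phiB (φ : E →ₗ[ℝ] ℝ) (k : ℝ) : φ (ptB p0 p1 p2 p3 k) =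
    -k * φ p0 - (1 - k) * φ p1 + φ p2 + φ p3 := by
  simp only [ptB, map_add, map_smul, smul_eq_mul]; ring

/-- a vertex of region A gives a parallelogram -/
theorem Tet.vertex (h : Tet S p0 p1 p2 p3) {c u1 u2 u3 : ℝ} (hu : ParA c u1 u2 u3)
    (hq : ptA p0 p1 p2 p3 c u1 u2 u3 ∈ S) (h1 : 1 ≤ u3) : Par S := by
  have e1 : u1 = 0 := by linarith [hu.h1, hu.h2, hu.hc, hu.le]
  have e2 : u2 = 0 := by linarith [hu.h1, hu.h2, hu.hc, hu.le]
  have e3 : u3 = 1 := by linarith [hu.h1, hu.h2, hu.hc, hu.le]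
  have ec : c = 1 := by linarith [hu.hc]
  subst e1 e2 e3 ec
  refine par_of_sum h.m0 hq h.m1 h.m2 h.n01 h.n02 ?_
  unfold ptA; module

theorem Tet.sameA (h : Tet S p0 p1 p2 p3) {q r : E} (hq : q ∈ S) (hr : r ∈ S) (ne : q ≠ r)
    (aq : InA p0 p1 p2 p3 q) (ar : InA p0 p1 p2 p3 r) : Par S := by
  obtain ⟨c, u1, u2, u3, hu, rfl⟩ := aq
  obtain ⟨d, v1, v2, v3, hv, rfl⟩ := ar
  by_cases t3 : 1 ≤ u3
  · exact h.vertex hu hq t3
  by_cases t2 : 1 ≤ u2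
  · exact h.s23.vertex hu.s23 (by rwa [ptA_s23]) t2
  by_cases t1 : 1 ≤ u1
  · exact h.s12.s23.vertex hu.s12.s23 (by rwa [ptA_s23, ptA_s12]) t1
  by_cases s3 : 1 ≤ v3
  · exact h.vertex hv hr s3
  by_cases s2 : 1 ≤ v2
  · exact h.s23.vertex hv.s23 (by rwa [ptA_s23]) s2
  by_cases s1 : 1 ≤ v1
  · exact h.s12.s23.vertex hv.s12.s23 (by rwa [ptA_s23, ptA_s12]) s1
  exfalso
  push Not at t1 t2 t3 s1 s2 s3
  have hn := h.equi _ hq _ hr ne
  set a : E := (1 / 2 : ℝ) • (p0 + p1 - p2 - p3) with ha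
  set b : E := (1 / 2 : ℝ) • (p0 - p1 + p2 - p3) with hb
  set e : E := (1 / 2 : ℝ) • (p0 - p1 - p2 + p3) with he
  have ec : c = (1 + u1 + u2 + u3) / 2 := by linarith [hu.hc]
  have ed : d = (1 + v1 + v2 + v3) / 2 := by linarith [hv.hc]
  have key : ptA p0 p1 p2 p3 c u1 u2 u3 - ptA p0 p1 p2 p3 d v1 v2 v3 =
      (v1 - u1) • a + (v2 - u2) • b + (v3 - u3) • e := by
    rw [ec, ed, ha, hb, he]; unfold ptA; module
  have u1' := hu.h1; have u2' := hu.h2; have u3' := hu.h3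
  have v1' := hv.h1; have v2' := hv.h2; have v3' := hv.h3
  have su : u1 + u2 + u3 ≤ 1 := by linarith [hu.hc, hu.le]
  have sv : v1 + v2 + v3 ≤ 1 := by linarith [hv.hc, hv.le]
  obtain ⟨m, m1, k1, k2, k3, k4⟩ : ∃ m : ℝ, m < 1 ∧ |v1 - u1| ≤ m ∧ |v2 - u2| ≤ m ∧ |v3 - u3| ≤ m ∧
      |v1 - u1| + |v2 - u2| + |v3 - u3| ≤ 2 * m := by
    refine ⟨max (max |v1 - u1| |v2 - u2|) (max |v3 - u3| ((|v1 - u1| + |v2 - u2| + |v3 - u3|) / 2)),
      ?_, ?_, ?_, ?_, ?_⟩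
    · refine max_lt (max_lt ?_ ?_) (max_lt ?_ ?_)
      · rw [abs_lt]; constructor <;> linarith
      · rw [abs_lt]; constructor <;> linarith
      · rw [abs_lt]; constructor <;> linarith
      · rcases abs_cases (v1 - u1) with a1 | a1 <;> rcases abs_cases (v2 - u2) with a2 | a2 <;>
          rcases abs_cases (v3 - u3) with a3 | a3 <;> linarith [a1.1, a2.1, a3.1]
    · exact le_max_of_le_left (le_max_left _ _)
    · exact le_max_of_le_left (le_max_right _ _)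
    · exact le_max_of_le_right (le_max_left _ _)
    · have : (|v1 - u1| + |v2 - u2| + |v3 - u3|) / 2 ≤ max (max |v1 - u1| |v2 - u2|)
          (max |v3 - u3| ((|v1 - u1| + |v2 - u2| + |v3 - u3|) / 2)) :=
        le_max_of_le_right (le_max_right _ _)
      linarith
  have := cubo a b e
    (by rw [show a + b = p0 - p3 by rw [ha, hb]; module]; exact h.equi.le h.m0 h.m3)
    (by rw [show a + e = p0 - p2 by rw [ha, he]; module]; exact h.equi.le h.m0 h.m2)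
    (by rw [show b + e = p0 - p1 by rw [hb, he]; module]; exact h.equi.le h.m0 h.m1)
    (by rw [show a - b = p1 - p2 by rw [ha, hb]; module]; exact h.equi.le h.m1 h.m2)
    (by rw [show a - e = p1 - p3 by rw [ha, he]; module]; exact h.equi.le h.m1 h.m3)
    (by rw [show b - e = p2 - p3 by rw [hb, he]; module]; exact h.equi.le h.m2 h.m3)
    _ _ _ m k1 k2 k3 k4
  rw [← key] at this
  linarith

theorem Tet.sameB (h : Tet S p0 p1 p2 p3) {q r : E} (hq : q ∈ S) (hr : r ∈ S) (ne : q ≠ r)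
    (aq : InB p0 p1 p2 p3 q) (ar : InB p0 p1 p2 p3 r) : False := by
  obtain ⟨k, k0, k1, rfl⟩ := aq
  obtain ⟨l, l0, l1, rfl⟩ := ar
  have hn := h.equi _ hq _ hr ne
  have : ptB p0 p1 p2 p3 k - ptB p0 p1 p2 p3 l = (l - k) • (p0 - p1) := by unfold ptB; module
  rw [this, norm_smul, h.equi _ h.m0 _ h.m1 h.n01, mul_one, Real.norm_eq_abs] at hn
  rcases abs_cases (l - k) with t | t <;> linarith [t.1]

/-- the functional of the edge `p0 p1` in the presence of points of types A0 and A1 -/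
theorem Tet.edge (h : Tet S p0 p1 p2 p3) {c u1 u2 u3 d v0 v2 v3 : ℝ} (hu : ParA c u1 u2 u3)
    (hv : ParA d v0 v2 v3) (hq : ptA p0 p1 p2 p3 c u1 u2 u3 ∈ S)
    (hr : ptA p1 p0 p2 p3 d v0 v2 v3 ∈ S) :
    ∃ g k : ℝ, 0 ≤ g ∧ 0 ≤ k ∧ g + k = 1 ∧ u2 * g = 0 ∧ u3 * k = 0 ∧ v2 * k = 0 ∧ v3 * g = 0 ∧
      ∀ e w0 w1 w3, ParA e w0 w1 w3 → ptA p2 p0 p1 p3 e w0 w1 w3 ∈ S →
        0 ≤ (e - w0) - e * g + (e - w3) * k ∧ (e - w0) - e * g + (e - w3) * k ≤ 1 := by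
  obtain ⟨φ, e0, -, t⟩ := h.equi.fn h.m0 h.m1 h.n01
  have t2 := t _ h.m2
  have t3 := t _ h.m3
  have tq := (t _ hq).1
  have tr := (t _ hr).2
  rw [phiA] at tq tr
  obtain ⟨g, hg⟩ : ∃ g, g = φ p2 - φ p1 := ⟨_, rfl⟩
  obtain ⟨k, hk⟩ : ∃ k, k = φ p3 - φ p1 := ⟨_, rfl⟩
  have e2 : φ p2 = φ p1 + g := by linarith
  have e3 : φ p3 = φ p1 + k := by linarith
  rw [e0, e2, e3] at tq tr
  have g0 : 0 ≤ g := by linarith [t2.1]
  have g1 : g ≤ 1 := by linarith [t2.2]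
  have k0 : 0 ≤ k := by linarith [t3.1]
  have k1 : k ≤ 1 := by linarith [t3.2]
  have q1 : u2 * g + u3 * k ≤ c * (g + k - 1) := by
    have := hu.hc
    have : -c * (φ p1 + 1) + (c - u1) * φ p1 + (c - u2) * (φ p1 + g) + (c - u3) * (φ p1 + k) - φ p1
        = c * (g + k - 1) - (u2 * g + u3 * k) := by
      linear_combination (φ p1) * this
    linarith
  have r1 : v2 * (1 - g) + v3 * (1 - k) ≤ d * (1 - g - k) := by
    have := hv.hc
    have : φ p1 + 1 - (-d * φ p1 + (d - v0) * (φ p1 + 1) + (d - v2) * (φ p1 + g) + (d - v3) * (φ p1 + k))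
        = d * (1 - g - k) - (v2 * (1 - g) + v3 * (1 - k)) := by
      linear_combination (-(φ p1) - 1) * this
    linarith
  have c0 : 0 < c := by linarith [hu.h1, hu.h2, hu.h3, hu.hc]
  have d0 : 0 < d := by linarith [hv.h1, hv.h2, hv.h3, hv.hc]
  have a1 := mul_nonneg hu.h2 g0
  have a2 := mul_nonneg hu.h3 k0
  have a3 := mul_nonneg hv.h2 (sub_nonneg.mpr g1)
  have a4 := mul_nonneg hv.h3 (sub_nonneg.mpr k1)
  have s1 : 1 ≤ g + k := by
    by_contra t; push Not at t; nlinarith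
  have s2 : g + k ≤ 1 := by
    by_contra t; push Not at t; nlinarith
  have s : g + k = 1 := le_antisymm s2 s1
  have z1 : c * (g + k - 1) = 0 := by rw [s]; ring
  have z2 : d * (1 - g - k) = 0 := by rw [show 1 - g - k = 0 by linarith]; ring
  have eg : 1 - g = k := by linarith
  have ek : 1 - k = g := by linarith
  rw [eg, ek] at r1
  rw [eg] at a3
  rw [ek] at a4
  have z3 : d * (k - k) = 0 := by ring
  refine ⟨g, k, g0, k0, s, by linarith, by linarith, by linarith, by linarith, ?_⟩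
  intro e w0 w1 w3 hw hs
  have ts := t _ hs
  rw [phiA, e0, e2, e3] at ts
  have := hw.hc
  have : -e * (φ p1 + g) + (e - w0) * (φ p1 + 1) + (e - w1) * φ p1 + (e - w3) * (φ p1 + k) - φ p1
      = (e - w0) - e * g + (e - w3) * k := by
    linear_combination (φ p1) * this
  constructor <;> linarith [ts.1, ts.2]

theorem Tet.edge3 (h : Tet S p0 p1 p2 p3) {c u1 u2 u3 d v0 v2 v3 e w0 w1 w3 : ℝ}
    (hu : ParA c u1 u2 u3) (hv : ParA d v0 v2 v3) (hw : ParA e w0 w1 w3)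
    (hq : ptA p0 p1 p2 p3 c u1 u2 u3 ∈ S) (hr : ptA p1 p0 p2 p3 d v0 v2 v3 ∈ S)
    (hs : ptA p2 p0 p1 p3 e w0 w1 w3 ∈ S) :
    (u2 = 0 ∧ v3 = 0 ∧ w0 = 0) ∨ (u3 = 0 ∧ v2 = 0 ∧ w1 = 0) ∨ (u2 = 0 ∧ u3 = 0 ∧ v2 = 0 ∧ v3 = 0) := by
  obtain ⟨g, k, g0, k0, s, a1, a2, a3, a4, t⟩ := h.edge hu hv hq hr
  have t' := t e w0 w1 w3 hw hs
  by_cases hk : k = 0
  · left
    have : g = 1 := by linarith
    subst hk this
    exact ⟨by linarith, by linarith, by linarith [t'.1, hw.h1]⟩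
  by_cases hg : g = 0
  · right; left
    have : k = 1 := by linarith
    subst hg this
    exact ⟨by linarith, by linarith, by linarith [t'.2, hw.h2, hw.hc]⟩
  right; right
  exact ⟨(mul_eq_zero.mp a1).resolve_right hg, (mul_eq_zero.mp a2).resolve_right hk,
    (mul_eq_zero.mp a3).resolve_right hk, (mul_eq_zero.mp a4).resolve_right hg⟩

theorem Tet.plane (h : Tet S p0 p1 p2 p3) {c u2 u3 d v2 v3 : ℝ}
    (hu : ParA c 0 u2 u3) (hv : ParA d 0 v2 v3)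
    (hq : ptA p0 p1 p2 p3 c 0 u2 u3 ∈ S) (hr : ptA p1 p0 p2 p3 d 0 v2 v3 ∈ S)
    (n1 : ptA p0 p1 p2 p3 c 0 u2 u3 ≠ ptA p1 p0 p2 p3 d 0 v2 v3)
    (n2 : ptA p0 p1 p2 p3 c 0 u2 u3 ≠ p2) (n3 : ptA p0 p1 p2 p3 c 0 u2 u3 ≠ p3)
    (n4 : ptA p1 p0 p2 p3 d 0 v2 v3 ≠ p2) (n5 : ptA p1 p0 p2 p3 d 0 v2 v3 ≠ p3) : Par S := by
  have d0 : 0 < d := by linarith [hv.h2, hv.h3, hv.hc]
  refine par_of_dep h.equi hq hr h.m2 h.m3 n1 n2 n3 n4 n5 h.n23 d c
    (-(d * (c - u2) + c * (d - v2))) (-(d * (c - u3) + c * (d - v3))) ?_ ?_ (fun t => d0.ne' t.1)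
  · linear_combination (-d) * hu.hc - c * hv.hc
  · unfold ptA; module

/-- `q` is none of the four vertices -/
def Out (p0 p1 p2 p3 q : E) : Prop := q ≠ p0 ∧ q ≠ p1 ∧ q ≠ p2 ∧ q ≠ p3

theorem Tet.AAA (h : Tet S p0 p1 p2 p3) {q r s : E} (hq : q ∈ S) (hr : r ∈ S) (hs : s ∈ S)
    (oq : Out p0 p1 p2 p3 q) (or' : Out p0 p1 p2 p3 r) (os : Out p0 p1 p2 p3 s)
    (qr : q ≠ r) (qs : q ≠ s)
    (aq : InA p0 p1 p2 p3 q) (ar : InA p1 p0 p2 p3 r) (as : InA p2 p0 p1 p3 s) : Par S := by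
  obtain ⟨c, u1, u2, u3, hu, rfl⟩ := aq
  obtain ⟨d, v0, v2, v3, hv, rfl⟩ := ar
  obtain ⟨e, w0, w1, w3, hw, rfl⟩ := as
  by_cases X : u1 = 0 ∧ v0 = 0
  · obtain ⟨rfl, rfl⟩ := X
    exact h.plane hu hv hq hr qr oq.2.2.1 oq.2.2.2 or'.2.2.1 or'.2.2.2
  by_cases Y : u2 = 0 ∧ w0 = 0
  · obtain ⟨rfl, rfl⟩ := Y
    rw [← ptA_s12] at hq qs oq
    exact h.s12.plane hu.s12 hw hq hs qs oq.2.1 oq.2.2.2 os.2.1 os.2.2.2
  have k := h.s01.s12.edge3 hv.s12 hw.s12 hu (by rwa [ptA_s12]) (by rwa [ptA_s12]) hq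
  rcases k with k | k | k
  · exact (X ⟨k.2.2, k.1⟩).elim
  · exact (Y ⟨k.2.2, k.2.1⟩).elim
  obtain ⟨rfl, rfl, rfl, rfl⟩ := k
  have k1 := h.edge3 hu hv hw hq hr hs
  have k2 := h.s12.edge3 hu.s12 hw hv (by rwa [ptA_s12]) hs hr
  have e2 : v2 = 0 := by
    rcases k1 with k1 | k1 | k1
    · exact (Y ⟨k1.1, rfl⟩).elim
    · exact k1.2.1
    · exact k1.2.2.1
  have e1 : w1 = 0 := by
    rcases k2 with k2 | k2 | k2
    · exact (X ⟨k2.1, rfl⟩).elim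
    · exact k2.2.1
    · exact k2.2.2.1
  subst e1 e2
  have ed : d = 1 / 2 := by linarith [hv.hc]
  have ee : e = 1 / 2 := by linarith [hw.hc]
  subst ed ee
  refine par_of_sum h.m1 hr h.m2 hs h.n12 os.2.1.symm ?_
  unfold ptA; module

theorem Tet.QR (h : Tet S p0 p1 p2 p3) {c u1 u3 d v0 v2 k : ℝ} (hu : ParA c u1 0 u3)
    (hv : ParA d v0 v2 0) (k0 : 0 < k) (k1 : k < 1) (hq : ptA p0 p1 p2 p3 c u1 0 u3 ∈ S)
    (hs : ptA p1 p0 p2 p3 d v0 v2 0 ∈ S) (hr : ptB p0 p1 p2 p3 k ∈ S)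
    (ne : ptA p0 p1 p2 p3 c u1 0 u3 ≠ ptB p0 p1 p2 p3 k) : k + (1 - k) * v2 ≤ u3 := by
  obtain ⟨φ, e0, -, t⟩ := h.equi.fn hq hr ne
  have t0 := (t _ h.m0).1
  have t1 := t _ h.m1
  have t3 := t _ h.m3
  have ts := (t _ hs).1
  rw [← e0] at t1 t3
  rw [phiA, phiB] at e0 t1 t3 ts
  rw [phiB] at t0
  obtain ⟨a, ha⟩ : ∃ a, a = (φ p0 + φ p1 - φ p2 - φ p3) / 4 := ⟨_, rfl⟩
  obtain ⟨b, hb⟩ : ∃ b, b = (φ p0 - φ p1 + φ p2 - φ p3) / 4 := ⟨_, rfl⟩
  obtain ⟨γ, hγ⟩ : ∃ γ, γ = -(φ p0 - φ p1 - φ p2 + φ p3) / 4 := ⟨_, rfl⟩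
  obtain ⟨o, ho⟩ : ∃ o, o = (φ p0 + φ p1 + φ p2 + φ p3) / 4 := ⟨_, rfl⟩
  have f0 : φ p0 = o + a + b - γ := by linarith
  have f1 : φ p1 = o + a - b + γ := by linarith
  have f2 : φ p2 = o - a + b + γ := by linarith
  have f3 : φ p3 = o - a - b - γ := by linarith
  have ec : c = (1 + u1 + u3) / 2 := by linarith [hu.hc]
  have ed : d = (1 + v0 + v2) / 2 := by linarith [hv.hc]
  rw [f0, f1, f2, f3] at e0 t0 t1 t3 ts
  rw [ec] at e0 t1 t3
  rw [ed] at ts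
  have u1' := hu.h1; have u3' := hu.h3; have v0' := hv.h1; have v2' := hv.h2
  have i0 : 0 ≤ 4 * a + (b - γ) * (2 * k) := by linarith
  have i1 : 0 ≤ 4 * a - (b - γ) * (2 * (1 - k)) := by linarith [t1.1]
  have i2 : a * (1 + u1) ≤ γ * u3 := by linarith [t1.2]
  have i3 : a * u1 ≤ γ * (1 + u3) := by linarith [t3.2]
  have i4 : 0 ≤ a - b * (1 - k) - γ * k := by linarith [t3.1]
  have i5 : 0 ≤ a * (1 - v0) + b * k - γ * (k + v2) := by linarith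
  have i6 : a * (2 - 2 * u1) - b * (2 - 2 * k) + γ * (2 - 2 * k + 2 * u3) = 1 := by linarith
  have a0 : 0 ≤ a := by nlinarith
  have γ0 : 0 ≤ γ := by
    by_contra t; push Not at t; nlinarith
  have j1 : γ * (k + (1 - k) * v2) ≤ a := by
    have := add_nonneg (mul_nonneg k0.le i4) (mul_nonneg (sub_pos.mpr k1).le i5)
    have := mul_nonneg (mul_nonneg a0 v0') (sub_pos.mpr k1).le
    nlinarith
  have j2 : a ≤ γ * u3 := by nlinarith
  rcases γ0.lt_or_eq with g | g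
  · exact le_of_mul_le_mul_left (j1.trans j2) g
  · exfalso
    subst g
    have : a = 0 := by linarith
    subst this
    have : b = 0 := by nlinarith
    subst this
    norm_num at i6

theorem Tet.BAA1 (h : Tet S p0 p1 p2 p3) {c u1 u3 d v0 v2 k : ℝ} (hu : ParA c u1 0 u3)
    (hv : ParA d v0 v2 0) (k0 : 0 < k) (k1 : k < 1) (hq : ptA p0 p1 p2 p3 c u1 0 u3 ∈ S)
    (hs : ptA p1 p0 p2 p3 d v0 v2 0 ∈ S) (hr : ptB p0 p1 p2 p3 k ∈ S)
    (ne : ptA p0 p1 p2 p3 c u1 0 u3 ≠ ptB p0 p1 p2 p3 k)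
    (ne' : ptA p1 p0 p2 p3 d v0 v2 0 ≠ ptB p0 p1 p2 p3 k) : Par S := by
  have a1 := h.QR hu hv k0 k1 hq hs hr ne
  have a2 := h.s01.s23.QR (k := 1 - k) hv.s23 hu.s23 (by linarith) (by linarith) (by rwa [ptA_s23])
    (by rwa [ptA_s23]) (by rwa [ptB_s23, ptB_s01]) (by rwa [ptA_s23, ptB_s23, ptB_s01])
  refine h.vertex hu hq ?_
  have su : u3 ≤ 1 := by linarith [hu.h1, hu.hc, hu.le]
  have sv : v2 ≤ 1 := by linarith [hv.h1, hv.hc, hv.le]
  by_contra t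
  push Not at t
  nlinarith [mul_nonneg k0.le (sub_nonneg.mpr sv), mul_pos (sub_pos.mpr k1) (sub_pos.mpr t)]

theorem Tet.BAA (h : Tet S p0 p1 p2 p3) {q r s : E} (hq : q ∈ S) (hr : r ∈ S) (hs : s ∈ S)
    (qr : q ≠ r) (sr : s ≠ r)
    (aq : InA p0 p1 p2 p3 q) (ar : InB p0 p1 p2 p3 r) (as : InA p1 p0 p2 p3 s) : Par S := by
  obtain ⟨c, u1, u2, u3, hu, rfl⟩ := aq
  obtain ⟨d, v0, v2, v3, hv, rfl⟩ := as
  obtain ⟨k, k0, k1, rfl⟩ := ar
  obtain ⟨g, l, g0, l0, s, a1, a2, a3, a4, -⟩ := h.edge hu hv hq hs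
  by_cases hg : g = 0
  · have : l = 1 := by linarith
    subst hg this
    have e1 : u3 = 0 := by linarith
    have e2 : v2 = 0 := by linarith
    subst e1 e2
    exact h.s23.BAA1 hu.s23 hv.s23 k0 k1 (by rwa [ptA_s23]) (by rwa [ptA_s23]) (by rwa [ptB_s23])
      (by rwa [ptA_s23, ptB_s23]) (by rwa [ptA_s23, ptB_s23])
  · have e1 : u2 = 0 := (mul_eq_zero.mp a1).resolve_right hg
    have e2 : v3 = 0 := (mul_eq_zero.mp a4).resolve_right hg
    subst e1 e2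
    exact h.BAA1 hu hv k0 k1 hq hs hr qr sr

end Pool.Agent.Lib.MP_b900b7_co
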