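import Pool.Agent.Lib.MP_b900b7_co.Average

set_option autoImplicit false
set_option linter.unusedSectionVars false

namespace Pool.Agent.Lib.MP_b900b7_co

open Module MeasureTheory Metric Filter Topology Pointwise

theorem normed_main {E : Type*} [NormedAddCommGroup E] [NormedSpace ℝ E] (h3 : finrank ℝ E = 3)
    (X : Set E) (x0 : E) (hx0 : x0 ∈ X) (hs : ∀ p ∈ X, ∀ q ∈ X, p ≠ q → 1 ≤ ‖p - q‖)
    (hn : ∀ x ∈ X, ∃ N : Finset E, (N : Set E) ⊆ X ∧ x ∈ N ∧ 26 ≤ N.card ∧ ∀ y ∈ N, ‖y - x‖ ≤ 1) :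
    ∃ F : Frame E, ∀ v, (∀ i, |F.f i v| ≤ 1) → ‖v‖ ≤ 1 := by
  classical
  have : FiniteDimensional ℝ E := Module.finite_of_finrank_pos (by omega)
  obtain ⟨N, N1, N0, N2, N3⟩ := hn x0 hx0
  have p0 : (0 : E) ∈ N.image (fun y => y - x0) := Finset.mem_image.mpr ⟨x0, N0, sub_self _⟩
  have pc : 26 ≤ (N.image (fun y => y - x0)).card := by
    rwa [Finset.card_image_of_injective _ sub_left_injective]
  have pn : ∀ p ∈ N.image (fun y => y - x0), ‖p‖ ≤ 1 := by
    intro p hp
    obtain ⟨y, hy, rfl⟩ := Finset.mem_image.mp hp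
    exact N3 y hy
  have ps : ∀ p ∈ N.image (fun y => y - x0), ∀ q ∈ N.image (fun y => y - x0), p ≠ q → 1 ≤ ‖p - q‖ := by
    intro p hp q hq ne
    obtain ⟨y, hy, rfl⟩ := Finset.mem_image.mp hp
    obtain ⟨z, hz, rfl⟩ := Finset.mem_image.mp hq
    rw [sub_sub_sub_cancel_right]
    exact hs y (N1 hy) z (N1 hz) (fun e => ne (by rw [e]))
  have hF : Nonempty (Frame E) := by
    by_cases h7 : ∃ S : Finset E, Equi (S : Set E) ∧ 7 ≤ S.card
    · obtain ⟨S, h1, h2⟩ := h7
      exact frame_of_seven h3 h1 h2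
    by_cases hc : Cyl E
    · exact hc.frame h3 _ pc pn ps
    exfalso
    borelize E
    refine no_packing (Module.finBasis ℝ E).addHaar h3 (fun S hS => ?_) hc X x0 hx0 hs (fun x hx => ?_)
    · by_contra t
      exact h7 ⟨S, hS, by omega⟩
    · obtain ⟨M, M1, -, M2, M3⟩ := hn x hx
      exact ⟨M, M1, M2, M3⟩
  obtain ⟨F⟩ := hF
  exact ⟨F, F.cube _ p0 pc pn ps⟩

abbrev V3 := EuclideanSpace ℝ (Fin 3)

structure Nrm where
  N : AddGroupNorm V3
  smul : ∀ (r : ℝ) (v : V3), N (r • v) ≤ ‖r‖ * N v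

def Syn (_ : Nrm) : Type := V3

noncomputable instance synGroup (n : Nrm) : AddCommGroup (Syn n) := inferInstanceAs (AddCommGroup V3)
noncomputable instance synModule (n : Nrm) : Module ℝ (Syn n) := inferInstanceAs (Module ℝ V3)
noncomputable instance synNormed (n : Nrm) : NormedAddCommGroup (Syn n) :=
  AddGroupNorm.toNormedAddCommGroup (E := Syn n) n.N
noncomputable instance synSpace (n : Nrm) : NormedSpace ℝ (Syn n) where
  norm_smul_le := n.smul

theorem nrm_main (n : Nrm) (X : Set V3) (x0 : V3) (hx0 : x0 ∈ X)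
    (hs : ∀ p ∈ X, ∀ q ∈ X, p ≠ q → 1 ≤ n.N (p - q))
    (hn : ∀ x ∈ X, ∃ N : Finset V3, (N : Set V3) ⊆ X ∧ x ∈ N ∧ 26 ≤ N.card ∧ ∀ y ∈ N, n.N (y - x) ≤ 1) :
    ∃ (e : Fin 3 → V3) (f : Fin 3 → V3 →ₗ[ℝ] ℝ), (∀ v, v = f 0 v • e 0 + f 1 v • e 1 + f 2 v • e 2) ∧
      (∀ i j, f i (e j) = if i = j then 1 else 0) ∧ ∀ v, n.N v ≤ 1 ↔ ∀ i, |f i v| ≤ 1 := by
  have h3 : finrank ℝ (Syn n) = 3 := by
    show finrank ℝ V3 = 3
    simp
  obtain ⟨F, hF⟩ := normed_main (E := Syn n) h3 X x0 hx0 hs hn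
  exact ⟨F.e, F.f, F.rep, F.dual, fun v => ⟨fun h i => (F.le i v).trans h, hF v⟩⟩

theorem final (K : Set V3) (hc : Convex ℝ K) (hk : IsCompact K) (hi : (interior K).Nonempty)
    (T : Set V3) (hT : T.Nonempty)
    (hd : ∀ s ∈ T, ∀ t ∈ T, s ≠ t →
      Disjoint (interior ((fun x => x + s) '' K)) (interior ((fun x => x + t) '' K)))
    (hn : ∀ s ∈ T, (25 : ℕ∞) ≤ {t ∈ T | t ≠ s ∧
      ((fun x => x + s) '' K ∩ (fun x => x + t) '' K).Nonempty}.encard) :
    ∃ a : V3, ∃ v : Fin 3 → V3, K = (fun x => a + x) '' parallelepiped v := by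
  classical
  obtain ⟨c0, hc0⟩ := hi
  have c0K : c0 ∈ K := interior_subset hc0
  have Dc : Convex ℝ (K - K) := hc.sub hc
  have Dk : IsCompact (K - K) := by
    rw [sub_eq_add_neg]; exact hk.add hk.neg
  have Ds : ∀ x ∈ K - K, -x ∈ K - K := by
    rintro x ⟨a, ha, b, hb, rfl⟩
    exact ⟨b, hb, a, ha, by simp⟩
  have D0 : K - K ∈ 𝓝 (0 : V3) := by
    have h1 : (fun x : V3 => x + c0) ⁻¹' K ∈ 𝓝 (0 : V3) :=
      (continuous_add_const c0).continuousAt.preimage_mem_nhds
        (by simpa using mem_interior_iff_mem_nhds.mp hc0)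
    exact mem_of_superset h1 (fun x hx => ⟨x + c0, hx, c0, c0K, by simp⟩)
  have Da : Absorbent ℝ (K - K) := absorbent_nhds_zero D0
  let n : Nrm :=
    { N :=
        { toFun := gauge (K - K)
          map_zero' := gauge_zero
          add_le' := gauge_add_le Dc Da
          neg' := gauge_neg Ds
          eq_zero_of_map_eq_zero' := fun x h => (gauge_eq_zero Da (Dk.isVonNBounded ℝ)).mp h }
      smul := fun r v => by
        show gauge (K - K) (r • v) ≤ ‖r‖ * gauge (K - K) v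
        rcases le_total 0 r with h | h
        · rw [gauge_smul_of_nonneg h, Real.norm_of_nonneg h, smul_eq_mul]
        · rw [← gauge_neg Ds, ← neg_smul, gauge_smul_of_nonneg (neg_nonneg.mpr h),
            Real.norm_of_nonpos h, smul_eq_mul] }
  have nle : ∀ v, n.N v ≤ 1 ↔ v ∈ K - K := by
    intro v
    show gauge (K - K) v ≤ 1 ↔ _
    rw [gauge_le_one_iff_mem_closure Dc D0, Dk.isClosed.closure_eq]
  obtain ⟨x0, hx0⟩ := hT
  obtain ⟨e, f, rep, dual, hf⟩ := nrm_main n T x0 hx0 (fun p hp q hq ne => by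
      by_contra t
      obtain ⟨b, b0, b1, w, ⟨c1, h1, c2, h2, rfl⟩, hw⟩ := exists_lt_of_gauge_lt Da (not_le.mp t)
      have tr : ∀ (s y : V3), y ∈ interior K → y + s ∈ interior ((fun x => x + s) '' K) := by
        intro s y hy
        have := (Homeomorph.addRight s).image_interior K
        simp only [Homeomorph.coe_addRight] at this
        rw [← this]
        exact ⟨y, hy, rfl⟩
      have i1 := tr q _ (hc.combo_interior_self_mem_interior hc0 h1 (sub_pos.mpr b1) b0.le (by ring))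
      have i2 := tr p _ (hc.combo_interior_self_mem_interior hc0 h2 (sub_pos.mpr b1) b0.le (by ring))
      simp only at hw
      have e : (1 - b) • c0 + b • c2 + p = (1 - b) • c0 + b • c1 + q := by
        rw [show p = q + b • (c1 - c2) by rw [hw]; abel]; module
      rw [e] at i2
      exact Set.disjoint_left.mp (hd p hp q hq ne) i2 i1)
    (fun x hx => by
      obtain ⟨A, hA, hA'⟩ := Set.exists_subset_encard_eq (hn x hx)
      have Af : A.Finite := Set.finite_of_encard_eq_coe hA'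
      have xA : x ∉ Af.toFinset := by
        rw [Set.Finite.mem_toFinset]
        exact fun t => (hA t).2.1 rfl
      refine ⟨insert x Af.toFinset, ?_, Finset.mem_insert_self _ _, ?_, ?_⟩
      · intro y hy
        rcases Finset.mem_insert.mp hy with rfl | hy
        · exact hx
        · exact (hA (Af.mem_toFinset.mp hy)).1
      · rw [Finset.card_insert_of_notMem xA]
        rw [Af.encard_eq_coe_toFinset_card] at hA'
        have : Af.toFinset.card = 25 := by exact_mod_cast hA'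
        omega
      · intro y hy
        rw [nle]
        rcases Finset.mem_insert.mp hy with rfl | hy
        · exact ⟨c0, c0K, c0, c0K, by simp⟩
        · obtain ⟨z, ⟨c1, h1, e1⟩, ⟨c2, h2, e2⟩⟩ := (hA (Af.mem_toFinset.mp hy)).2.2
          refine ⟨c1, h1, c2, h2, ?_⟩
          simp only at e1 e2 ⊢
          rw [show c1 = z - x by rw [← e1]; abel, show c2 = z - y by rw [← e2]; abel]
          abel)
  have wid : ∀ p ∈ K, ∀ q ∈ K, ∀ i, f i p - f i q ≤ 1 := by
    intro p hp q hq i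
    have := (hf _).mp ((nle _).mpr ⟨p, hp, q, hq, rfl⟩) i
    simp only [map_sub] at this
    exact (le_abs_self _).trans this
  have fe : ∀ (x y z : ℝ), f 0 (x • e 0 + y • e 1 + z • e 2) = x ∧ f 1 (x • e 0 + y • e 1 + z • e 2) = y
      ∧ f 2 (x • e 0 + y • e 1 + z • e 2) = z := by
    intro x y z
    simp [dual]
  have cor : ∀ x y z : ℝ, |x| ≤ 1 → |y| ≤ 1 → |z| ≤ 1 → ∃ p ∈ K, ∃ q ∈ K,
      f 0 p - f 0 q = x ∧ f 1 p - f 1 q = y ∧ f 2 p - f 2 q = z := by
    intro x y z hx hy hz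
    obtain ⟨a1, a2, a3⟩ := fe x y z
    obtain ⟨p, hp, q, hq, h⟩ := (nle _).mp ((hf (x • e 0 + y • e 1 + z • e 2)).mpr (fun i => by
      fin_cases i
      · exact a1.symm ▸ hx
      · exact a2.symm ▸ hy
      · exact a3.symm ▸ hz))
    simp only at h
    rw [← h] at a1 a2 a3
    simp only [map_sub] at a1 a2 a3
    exact ⟨p, hp, q, hq, a1, a2, a3⟩
  obtain ⟨P, hP, a, ha, P0, P1, P2⟩ := cor 1 1 1 (by simp) (by simp) (by simp)
  have rng : ∀ p ∈ K, ∀ i, f i a ≤ f i p ∧ f i p ≤ f i a + 1 := by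
    intro p hp i
    have h1 := wid P hP p hp i
    have h2 := wid p hp a ha i
    fin_cases i <;> simp only [Fin.zero_eta, Fin.mk_one, Fin.reduceFinMk] at h1 h2 ⊢ <;>
      constructor <;> linarith
  have vert : ∀ x y z : ℝ, (x = 0 ∨ x = 1) → (y = 0 ∨ y = 1) → (z = 0 ∨ z = 1) →
      a + (x • e 0 + y • e 1 + z • e 2) ∈ K := by
    intro x y z hx hy hz
    obtain ⟨p, hp, q, hq, a1, a2, a3⟩ := cor (2 * x - 1) (2 * y - 1) (2 * z - 1)
      (by rcases hx with rfl | rfl <;> norm_num) (by rcases hy with rfl | rfl <;> norm_num)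
      (by rcases hz with rfl | rfl <;> norm_num)
    have b1 : f 0 p - f 0 a = x := by
      rcases hx with rfl | rfl <;> linarith [(rng p hp 0).1, (rng p hp 0).2, (rng q hq 0).1, (rng q hq 0).2]
    have b2 : f 1 p - f 1 a = y := by
      rcases hy with rfl | rfl <;> linarith [(rng p hp 1).1, (rng p hp 1).2, (rng q hq 1).1, (rng q hq 1).2]
    have b3 : f 2 p - f 2 a = z := by
      rcases hz with rfl | rfl <;> linarith [(rng p hp 2).1, (rng p hp 2).2, (rng q hq 2).1, (rng q hq 2).2]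
    have := rep (p - a)
    simp only [map_sub, b1, b2, b3] at this
    rw [← this]
    simpa using hp
  have lin : ∀ (u w : V3) (t : ℝ), u ∈ K → u + w ∈ K → 0 ≤ t → t ≤ 1 → u + t • w ∈ K := by
    intro u w t h1 h2 t0 t1
    have := hc h1 h2 (sub_nonneg.mpr t1) t0 (by ring)
    rwa [show (1 - t) • u + t • (u + w) = u + t • w by module] at this
  refine ⟨a, e, Set.Subset.antisymm (fun p hp => ?_) ?_⟩
  · refine ⟨p - a, ?_, by simp⟩
    rw [mem_parallelepiped_iff]
    refine ⟨fun i => f i (p - a), ⟨fun i => ?_, fun i => ?_⟩, ?_⟩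
    · simp only [map_sub, Pi.zero_apply]; linarith [(rng p hp i).1]
    · simp only [map_sub, Pi.one_apply]; linarith [(rng p hp i).2]
    · rw [Fin.sum_univ_three]; exact rep _
  · rintro _ ⟨w, hw, rfl⟩
    obtain ⟨t, ⟨t0, t1⟩, rfl⟩ := (mem_parallelepiped_iff _ _).mp hw
    rw [Fin.sum_univ_three]
    have s1 : ∀ y z : ℝ, (y = 0 ∨ y = 1) → (z = 0 ∨ z = 1) →
        a + (t 0 • e 0 + y • e 1 + z • e 2) ∈ K := by
      intro y z hy hz
      have := lin _ (e 0) (t 0) (vert 0 y z (Or.inl rfl) hy hz)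
        (by convert vert 1 y z (Or.inr rfl) hy hz using 1; module) (t0 0) (t1 0)
      convert this using 1; module
    have s2 : ∀ z : ℝ, (z = 0 ∨ z = 1) → a + (t 0 • e 0 + t 1 • e 1 + z • e 2) ∈ K := by
      intro z hz
      have := lin _ (e 1) (t 1) (s1 0 z (Or.inl rfl) hz)
        (by convert s1 1 z (Or.inr rfl) hz using 1; module) (t0 1) (t1 1)
      convert this using 1; module
    have := lin _ (e 2) (t 2) (s2 0 (Or.inl rfl))
      (by convert s2 1 (Or.inr rfl) using 1; module) (t0 2) (t1 2)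
    convert this using 1; module

end Pool.Agent.Lib.MP_b900b7_co
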