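import Pool.Agent.Lib.MP_b900b7_co.Plane

set_option autoImplicit false
set_option linter.unusedSectionVars false

namespace Pool.Agent.Lib.MP_b900b7_co

open Module MeasureTheory Metric Filter Topology

variable {E : Type*} [NormedAddCommGroup E] [NormedSpace ℝ E] [FiniteDimensional ℝ E]
  [MeasurableSpace E] [BorelSpace E] (μ : Measure E) [μ.IsAddHaarMeasure]

noncomputable def VV : ℝ := μ.real (ball (0 : E) (1 / 2))

theorem ball_fin (x : E) (r : ℝ) : μ (ball x r) ≠ ⊤ := measure_ball_lt_top.ne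

theorem VV_pos : 0 < VV μ :=
  ENNReal.toReal_pos (measure_ball_pos μ _ (by norm_num)).ne' (ball_fin μ _ _)

theorem ball_vol (h3 : finrank ℝ E = 3) (x : E) {r : ℝ} (hr : 0 < r) :
    μ.real (ball x r) = (2 * r) ^ 3 * VV μ := by
  unfold VV
  simp only [Measure.real]
  rw [Measure.addHaar_ball_of_pos μ x hr, Measure.addHaar_ball_of_pos μ 0 (by norm_num : (0:ℝ) < 1 / 2),
    h3, ENNReal.toReal_mul, ENNReal.toReal_mul, ENNReal.toReal_ofReal (by positivity),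
    ENNReal.toReal_ofReal (by positivity)]
  ring

noncomputable def aa (v : E) : ℝ := μ.real (ball v 1 ∩ ball 0 1)
noncomputable def bb (v : E) : ℝ := μ.real (ball v (1 / 2) ∩ ball 0 (3 / 2))

theorem cont_inter (h3 : finrank ℝ E = 3) (S : Set E) {r : ℝ} (hr : 0 < r) :
    Continuous fun v : E => μ.real (ball v r ∩ S) := by
  have key : ∀ v w : E, μ.real (ball v r ∩ S) - μ.real (ball w r ∩ S) ≤
      ((2 * (r + dist v w)) ^ 3 - (2 * r) ^ 3) * VV μ := by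
    intro v w
    have h1 : ball v r ∩ S ⊆ (ball w r ∩ S) ∪ (ball w (r + dist v w) \ ball w r) := by
      rintro z ⟨hz, hS⟩
      by_cases h : z ∈ ball w r
      · exact Or.inl ⟨h, hS⟩
      · refine Or.inr ⟨?_, h⟩
        rw [mem_ball] at hz ⊢
        linarith [dist_triangle z v w]
    have f1 : μ (ball w r ∩ S) ≠ ⊤ := measure_ne_top_of_subset Set.inter_subset_left (ball_fin μ _ _)
    have f2 : μ (ball w (r + dist v w) \ ball w r) ≠ ⊤ :=
      measure_ne_top_of_subset Set.sdiff_subset (ball_fin μ _ _)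
    have h2 := (measureReal_mono h1 (measure_union_ne_top f1 f2)).trans (measureReal_union_le _ _)
    rw [measureReal_sdiff (ball_subset_ball (by linarith [dist_nonneg (x := v) (y := w)]))
      measurableSet_ball (ball_fin μ _ _), ball_vol μ h3 _ hr,
      ball_vol μ h3 _ (by linarith [dist_nonneg (x := v) (y := w)])] at h2
    linarith
  rw [continuous_iff_continuousAt]
  intro w
  rw [ContinuousAt, tendsto_iff_dist_tendsto_zero]
  refine squeeze_zero (fun _ => dist_nonneg)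
    (g := fun v => ((2 * (r + dist v w)) ^ 3 - (2 * r) ^ 3) * VV μ) (fun v => ?_) ?_
  · rw [Real.dist_eq, abs_le]
    have a := key v w
    have b := key w v
    rw [dist_comm] at b
    constructor <;> linarith
  · have : Continuous fun v : E => ((2 * (r + dist v w)) ^ 3 - (2 * r) ^ 3) * VV μ := by fun_prop
    simpa using this.tendsto w

def To (v : E) (c : ℝ) : Set E :=
  {z | ‖(2 : ℝ) • z - (2 * c + 1 / 2) • v‖ < 1 ∧ ‖(2 : ℝ) • z - (2 * c - 1 / 2) • v‖ < 1}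
def Tc (v : E) (c : ℝ) : Set E :=
  {z | ‖(2 : ℝ) • z - (2 * c + 1 / 2) • v‖ ≤ 1 ∧ ‖(2 : ℝ) • z - (2 * c - 1 / 2) • v‖ ≤ 1}

theorem To_open (v : E) (c : ℝ) : IsOpen (To v c) := by
  have a : IsOpen {z : E | ‖(2 : ℝ) • z - (2 * c + 1 / 2) • v‖ < 1} :=
    isOpen_lt (by fun_prop) continuous_const
  have b : IsOpen {z : E | ‖(2 : ℝ) • z - (2 * c - 1 / 2) • v‖ < 1} :=
    isOpen_lt (by fun_prop) continuous_const
  exact a.inter b

theorem Tc_closed (v : E) (c : ℝ) : IsClosed (Tc v c) := by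
  have a : IsClosed {z : E | ‖(2 : ℝ) • z - (2 * c + 1 / 2) • v‖ ≤ 1} :=
    isClosed_le (by fun_prop) continuous_const
  have b : IsClosed {z : E | ‖(2 : ℝ) • z - (2 * c - 1 / 2) • v‖ ≤ 1} :=
    isClosed_le (by fun_prop) continuous_const
  exact a.inter b

theorem To_vol (h3 : finrank ℝ E = 3) (v : E) (c : ℝ) : μ.real (To v c) = aa μ v / 8 := by
  have e : To v c = (fun z : E => (2 : ℝ) • z) ⁻¹'
      ((fun w => w + -((2 * c - 1 / 2) • v)) ⁻¹' (ball v 1 ∩ ball 0 1)) := by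
    ext z
    simp only [To, Set.mem_ofPred_eq, Set.mem_preimage, Set.mem_inter_iff, mem_ball, dist_eq_norm,
      sub_zero]
    rw [show (2 : ℝ) • z + -((2 * c - 1 / 2) • v) - v = (2 : ℝ) • z - (2 * c + 1 / 2) • v by module,
      ← sub_eq_add_neg]
  unfold aa
  simp only [Measure.real]
  rw [e, Measure.addHaar_preimage_smul μ (by norm_num : (2 : ℝ) ≠ 0), measure_preimage_add_right, h3,
    ENNReal.toReal_mul, ENNReal.toReal_ofReal (by positivity)]
  norm_num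
  ring

theorem seg_mem {v a : E} (h1 : 1 ≤ ‖v‖) {c : ℝ} (c1 : 3 / 4 ≤ c) (c2 : c ≤ 1 / 4 + ‖v‖⁻¹)
    (ha : ‖a - (1 / 2 : ℝ) • v‖ < 1) (hb : ‖a + (1 / 2 : ℝ) • v‖ < 1) :
    (1 / 2 : ℝ) • a + c • v ∈ ball v (1 / 2) ∩ ball (0 : E) (3 / 2) := by
  have t0 : 0 < ‖v‖ := by linarith
  have i1 : ‖v‖⁻¹ ≤ 1 := inv_le_one_of_one_le₀ h1
  constructor
  · rw [mem_ball, dist_eq_norm, show (1 / 2 : ℝ) • a + c • v - v =
      (5 / 4 - c) • (a - (1 / 2 : ℝ) • v) + (c - 3 / 4) • (a + (1 / 2 : ℝ) • v) by module]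
    refine (norm_add_le _ _).trans_lt ?_
    rw [norm_smul, norm_smul, Real.norm_of_nonneg (by linarith), Real.norm_of_nonneg (by linarith)]
    rcases le_total c 1 with t | t <;> nlinarith
  · rw [mem_ball, dist_eq_norm, sub_zero, show (1 / 2 : ℝ) • a + c • v =
      (1 / 2 : ℝ) • (a + (1 / 2 : ℝ) • v) + (c - 1 / 4) • v by module]
    refine (norm_add_le _ _).trans_lt ?_
    rw [norm_smul, norm_smul, Real.norm_of_nonneg (by norm_num), Real.norm_of_nonneg (by linarith)]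
    have := mul_le_mul_of_nonneg_right (show c - 1 / 4 ≤ ‖v‖⁻¹ by linarith) t0.le
    rw [inv_mul_cancel₀ t0.ne'] at this
    linarith

theorem To_sub {v : E} (h1 : 1 ≤ ‖v‖) {c : ℝ} (c1 : 3 / 4 ≤ c) (c2 : c ≤ 1 / 4 + ‖v‖⁻¹) :
    To v c ⊆ ball v (1 / 2) ∩ ball (0 : E) (3 / 2) := by
  rintro z ⟨ha, hb⟩
  have := seg_mem (a := (2 : ℝ) • z - (2 * c) • v) h1 c1 c2
    (lt_of_eq_of_lt (congrArg _ (by module)) ha) (lt_of_eq_of_lt (congrArg _ (by module)) hb)
  rwa [show (1 / 2 : ℝ) • ((2 : ℝ) • z - (2 * c) • v) + c • v = z by module] at this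

theorem split_vol (h3 : finrank ℝ E = 3) {v : E} (h1 : 1 ≤ ‖v‖) (h2 : ‖v‖ ≤ 2) :
    aa μ v / 4 + μ.real ((ball v (1 / 2) ∩ ball (0 : E) (3 / 2)) \
      (Tc v (3 / 4) ∪ Tc v (1 / 4 + ‖v‖⁻¹))) ≤ bb μ v := by
  have t0 : 0 < ‖v‖ := by linarith
  have i2 : 1 / 2 ≤ ‖v‖⁻¹ := by
    rw [one_div]; exact inv_anti₀ t0 h2
  set B := ball v (1 / 2) ∩ ball (0 : E) (3 / 2) with hB
  have fB : μ B ≠ ⊤ := measure_ne_top_of_subset Set.inter_subset_left (ball_fin μ _ _)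
  have s1 : To v (3 / 4) ⊆ B := To_sub h1 le_rfl (by linarith)
  have s2 : To v (1 / 4 + ‖v‖⁻¹) ⊆ B := To_sub h1 (by linarith) le_rfl
  have d12 : Disjoint (To v (3 / 4)) (To v (1 / 4 + ‖v‖⁻¹)) := by
    rw [Set.disjoint_left]
    rintro z ⟨-, ha⟩ ⟨hb, -⟩
    have := norm_sub_le ((2 : ℝ) • z - (2 * (3 / 4) - 1 / 2 : ℝ) • v)
      ((2 : ℝ) • z - (2 * (1 / 4 + ‖v‖⁻¹) + 1 / 2) • v)
    rw [show ((2 : ℝ) • z - (2 * (3 / 4) - 1 / 2 : ℝ) • v) -
      ((2 : ℝ) • z - (2 * (1 / 4 + ‖v‖⁻¹) + 1 / 2) • v) = (2 * ‖v‖⁻¹) • v by module, norm_smul,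
      Real.norm_of_nonneg (by positivity), mul_assoc, inv_mul_cancel₀ t0.ne'] at this
    linarith
  have d3 : Disjoint (To v (3 / 4) ∪ To v (1 / 4 + ‖v‖⁻¹)) (B \ (Tc v (3 / 4) ∪ Tc v (1 / 4 + ‖v‖⁻¹))) := by
    rw [Set.disjoint_left]
    rintro z (h | h) ⟨-, hz⟩
    · exact hz (Or.inl ⟨h.1.le, h.2.le⟩)
    · exact hz (Or.inr ⟨h.1.le, h.2.le⟩)
  have mB : MeasurableSet (B \ (Tc v (3 / 4) ∪ Tc v (1 / 4 + ‖v‖⁻¹))) :=
    (measurableSet_ball.inter measurableSet_ball).diff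
      ((Tc_closed _ _).measurableSet.union (Tc_closed _ _).measurableSet)
  have := measureReal_mono (Set.union_subset (Set.union_subset s1 s2)
    (Set.sdiff_subset (t := Tc v (3 / 4) ∪ Tc v (1 / 4 + ‖v‖⁻¹)))) fB
  rw [measureReal_union d3 mB (measure_ne_top_of_subset (Set.union_subset s1 s2) fB)
    (measure_ne_top_of_subset Set.sdiff_subset fB), measureReal_union d12 (To_open _ _).measurableSet
    (measure_ne_top_of_subset s1 fB) (measure_ne_top_of_subset s2 fB), To_vol μ h3, To_vol μ h3] at this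
  unfold bb
  linarith

theorem aa_le (h3 : finrank ℝ E = 3) {v : E} (h1 : 1 ≤ ‖v‖) (h2 : ‖v‖ ≤ 2) :
    aa μ v ≤ 4 * bb μ v := by
  have := split_vol μ h3 h1 h2
  have := measureReal_nonneg (μ := μ) (s := (ball v (1 / 2) ∩ ball (0 : E) (3 / 2)) \
      (Tc v (3 / 4) ∪ Tc v (1 / 4 + ‖v‖⁻¹)))
  linarith

theorem lim_le {a q : E} {r : ℝ} (r0 : 0 ≤ r) (r1 : r < 1) (h : ∀ n : ℕ, ‖a + (1 - r ^ n) • q‖ ≤ 1) :
    ‖a + q‖ ≤ 1 := by
  have t := tendsto_pow_atTop_nhds_zero_of_lt_one r0 r1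
  have c : Continuous fun s : ℝ => ‖a + (1 - s) • q‖ := by fun_prop
  have := (c.tendsto 0).comp t
  simpa using le_of_tendsto' this h

theorem cyl_of_cover {v : E} (h1 : 1 ≤ ‖v‖) (h2 : ‖v‖ < 2)
    (h : ball v (1 / 2) ∩ ball (0 : E) (3 / 2) ⊆ Tc v (3 / 4) ∪ Tc v (1 / 4 + ‖v‖⁻¹)) : Cyl E := by
  have t0 : 0 < ‖v‖ := by linarith
  have i2 : 1 / 2 ≤ ‖v‖⁻¹ := by
    rw [one_div]; exact inv_anti₀ t0 h2.le
  obtain ⟨e, he⟩ : ∃ e, e = ‖v‖⁻¹ • v := ⟨_, rfl⟩
  have ne : ‖e‖ = 1 := by rw [he, norm_smul, norm_inv, norm_norm, inv_mul_cancel₀ t0.ne']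
  have ve : v = ‖v‖ • e := by rw [he, smul_smul, mul_inv_cancel₀ t0.ne', one_smul]
  obtain ⟨f, fe, fl⟩ := exists_fn e ne
  have full : ∀ a, ‖a - (1 / 2 : ℝ) • v‖ < 1 → ‖a + (1 / 2 : ℝ) • v‖ < 1 →
      ‖e + (a - f a • e)‖ ≤ 1 ∧ ‖-e + (a - f a • e)‖ ≤ 1 := by
    intro a ha hb
    have cz : Continuous fun c : ℝ => (1 / 2 : ℝ) • a + c • v := by fun_prop
    obtain ⟨c, -, ⟨-, k1⟩, ⟨k2, -⟩⟩ := isPreconnected_closed_iff.mp
      (isPreconnected_Icc (a := (3 / 4 : ℝ)) (b := 1 / 4 + ‖v‖⁻¹)) _ _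
      ((Tc_closed v (3 / 4)).preimage cz) ((Tc_closed v (1 / 4 + ‖v‖⁻¹)).preimage cz)
      (fun c hc => h (seg_mem h1 hc.1 hc.2 ha hb))
      ⟨3 / 4, ⟨le_rfl, by linarith⟩, le_of_eq_of_le (congrArg _ (by module)) ha.le,
        le_of_eq_of_le (congrArg _ (by module)) hb.le⟩
      ⟨1 / 4 + ‖v‖⁻¹, ⟨by linarith, le_rfl⟩, le_of_eq_of_le (congrArg _ (by module)) ha.le,
        le_of_eq_of_le (congrArg _ (by module)) hb.le⟩
    obtain ⟨w, hw⟩ : ∃ w, w = a + (2 * c - 1 - ‖v‖⁻¹) • v := ⟨_, rfl⟩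
    have w1 : ‖e + w‖ ≤ 1 := le_of_eq_of_le (congrArg _ (by rw [he, hw]; module)) k1
    have w2 : ‖-e + w‖ ≤ 1 := le_of_eq_of_le (congrArg _ (by rw [he, hw]; module)) k2
    have a1 := (le_abs_self _).trans ((fl _).trans w1)
    have a2 := (neg_le_abs _).trans ((fl _).trans w2)
    rw [map_add, fe] at a1
    rw [map_add, map_neg, fe] at a2
    have fw : f w = 0 := by linarith
    have hw' : w = a + ((2 * c - 1 - ‖v‖⁻¹) * ‖v‖) • e := by rw [← smul_smul, ← ve, hw]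
    have : (2 * c - 1 - ‖v‖⁻¹) * ‖v‖ = - f a := by
      rw [hw', map_add, map_smul, fe, smul_eq_mul, mul_one] at fw
      linarith
    rw [this, neg_smul, ← sub_eq_add_neg] at hw'
    rw [← hw']
    exact ⟨w1, w2⟩
  obtain ⟨r, hr⟩ : ∃ r, r = ‖v‖ / 2 := ⟨_, rfl⟩
  have r0 : 0 ≤ r := by rw [hr]; positivity
  have r1 : r < 1 := by rw [hr]; linarith
  have vr : (1 / 2 : ℝ) • v = r • e := by
    rw [hr]; nth_rewrite 1 [ve]; rw [smul_smul]; congr 1; ring
  have inner : ∀ p, ‖p‖ < 1 → ‖e + (p - f p • e)‖ ≤ 1 ∧ ‖-e + (p - f p • e)‖ ≤ 1 := by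
    intro p hp
    have st : ∀ n : ℕ, ‖e + (1 - r ^ n) • (p - f p • e)‖ ≤ 1 ∧
        ‖-e + (1 - r ^ n) • (p - f p • e)‖ ≤ 1 := by
      intro n
      induction n with
      | zero => simp [ne]
      | succ n ih =>
        have bd : ∀ u : E, ‖u‖ ≤ 1 → ‖r • u + (1 - r) • p‖ < 1 := by
          intro u hu
          refine (norm_add_le _ _).trans_lt ?_
          rw [norm_smul, norm_smul, Real.norm_of_nonneg r0, Real.norm_of_nonneg (by linarith)]
          nlinarith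
        have := full (r • ((1 - r ^ n) • (p - f p • e)) + (1 - r) • p)
          (lt_of_eq_of_lt (congrArg _ (by rw [vr]; module)) (bd _ ih.2))
          (lt_of_eq_of_lt (congrArg _ (by rw [vr]; module)) (bd _ ih.1))
        have ff : f (r • ((1 - r ^ n) • (p - f p • e)) + (1 - r) • p) = (1 - r) * f p := by
          simp [fe]
        rw [ff, show r • ((1 - r ^ n) • (p - f p • e)) + (1 - r) • p - ((1 - r) * f p) • e =
          (1 - r ^ (n + 1)) • (p - f p • e) by module] at this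
        exact this
    exact ⟨lim_le r0 r1 (fun n => (st n).1), lim_le r0 r1 (fun n => (st n).2)⟩
  refine ⟨e, f, ne, fe, fl, fun p hp => ?_⟩
  have st : ∀ n : ℕ, ‖e + (1 - (1 / 2 : ℝ) ^ n) • (p - f p • e)‖ ≤ 1 ∧
      ‖-e + (1 - (1 / 2 : ℝ) ^ n) • (p - f p • e)‖ ≤ 1 := by
    intro n
    have a1 : 0 < (1 / 2 : ℝ) ^ n := by positivity
    have a2 : (1 / 2 : ℝ) ^ n ≤ 1 := pow_le_one₀ (by norm_num) (by norm_num)
    have := inner ((1 - (1 / 2 : ℝ) ^ n) • p) (by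
      rw [norm_smul, Real.norm_of_nonneg (by linarith)]
      nlinarith [norm_nonneg p])
    rwa [map_smul, smul_eq_mul, ← smul_smul, ← smul_sub] at this
  exact ⟨lim_le (by norm_num) (by norm_num) (fun n => (st n).1),
    lim_le (by norm_num) (by norm_num) (fun n => (st n).2)⟩

theorem gap (h3 : finrank ℝ E = 3) (hc : ¬ Cyl E) : ∃ η : ℝ, 0 < η ∧ ∀ v : E, 1 ≤ ‖v‖ → ‖v‖ ≤ 2 →
    VV μ / 250 ≤ bb μ v → aa μ v + η ≤ 4 * bb μ v := by
  have ca : Continuous (aa μ) := cont_inter μ h3 _ one_pos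
  have cb : Continuous (bb μ) := cont_inter μ h3 _ (by norm_num)
  let K : Set E := {v | 1 ≤ ‖v‖ ∧ ‖v‖ ≤ 2 ∧ VV μ / 250 ≤ bb μ v}
  have Kc : IsCompact K := by
    have : ProperSpace E := FiniteDimensional.proper_real E
    refine (isCompact_closedBall (0 : E) 2).of_isClosed_subset ?_ ?_
    · exact (isClosed_le continuous_const continuous_norm).inter
        ((isClosed_le continuous_norm continuous_const).inter (isClosed_le continuous_const cb))
    · intro v hv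
      simpa using hv.2.1
  rcases K.eq_empty_or_nonempty with h | h
  · refine ⟨1, one_pos, fun v h1 h2 h3 => ?_⟩
    have : v ∈ K := ⟨h1, h2, h3⟩
    rw [h] at this
    exact this.elim
  obtain ⟨w, hw, hmin⟩ := Kc.exists_isMinOn h (f := fun v => 4 * bb μ v - aa μ v)
    (by fun_prop)
  refine ⟨4 * bb μ w - aa μ w, ?_, fun v h1 h2 h3 => ?_⟩
  · by_contra t
    apply hc
    have w2 : ‖w‖ < 2 := by
      rcases hw.2.1.lt_or_eq with s | s
      · exact s
      · exfalso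
        have e : ball w (1 / 2) ∩ ball (0 : E) (3 / 2) = ∅ := by
          apply Set.disjoint_iff_inter_eq_empty.mp
          apply ball_disjoint_ball
          rw [dist_zero_right, s]; norm_num
        have := hw.2.2
        unfold bb at this
        rw [e, measureReal_empty] at this
        linarith [VV_pos μ]
    refine cyl_of_cover hw.1 w2 ?_
    rw [← Set.sdiff_eq_empty]
    have sp := split_vol μ h3 hw.1 hw.2.1
    have op : IsOpen ((ball w (1 / 2) ∩ ball (0 : E) (3 / 2)) \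
        (Tc w (3 / 4) ∪ Tc w (1 / 4 + ‖w‖⁻¹))) :=
      (isOpen_ball.inter isOpen_ball).sdiff ((Tc_closed _ _).union (Tc_closed _ _))
    by_contra ne
    have pos := ENNReal.toReal_pos (op.measure_ne_zero μ (Set.nonempty_iff_ne_empty.mpr ne))
      (measure_ne_top_of_subset (Set.sdiff_subset.trans Set.inter_subset_left) (ball_fin μ _ _))
    rw [← Measure.real] at pos
    linarith
  · have := hmin (show v ∈ K from ⟨h1, h2, h3⟩)
    simp only [Set.mem_ofPred_eq] at this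
    linarith

end Pool.Agent.Lib.MP_b900b7_co
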